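import Pool.Agent.H69.FoldOcta

set_option autoImplicit false

namespace Pool.Agent.H69.Unfold

open Complex

variable {M : ℕ} {P : ZMod M → ℂ}

/-- The algebra behind the uniqueness of the sliding class. -/
lemma rank_argument (κ x y x' y' : ℝ)
    (h : ∀ f g : ℝ →+ ℝ, κ * (f x * g y' - f y * g x') = 0)
    (hne : ∃ f g : ℝ →+ ℝ, κ * (f x * g y - f y * g x) ≠ 0) :
    ∀ f g : ℝ →+ ℝ, κ * (f x' * g y' - f y' * g x') = 0 := by
  obtain ⟨f, g, hfg⟩ := hne
  have hκ : κ ≠ 0 := fun h0 => hfg (by rw [h0, zero_mul])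
  have hd : f x * g y - f y * g x ≠ 0 := fun h0 => hfg (by rw [h0, mul_zero])
  have h1 := h f (AddMonoidHom.id ℝ)
  have h2 := h g (AddMonoidHom.id ℝ)
  simp only [AddMonoidHom.id_apply, mul_eq_zero, hκ, false_or] at h1 h2
  have hy : y' = 0 := by
    have : (f x * g y - f y * g x) * y' = 0 := by
      linear_combination g y * h1 - f y * h2
    rcases mul_eq_zero.mp this with h3 | h3
    · exact absurd h3 hd
    · exact h3
  have hx : x' = 0 := by
    have : (f x * g y - f y * g x) * x' = 0 := by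
      linear_combination g x * h1 - f x * h2
    rcases mul_eq_zero.mp this with h3 | h3
    · exact absurd h3 hd
    · exact h3
  intro f' g'
  rw [hx, hy]
  simp

lemma cross_eq (x y : ℂ) : cross x y = x.re * y.im - y.re * x.im := by
  simp [cross]
  ring

/-- the boundary term of side `k` in the main formula -/
lemma side_tau (N : Net P) (Φ : ℂ →+ ℂ) (k : ZMod M) :
    ∑ j : Fin (N.m k), cross (Φ (P k + N.cut k j * (P (k + 1) - P k)))
          (Φ (P k + N.cut k (j + 1) * (P (k + 1) - P k))) =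
      cross (Φ (P k)) (Φ (P (k + 1) - P k)) +
      tau N k (fun c => (Φ (c * (P (k + 1) - P k))).re)
        (fun c => (Φ (c * (P (k + 1) - P k))).im) := by
  have h := tau_affine N k (Φ (P k)).re (Φ (P k)).im
    (fun c => (Φ (c * (P (k + 1) - P k))).re) (fun c => (Φ (c * (P (k + 1) - P k))).im)
    (by simp) (by simp)
  simp only [Complex.ofReal_one, one_mul] at h
  rw [cross_eq, mul_comm (Φ (P (k + 1) - P k)).re, ← h]
  unfold tau
  apply Finset.sum_congr rfl
  intro j _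
  rw [cross_eq, map_add, map_add]
  simp only [Complex.add_re, Complex.add_im]

/-- the real coordinates of `Φ` on the line of a side -/
noncomputable def lineRe (Φ : ℂ →+ ℂ) (v : ℂ) : ℝ →+ ℝ where
  toFun c := (Φ (c * v)).re
  map_zero' := by simp
  map_add' := by
    intro a b
    push_cast
    rw [add_mul, map_add, Complex.add_re]

noncomputable def lineIm (Φ : ℂ →+ ℂ) (v : ℂ) : ℝ →+ ℝ where
  toFun c := (Φ (c * v)).im
  map_zero' := by simp
  map_add' := by
    intro a b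
    push_cast
    rw [add_mul, map_add, Complex.add_im]

lemma lineRe_apply (Φ : ℂ →+ ℂ) (v : ℂ) (c : ℝ) : lineRe Φ v c = (Φ (c * v)).re := rfl

lemma lineIm_apply (Φ : ℂ →+ ℂ) (v : ℂ) (c : ℝ) : lineIm Φ v c = (Φ (c * v)).im := rfl

/-- the boundary terms in the coordinates of a class -/
lemma tau_class (N : Net P) (Φ : ℂ →+ ℂ) (hΦ : ∀ ρ : ℂ, ρ ^ 3 = 1 → ∀ z, Φ (ρ * z) = ρ * Φ z)
    (κ k : ZMod M) (hκ : P (κ + 1) - P κ ≠ 0)
    (h : (((P (k + 1) - P k) / (P (κ + 1) - P κ)) ^ 3).im = 0) :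
    tau N k (fun c => (Φ (c * (P (k + 1) - P k))).re)
        (fun c => (Φ (c * (P (k + 1) - P k))).im) =
      tau N k (fun c => lineRe Φ (P (κ + 1) - P κ) (c * wt P κ k))
        (fun c => lineIm Φ (P (κ + 1) - P κ) (c * wt P κ k)) := by
  obtain ⟨ρ, hρ, hv⟩ := sl_spec h
  have hρ1 : ‖ρ‖ = 1 := by
    have h3 : ‖ρ‖ ^ 3 = 1 := by rw [← norm_pow, hρ, norm_one]
    exact (pow_eq_one_iff_of_nonneg (norm_nonneg _) (by norm_num)).mp h3
  have hv2 : P (k + 1) - P k = ρ * ((wt P κ k : ℂ) * (P (κ + 1) - P κ)) := by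
    rw [div_eq_iff hκ] at hv
    rw [hv]
    unfold wt
    ring
  have hval : ∀ c : ℝ, Φ (c * (P (k + 1) - P k)) =
      ρ * Φ (((c * wt P κ k : ℝ) : ℂ) * (P (κ + 1) - P κ)) := by
    intro c
    rw [← hΦ ρ hρ, hv2]
    congr 1
    push_cast
    ring
  unfold tau
  apply Finset.sum_congr rfl
  intro j _
  simp only [lineRe_apply, lineIm_apply]
  rw [hval, hval, ← cross_eq, ← cross_eq, cross_mul_mul, hρ1]
  ring

/-- sides in the same class -/
def sideSetoid (P : ZMod M → ℂ) (hv : ∀ k, P (k + 1) - P k ≠ 0) : Setoid (ZMod M) where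
  r κ k := (((P (k + 1) - P k) / (P (κ + 1) - P κ)) ^ 3).im = 0
  iseqv := by
    have key : ∀ a b c : ℂ, a ≠ 0 → b ≠ 0 → c ≠ 0 → ((b / a) ^ 3).im = 0 →
        ((c / b) ^ 3).im = 0 → ((c / a) ^ 3).im = 0 := by
      intro a b c ha hb hc h1 h2
      obtain ⟨x, hx⟩ := exists_real_cube h1
      obtain ⟨y, hy⟩ := exists_real_cube h2
      have h3 : (c / a) ^ 3 = ((y ^ 3 * x ^ 3 : ℝ) : ℂ) := by
        have h4 : c / a = (c / b) * (b / a) := by field_simp
        rw [h4, mul_pow, hx, hy]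
        push_cast
        ring
      rw [h3, Complex.ofReal_im]
    constructor
    · intro k
      rw [div_self (hv k)]
      simp
    · intro κ k h
      obtain ⟨x, hx⟩ := exists_real_cube h
      have h3 : ((P (κ + 1) - P κ) / (P (k + 1) - P k)) ^ 3 = (((x ^ 3)⁻¹ : ℝ) : ℂ) := by
        have h4 : (P (κ + 1) - P κ) / (P (k + 1) - P k) =
            ((P (k + 1) - P k) / (P (κ + 1) - P κ))⁻¹ := by
          rw [inv_div]
        rw [h4, inv_pow, hx]
        push_cast
        ring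
      rw [h3, Complex.ofReal_im]
    · intro a b c h1 h2
      exact key _ _ _ (hv a) (hv b) (hv c) h1 h2

/-- No simple polygon folds both to the regular tetrahedron and to the regular octahedron. -/
theorem no_tetra_octa [NeZero M] (hP : IsSimplePolygon P) (N₁ N₂ : Net P)
    (φ₁ : Folding N₁ tetra) (hnc₁ : φ₁.NonCrossing) (hst₁ : φ₁.SideTiled)
    (φ₂ : Folding N₂ octa) (hnc₂ : φ₂.NonCrossing) : False := by
  classical
  obtain ⟨t₁⟩ := N₁.nonempty_tri
  obtain ⟨t₂⟩ := N₂.nonempty_tri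
  have hv : ∀ k, P (k + 1) - P k ≠ 0 := by
    intro k h
    apply N₁.vec_ne_zero (N₁.bdry ⟨k, ⟨0, N₁.m_pos k⟩⟩)
    rw [N₁.vec_bdry, h, mul_zero]
  obtain ⟨can, ε, H, hcan, hε, hε2, hε1, hH, hgood, hvec⟩ := tetra_signs φ₁ hst₁ t₁
  obtain ⟨X, Y, κ₀, hform₁⟩ := φ₁.form_rank_two hP tetra_glue_ne hnc₁ can hcan ε H hε hε2 hε1 hH
    hgood
  have hform₂ := φ₂.form_trivial hP octa_glue_ne hnc₂
  have hadm₁ : ∀ κ, Adm φ₁ ε (wt P κ) := by
    intro κ
    refine ⟨wt_sum φ₂ t₂ κ, ?_⟩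
    intro x y hxy
    apply wt_rel κ x y 1 (by norm_num)
    rw [← hxy, hvec]
    ring
  have hadm₂ : ∀ κ, Adm φ₂ (fun _ => 1) (wt P κ) := by
    intro κ
    refine ⟨wt_sum φ₂ t₂ κ, ?_⟩
    intro x y hxy
    obtain ⟨ρ, hρ, hv⟩ := octa_vec φ₂ t₂ (N₂.bdry x)
    apply wt_rel κ x y ρ hρ
    rw [← hxy, hv]
    push_cast
    ring
  -- the difference of the two forms
  have hdiff : ∀ κ κ' (f g : ℝ →+ ℝ),
      ∑ k, (tau N₁ k (fun c => f (c * wt P κ k)) (fun c => g (c * wt P κ' k)) -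
        tau N₂ k (fun c => f (c * wt P κ k)) (fun c => g (c * wt P κ' k))) =
      κ₀ * (f (X (wt P κ)) * g (Y (wt P κ')) - f (Y (wt P κ)) * g (X (wt P κ'))) := by
    intro κ κ' f g
    have h1 := hform₁ _ _ (hadm₁ κ) (hadm₁ κ') f g
    have h2 := hform₂ _ _ (hadm₂ κ) (hadm₂ κ') f g
    rw [Finset.sum_sub_distrib]
    linarith
  -- classes
  let s : Setoid (ZMod M) := sideSetoid P hv
  let rep : ZMod M → ZMod M := fun k => (Quotient.mk s k).out
  have hrep : ∀ k, s.r (rep k) k := fun k => Quotient.exact (Quotient.out_eq (Quotient.mk s k))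
  have hrep2 : ∀ κ k, κ ∈ Finset.univ.image rep → s.r κ k → rep k = κ := by
    intro κ k hκ h
    obtain ⟨k₀, _, rfl⟩ := Finset.mem_image.mp hκ
    have h1 : Quotient.mk s (rep k₀) = Quotient.mk s k := Quotient.sound h
    have h2 : Quotient.mk s (rep k₀) = Quotient.mk s k₀ := Quotient.out_eq _
    change (Quotient.mk s k).out = (Quotient.mk s k₀).out
    rw [← h1, h2]
  have hwt0 : ∀ κ k, κ ∈ Finset.univ.image rep → rep k ≠ κ → wt P κ k = 0 := by
    intro κ k hκ hne
    apply sl_of_im_ne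
    intro h
    exact hne (hrep2 κ k hκ h)
  -- different classes
  have hcross : ∀ κ κ', κ ∈ Finset.univ.image rep → κ' ∈ Finset.univ.image rep → κ ≠ κ' →
      ∀ f g : ℝ →+ ℝ, κ₀ * (f (X (wt P κ)) * g (Y (wt P κ')) -
        f (Y (wt P κ)) * g (X (wt P κ'))) = 0 := by
    intro κ κ' hκ hκ' hne f g
    rw [← hdiff]
    apply Finset.sum_eq_zero
    intro k _
    by_cases h : rep k = κ
    · have h2 : wt P κ' k = 0 := hwt0 κ' k hκ' (by rw [h]; exact hne)
      rw [tau_zero_right, tau_zero_right, sub_zero] <;> intro c <;> rw [h2] <;> simp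
    · have h2 : wt P κ k = 0 := hwt0 κ k hκ h
      rw [tau_zero_left, tau_zero_left, sub_zero] <;> intro c <;> rw [h2] <;> simp
  -- the sliding class
  obtain ⟨κs, hκs⟩ : ∃ κs, ∀ κ ∈ Finset.univ.image rep, κ ≠ κs → ∀ f g : ℝ →+ ℝ,
      κ₀ * (f (X (wt P κ)) * g (Y (wt P κ)) - f (Y (wt P κ)) * g (X (wt P κ))) = 0 := by
    by_cases h : ∃ κs ∈ Finset.univ.image rep, ∃ f g : ℝ →+ ℝ,
        κ₀ * (f (X (wt P κs)) * g (Y (wt P κs)) - f (Y (wt P κs)) * g (X (wt P κs))) ≠ 0
    · obtain ⟨κs, hκs, hne⟩ := h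
      refine ⟨κs, fun κ hκ hne' => ?_⟩
      exact rank_argument κ₀ _ _ _ _ (hcross κs κ hκs hκ (Ne.symm hne')) hne
    · push Not at h
      exact ⟨0, fun κ hκ _ f g => h κ hκ f g⟩
  -- the functional
  have hz : ζ 3 ∈ eisField := Subfield.subset_closure (Set.mem_singleton _)
  obtain ⟨Φ, hΦ, hΦK, hΦα, hΦδ⟩ := exists_coordinate eisField eisField_conj (ζ 3) hz
    (ζ_im_pos (n := 3) (by norm_num)).ne' (P (κs + 1) - P κs) (hv κs) (φ₁.rot t₁) (φ₁.rot_ne t₁)
  have hΦρ : ∀ ρ : ℂ, ρ ^ 3 = 1 → ∀ z, Φ (ρ * z) = ρ * Φ z := by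
    intro ρ hρ
    obtain ⟨i, _, hi⟩ := (ζ_primitive (n := 3) (by norm_num)).eq_pow_of_pow_eq_one hρ
    apply hΦ
    rw [← hi]
    exact eisField.pow_mem hz i
  have h1 := main_formula (by norm_num) φ₁ eisField hz Φ hΦ t₁
  have h2 := main_formula (by norm_num) φ₂ eisField hz Φ hΦ t₂
  rw [tetra_card] at h1
  rw [octa_card] at h2
  have heq : ∑ k : ZMod M, ∑ j : Fin (N₁.m k),
        cross (Φ (P k + N₁.cut k j * (P (k + 1) - P k)))
          (Φ (P k + N₁.cut k (j + 1) * (P (k + 1) - P k))) =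
      ∑ k : ZMod M, ∑ j : Fin (N₂.m k),
        cross (Φ (P k + N₂.cut k j * (P (k + 1) - P k)))
          (Φ (P k + N₂.cut k (j + 1) * (P (k + 1) - P k))) := by
    rw [← sub_eq_zero, ← Finset.sum_sub_distrib]
    have h3 : ∀ k : ZMod M, (∑ j : Fin (N₁.m k),
        cross (Φ (P k + N₁.cut k j * (P (k + 1) - P k)))
          (Φ (P k + N₁.cut k (j + 1) * (P (k + 1) - P k)))) -
        (∑ j : Fin (N₂.m k),
        cross (Φ (P k + N₂.cut k j * (P (k + 1) - P k)))
          (Φ (P k + N₂.cut k (j + 1) * (P (k + 1) - P k)))) =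
        tau N₁ k (fun c => lineRe Φ (P (rep k + 1) - P (rep k)) (c * wt P (rep k) k))
          (fun c => lineIm Φ (P (rep k + 1) - P (rep k)) (c * wt P (rep k) k)) -
        tau N₂ k (fun c => lineRe Φ (P (rep k + 1) - P (rep k)) (c * wt P (rep k) k))
          (fun c => lineIm Φ (P (rep k + 1) - P (rep k)) (c * wt P (rep k) k)) := by
      intro k
      rw [side_tau, side_tau, tau_class N₁ Φ hΦρ (rep k) k (hv _) (hrep k),
        tau_class N₂ Φ hΦρ (rep k) k (hv _) (hrep k)]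
      ring
    rw [Finset.sum_congr rfl (fun k _ => h3 k)]
    rw [← Finset.sum_fiberwise_of_maps_to (s := Finset.univ) (t := Finset.univ.image rep)
      (g := rep) (fun k _ => Finset.mem_image_of_mem rep (Finset.mem_univ k))]
    apply Finset.sum_eq_zero
    intro κ hκ
    have h4 : ∑ k ∈ Finset.univ.filter (fun k => rep k = κ),
        (tau N₁ k (fun c => lineRe Φ (P (rep k + 1) - P (rep k)) (c * wt P (rep k) k))
          (fun c => lineIm Φ (P (rep k + 1) - P (rep k)) (c * wt P (rep k) k)) -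
        tau N₂ k (fun c => lineRe Φ (P (rep k + 1) - P (rep k)) (c * wt P (rep k) k))
          (fun c => lineIm Φ (P (rep k + 1) - P (rep k)) (c * wt P (rep k) k))) =
        ∑ k, (tau N₁ k (fun c => lineRe Φ (P (κ + 1) - P κ) (c * wt P κ k))
          (fun c => lineIm Φ (P (κ + 1) - P κ) (c * wt P κ k)) -
        tau N₂ k (fun c => lineRe Φ (P (κ + 1) - P κ) (c * wt P κ k))
          (fun c => lineIm Φ (P (κ + 1) - P κ) (c * wt P κ k))) := by
      rw [Finset.sum_filter]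
      apply Finset.sum_congr rfl
      intro k _
      split_ifs with h
      · rw [h]
      · have h5 := hwt0 κ k hκ h
        rw [tau_zero_left, tau_zero_left, sub_zero] <;> intro c <;> rw [h5] <;> simp
    rw [h4]
    by_cases h : κ = κs
    · rw [h]
      apply Finset.sum_eq_zero
      intro k _
      have h6 : ∀ c : ℝ, lineIm Φ (P (κs + 1) - P κs) c = 0 := by
        intro c
        obtain ⟨l, hl⟩ := hΦδ c
        rw [lineIm_apply, hl, Complex.ofReal_im]
      rw [tau_zero_right, tau_zero_right, sub_zero] <;> intro c <;> exact h6 _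
    · rw [hdiff]
      exact hκs κ hκ h _ _
  rw [heq] at h1
  have h3 := h1.symm.trans h2
  have hA := area2_pos (n := 3) (by norm_num)
  refine no_relation_triangle 4 8 (by norm_num) (by norm_num) (by norm_num) (Φ (φ₁.rot t₁))
    (Φ (φ₂.rot t₂)) (hΦK _) (hΦK _) hΦα ?_
  apply mul_left_cancel₀ hA.ne'
  push_cast at h3 ⊢
  linarith

end Pool.Agent.H69.Unfold
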