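import Pool.Agent.H69.Solids
import Pool.Agent.H69.FoldTO

set_option autoImplicit false

namespace Pool.Agent.H69.Unfold

open Complex

/-! ### Lengths and phases modulo a group of rotations -/

open Classical in
/-- the length of `z` if its direction is, up to sign, a `2c`-th root of unity, `0` otherwise -/
noncomputable def clen (c : ℕ) (z : ℂ) : ℝ := if (z ^ c).im = 0 then ‖z‖ else 0

/-- the `m`-th power of the direction of `z` -/
noncomputable def cph (m : ℕ) (z : ℂ) : ℂ := (z / ‖z‖) ^ m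

lemma im_pow_iff (c : ℕ) (z w : ℂ) (s : ℝ) (hs : s ≠ 0) (h : z ^ c = s * w ^ c) :
    (z ^ c).im = 0 ↔ (w ^ c).im = 0 := by
  rw [h, Complex.im_ofReal_mul, mul_eq_zero]
  constructor
  · rintro (h1 | h1)
    · exact absurd h1 hs
    · exact h1
  · intro h1
    exact Or.inr h1

lemma clen_rel (c : ℕ) (z w ρ : ℂ) (s : ℝ) (hs : s ≠ 0) (hρ : ‖ρ‖ = 1) (hρc : ρ ^ c = s)
    (lz lw : ℝ) (hlz : 0 < lz) (hlw : 0 < lw) (h : (lz : ℂ) * z = ρ * (lw * w)) :
    lz * clen c z = lw * clen c w := by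
  have h1 : z ^ c = ((s * lw ^ c / lz ^ c : ℝ) : ℂ) * w ^ c := by
    have h2 := congrArg (fun x => x ^ c) h
    simp only [mul_pow, hρc] at h2
    have h3 : (lz : ℂ) ^ c ≠ 0 := pow_ne_zero _ (by exact_mod_cast hlz.ne')
    push_cast
    field_simp
    linear_combination h2
  have h4 := im_pow_iff c z w _ (by positivity) h1
  have h5 := congrArg norm h
  rw [norm_mul, norm_mul, norm_mul, hρ, one_mul, Complex.norm_real, Complex.norm_real,
    Real.norm_eq_abs, Real.norm_eq_abs, abs_of_pos hlz, abs_of_pos hlw] at h5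
  unfold clen
  by_cases h6 : (w ^ c).im = 0
  · rw [if_pos h6, if_pos (h4.mpr h6), h5]
  · rw [if_neg h6, if_neg (fun h7 => h6 (h4.mp h7))]
    ring

lemma cph_rel (m : ℕ) (z w ρ : ℂ) (hρ : ‖ρ‖ = 1) (hw : w ≠ 0)
    (lz lw : ℝ) (hlz : 0 < lz) (hlw : 0 < lw) (h : (lz : ℂ) * z = ρ * (lw * w)) :
    cph m z = ρ ^ m * cph m w := by
  have h5 := congrArg norm h
  rw [norm_mul, norm_mul, norm_mul, hρ, one_mul, Complex.norm_real, Complex.norm_real,
    Real.norm_eq_abs, Real.norm_eq_abs, abs_of_pos hlz, abs_of_pos hlw] at h5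
  unfold cph
  rw [← mul_pow]
  congr 1
  have hwn : (0 : ℝ) < ‖w‖ := norm_pos_iff.mpr hw
  have hzn : (0 : ℝ) < ‖z‖ := by
    by_contra hcon
    have : ‖z‖ = 0 := le_antisymm (not_lt.mp hcon) (norm_nonneg _)
    rw [this, mul_zero] at h5
    have := mul_pos hlw hwn
    linarith
  have hzc : (‖z‖ : ℂ) ≠ 0 := by exact_mod_cast hzn.ne'
  have hwc : (‖w‖ : ℂ) ≠ 0 := by exact_mod_cast hwn.ne'
  have hlzc : (lz : ℂ) ≠ 0 := by exact_mod_cast hlz.ne'
  have hlwc : (lw : ℂ) ≠ 0 := by exact_mod_cast hlw.ne'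
  have h6 : (lz : ℂ) * ‖z‖ = lw * ‖w‖ := by exact_mod_cast h5
  rw [← mul_div_assoc, div_eq_div_iff hzc hwc]
  apply mul_left_cancel₀ hlzc
  apply mul_left_cancel₀ hlwc
  linear_combination ((lw : ℂ) * ‖w‖) * h - (lw * ρ * w) * h6

lemma norm_cph (m : ℕ) (z : ℂ) (hz : z ≠ 0) : ‖cph m z‖ = 1 := by
  unfold cph
  have : ‖z‖ ≠ 0 := norm_ne_zero_iff.mpr hz
  rw [norm_pow, norm_div, Complex.norm_real, norm_norm, div_self this, one_pow]

variable {M : ℕ} {P : ZMod M → ℂ}

/-- the displacements of the sides in the class of side `κ` given by an additive function -/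
noncomputable def disp (P : ZMod M → ℂ) (c m : ℕ) (κ : ZMod M) (u : ℝ →+ ℂ) (k : ZMod M) :
    ℝ →+ ℂ where
  toFun x := cph m ((P (k + 1) - P k) / (P (κ + 1) - P κ)) *
    u (x * clen c ((P (k + 1) - P k) / (P (κ + 1) - P κ)))
  map_zero' := by simp
  map_add' := by
    intro x y
    rw [add_mul, map_add]
    ring

lemma disp_apply (P : ZMod M → ℂ) (c m : ℕ) (κ : ZMod M) (u : ℝ →+ ℂ) (k : ZMod M) (x : ℝ) :
    disp P c m κ u k x = cph m ((P (k + 1) - P k) / (P (κ + 1) - P κ)) *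
      u (x * clen c ((P (k + 1) - P k) / (P (κ + 1) - P κ))) := rfl

variable {N : Net P}

lemma Net.len_pos (N : Net P) (x : Σ k : ZMod M, Fin (N.m k)) : 0 < N.len x := by
  obtain ⟨k, j⟩ := x
  unfold Net.len
  exact sub_pos.mpr (N.cut_lt k j j.2)

lemma disp_rel (hv : ∀ k, P (k + 1) - P k ≠ 0) (c m : ℕ) (hm : Odd m) (κ : ZMod M) (u : ℝ →+ ℂ)
    (x y : Σ k : ZMod M, Fin (N.m k)) (ρ : ℂ) (hρ : ‖ρ‖ = 1) (s : ℝ) (hs : s ≠ 0)
    (hρc : ρ ^ c = s) (h : N.vec (N.bdry y) = -(ρ * N.vec (N.bdry x))) :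
    disp P c m κ u y.1 (N.len y) = -(ρ ^ m * disp P c m κ u x.1 (N.len x)) := by
  rw [N.vec_bdry, N.vec_bdry] at h
  set δ := P (κ + 1) - P κ with hδ
  have hδ0 : δ ≠ 0 := hv κ
  have h1 : (N.len y : ℂ) * ((P (y.1 + 1) - P y.1) / δ) =
      (-ρ) * (N.len x * ((P (x.1 + 1) - P x.1) / δ)) := by
    field_simp
    linear_combination h
  have hnρ : ‖-ρ‖ = 1 := by rw [norm_neg, hρ]
  have hρc' : (-ρ) ^ c = (((-1) ^ c * s : ℝ) : ℂ) := by
    rw [neg_pow, hρc]
    push_cast
    ring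
  have hs' : (-1 : ℝ) ^ c * s ≠ 0 := mul_ne_zero (pow_ne_zero _ (by norm_num)) hs
  rw [disp_apply, disp_apply,
    cph_rel m _ _ (-ρ) hnρ (div_ne_zero (hv x.1) hδ0) _ _ (N.len_pos y) (N.len_pos x) h1,
    clen_rel c _ _ (-ρ) _ hs' hnρ hρc' _ _ (N.len_pos y) (N.len_pos x) h1, hm.neg_pow]
  ring

lemma disp_sum [NeZero M] (hv : ∀ k, P (k + 1) - P k ≠ 0) (φ : Folding N octa) (t₀ : N.Tri)
    (c m : ℕ) (hm : Odd m) (hm3 : 3 ∣ m) (hc3 : 3 ∣ c) (κ : ZMod M) (u : ℝ →+ ℂ) :
    AdmC φ (fun _ => 1) (disp P c m κ u) := by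
  have hb : ∀ x, N.adj (N.bdry x) = N.bdry x := by
    intro x
    have : N.bdry x ∈ Set.range N.bdry := ⟨x, rfl⟩
    rw [N.bdry_range] at this
    exact this
  have hpair : ∀ x, ∃ y, N.bdry y = φ.pair (N.bdry x) := by
    intro x
    have h1 := φ.pair_bdry _ (hb x)
    have h2 : φ.pair (N.bdry x) ∈ Set.range N.bdry := by
      rw [N.bdry_range]
      exact h1
    exact h2
  choose g hg using hpair
  have hinv : Function.Involutive g := by
    intro x
    apply N.bdry_inj
    rw [hg, hg, φ.pair_pair]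
  have hrel : ∀ x y, φ.pair (N.bdry x) = N.bdry y →
      disp P c m κ u y.1 (N.len y) = -(1 * disp P c m κ u x.1 (N.len x)) := by
    intro x y hxy
    obtain ⟨ρ, hρ, hvec⟩ := octa_vec φ t₀ (N.bdry x)
    rw [hxy] at hvec
    have hρ1 : ‖ρ‖ = 1 := by
      have h3 : ‖ρ‖ ^ 3 = 1 := by rw [← norm_pow, hρ, norm_one]
      exact (pow_eq_one_iff_of_nonneg (norm_nonneg _) (by norm_num)).mp h3
    have hpow : ∀ a, 3 ∣ a → ρ ^ a = 1 := by
      rintro a ⟨b, rfl⟩
      rw [pow_mul, hρ, one_pow]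
    rw [disp_rel hv c m hm κ u x y ρ hρ1 1 one_ne_zero (by rw [hpow c hc3]; simp) hvec,
      hpow m hm3]
  refine ⟨?_, hrel⟩
  have h1 : ∑ k, disp P c m κ u k 1 =
      ∑ x : Σ k : ZMod M, Fin (N.m k), disp P c m κ u x.1 (N.len x) := by
    rw [Fintype.sum_sigma]
    apply Finset.sum_congr rfl
    intro k _
    simp only
    rw [← map_sum]
    congr 1
    unfold Net.len
    rw [Fin.sum_univ_eq_sum_range (fun j => N.cut k (j + 1) - N.cut k j) (N.m k),
      Finset.sum_range_sub (N.cut k), N.cut_last, N.cut_zero, sub_zero]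
  rw [h1]
  have h2 : ∑ x : Σ k : ZMod M, Fin (N.m k), disp P c m κ u (g x).1 (N.len (g x)) =
      ∑ x : Σ k : ZMod M, Fin (N.m k), disp P c m κ u x.1 (N.len x) :=
    Equiv.sum_comp (hinv.toPerm g) (fun x => disp P c m κ u x.1 (N.len x))
  have h3 : ∑ x : Σ k : ZMod M, Fin (N.m k), disp P c m κ u (g x).1 (N.len (g x)) =
      -∑ x : Σ k : ZMod M, Fin (N.m k), disp P c m κ u x.1 (N.len x) := by
    rw [← Finset.sum_neg_distrib]
    apply Finset.sum_congr rfl
    intro x _
    rw [hrel x (g x) (hg x).symm, one_mul]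
  rw [h2] at h3
  have h4 : (2 : ℂ) * ∑ x : Σ k : ZMod M, Fin (N.m k), disp P c m κ u x.1 (N.len x) = 0 := by
    linear_combination h3
  rcases mul_eq_zero.mp h4 with h5 | h5
  · norm_num at h5
  · exact h5

lemma adm_linComb [NeZero M] {n : ℕ} {S : NGonSurface n} (φ : Folding N S)
    (ε : N.Tri × ZMod 3 → ℂ) (a b : ℂ) (D D' : ZMod M → ℝ →+ ℂ) (hD : AdmC φ ε D)
    (hD' : AdmC φ ε D') : AdmC φ ε (linComb a b D D') := by
  constructor
  · simp only [linComb_apply]
    rw [Finset.sum_add_distrib, ← Finset.mul_sum, ← Finset.mul_sum, hD.sum, hD'.sum]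
    ring
  · intro x y hxy
    rw [linComb_apply, linComb_apply, hD.rel x y hxy, hD'.rel x y hxy]
    ring

lemma tauC_smul (N : Net P) (k : ZMod M) (a : ℂ) (f : ℝ → ℂ) :
    tauC N k (fun c => a * f c) (fun c => a * f c) = ‖a‖ ^ 2 * tauC N k f f := by
  unfold tauC
  rw [Finset.mul_sum]
  apply Finset.sum_congr rfl
  intro j _
  rw [cross_mul_mul, cross_mul_mul]
  ring

lemma tauC_star (N : Net P) (k : ZMod M) (f : ℝ → ℂ) :
    tauC N k (fun c => starRingEnd ℂ (f c)) (fun c => starRingEnd ℂ (f c)) =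
      -tauC N k f f := by
  unfold tauC
  rw [← Finset.sum_neg_distrib]
  apply Finset.sum_congr rfl
  intro j _
  unfold cross
  simp only [Complex.conj_conj, Complex.mul_im, Complex.conj_re, Complex.conj_im]
  ring

lemma tauC_eq (N : Net P) (k : ZMod M) (f : ℝ → ℂ) :
    tauC N k f f = 2 * tau N k (fun c => (f c).re) (fun c => (f c).im) := by
  unfold tauC tau
  rw [Finset.mul_sum]
  apply Finset.sum_congr rfl
  intro j _
  rw [cross_eq, cross_eq]
  ring

lemma tauC_real (N : Net P) (k : ZMod M) (f : ℝ → ℂ) (hf : ∀ c, (f c).im = 0) :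
    tauC N k f f = 0 := by
  rw [tauC_eq]
  unfold tau
  rw [Finset.sum_eq_zero, mul_zero]
  intro j _
  simp only
  rw [hf, hf]
  ring

/-- sides in the same class -/
def sideSetoidC (P : ZMod M → ℂ) (hv : ∀ k, P (k + 1) - P k ≠ 0) (c : ℕ) :
    Setoid (ZMod M) where
  r κ k := (((P (k + 1) - P k) / (P (κ + 1) - P κ)) ^ c).im = 0
  iseqv := by
    have real_of : ∀ z : ℂ, z.im = 0 → z = ((z.re : ℝ) : ℂ) := by
      intro z hz
      apply Complex.ext
      · simp
      · rw [hz, Complex.ofReal_im]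
    constructor
    · intro k
      rw [div_self (hv k), one_pow]
      simp
    · intro κ k h
      have h1 := real_of _ h
      have h4 : (P (κ + 1) - P κ) / (P (k + 1) - P k) =
            ((P (k + 1) - P k) / (P (κ + 1) - P κ))⁻¹ := by
          rw [inv_div]
      rw [h4, inv_pow, h1, ← Complex.ofReal_inv, Complex.ofReal_im]
    · intro a b c' h1 h2
      have h3 := real_of _ h1
      have h4 := real_of _ h2
      have h5 : (P (c' + 1) - P c') / (P (a + 1) - P a) =
          ((P (c' + 1) - P c') / (P (b + 1) - P b)) *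
            ((P (b + 1) - P b) / (P (a + 1) - P a)) := by
        have := hv a
        have := hv b
        field_simp
      rw [h5, mul_pow, h3, h4, ← Complex.ofReal_mul, Complex.ofReal_im]

/-- No simple polygon folds both to the regular octahedron and to a surface of regular `n`-gons,
`n` prime to `3`, with `4 q` cone points of curvature `π / q`. -/
theorem no_gauge_octa [NeZero M] (hP : IsSimplePolygon P) {n : ℕ} [NeZero n] (hn : 3 ≤ n)
    (hco : Nat.Coprime n 3)
    {S : NGonSurface n} (hS : ∀ x, S.glue x ≠ x) (hcard : 0 < Fintype.card S.Face) {q : ℕ}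
    (hq : 0 < q) (G : Gauge S q) (hγ : ζ (2 * n) ^ G.γ.val * cis (Real.pi / q) = 1)
    (m : ℕ) (hm3 : 3 ∣ m) (hm : 2 * n ∣ m - 1) (hm1 : 1 ≤ m)
    (N₁ N₂ : Net P) (φ₁ : Folding N₁ S) (hnc₁ : φ₁.NonCrossing) (hst₁ : φ₁.SideTiled)
    (φ₂ : Folding N₂ octa) (hnc₂ : φ₂.NonCrossing) : False := by
  classical
  obtain ⟨t₁⟩ := N₁.nonempty_tri
  obtain ⟨t₂⟩ := N₂.nonempty_tri
  have hv : ∀ k, P (k + 1) - P k ≠ 0 := by
    intro k h
    apply N₁.vec_ne_zero (N₁.bdry ⟨k, ⟨0, N₁.m_pos k⟩⟩)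
    rw [N₁.vec_bdry, h, mul_zero]
  have hmodd : Odd m := by
    obtain ⟨t, ht⟩ := hm
    exact ⟨n * t, by rw [← mul_assoc, ← ht]; omega⟩
  set c := 3 * n with hc
  obtain ⟨can, ε, H, hcan, hcan2, hε, hεp, hε1, hH, hgood, hbad, hvec⟩ := G.signs hn φ₁ hst₁ t₁
  obtain ⟨ℓ, hℓlin, hℓ⟩ := φ₁.form_index_one hP hS hnc₁ q hq can hcan hcan2 ε H _ hγ hε hε1 hH
    hgood hbad
  have hform₂ := φ₂.form_trivialC hP octa_glue_ne hnc₂
  have hadm₂ : ∀ κ u, AdmC φ₂ (fun _ => 1) (disp P c m κ u) := fun κ u =>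
    disp_sum hv φ₂ t₂ c m hmodd hm3 (Dvd.intro _ rfl) κ u
  have hadm₁ : ∀ κ u, AdmC φ₁ ε (disp P c m κ u) := by
    intro κ u
    refine ⟨(hadm₂ κ u).sum, ?_⟩
    intro x y hxy
    have h1 := hvec (N₁.bdry x)
    rw [hxy] at h1
    have hpow := hεp (N₁.bdry x)
    set e := ε (N₁.bdry x)
    have hnorm : ‖e‖ = 1 := by
      have h3 : ‖e‖ ^ (2 * n) = 1 := by rw [← norm_pow, hpow, norm_one]
      exact (pow_eq_one_iff_of_nonneg (norm_nonneg _) (by omega)).mp h3
    have h2 : e ^ n = 1 ∨ e ^ n = -1 := by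
      have : e ^ n * e ^ n = 1 := by rw [← pow_add, ← two_mul, hpow]
      exact mul_self_eq_one_iff.mp this
    have h4 : e ^ m = e := by
      obtain ⟨t, ht⟩ := hm
      have : m = 2 * n * t + 1 := by omega
      rw [this, pow_succ, pow_mul, hpow, one_pow, one_mul]
    rcases h2 with h2 | h2
    · rw [disp_rel hv c m hmodd κ u x y e hnorm 1 one_ne_zero
        (by rw [hc, mul_comm, pow_mul, h2]; simp) h1, h4]
    · rw [disp_rel hv c m hmodd κ u x y e hnorm (-1) (by norm_num)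
        (by rw [hc, mul_comm, pow_mul, h2]; norm_num) h1, h4]
  -- the difference of the two forms
  let t : ZMod M → (ℝ →+ ℂ) → ℝ := fun κ u => ∑ k, (tauC N₁ k (disp P c m κ u k)
    (disp P c m κ u k) - tauC N₂ k (disp P c m κ u k) (disp P c m κ u k))
  -- classes
  let s : Setoid (ZMod M) := sideSetoidC P hv c
  let rep : ZMod M → ZMod M := fun k => (Quotient.mk s k).out
  have hrep : ∀ k, s.r (rep k) k := fun k => Quotient.exact (Quotient.out_eq (Quotient.mk s k))
  have hrep2 : ∀ κ k, κ ∈ Finset.univ.image rep → s.r κ k → rep k = κ := by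
    intro κ k hκ h
    obtain ⟨k₀, _, rfl⟩ := Finset.mem_image.mp hκ
    have h1 : Quotient.mk s (rep k₀) = Quotient.mk s k := Quotient.sound h
    have h2 : Quotient.mk s (rep k₀) = Quotient.mk s k₀ := Quotient.out_eq _
    change (Quotient.mk s k).out = (Quotient.mk s k₀).out
    rw [← h1, h2]
  have hdisp0 : ∀ κ k u, κ ∈ Finset.univ.image rep → rep k ≠ κ → ∀ x, disp P c m κ u k x = 0 := by
    intro κ k u hκ hne x
    rw [disp_apply]
    have : clen c ((P (k + 1) - P k) / (P (κ + 1) - P κ)) = 0 := by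
      unfold clen
      rw [if_neg]
      intro h
      exact hne (hrep2 κ k hκ h)
    rw [this, mul_zero, map_zero, mul_zero]
  -- at most one class with a positive area
  have honly : ∀ κ κ' u u', κ ∈ Finset.univ.image rep → κ' ∈ Finset.univ.image rep → κ ≠ κ' →
      0 < t κ u → 0 < t κ' u' → False := by
    intro κ κ' u u' hκ hκ' hne hpos hpos'
    have key : ∀ a b : ℂ, ‖a‖ ^ 2 * t κ u + ‖b‖ ^ 2 * t κ' u' ≤
        ‖a * ℓ (disp P c m κ u) + b * ℓ (disp P c m κ' u')‖ ^ 2 := by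
      intro a b
      set D := linComb a b (disp P c m κ u) (disp P c m κ' u') with hD
      have hA₁ := adm_linComb φ₁ ε a b _ _ (hadm₁ κ u) (hadm₁ κ' u')
      have hA₂ := adm_linComb φ₂ (fun _ => 1) a b _ _ (hadm₂ κ u) (hadm₂ κ' u')
      rw [← hℓlin _ _ (hadm₁ κ u) (hadm₁ κ' u') a b]
      refine le_trans (le_of_eq ?_) (hℓ _ hA₁)
      have h2 := hform₂ _ _ hA₂ hA₂
      rw [← hD] at h2 ⊢
      have h3 : baseFormC D D + ∑ k, tauC N₁ k (D k) (D k) =
          ∑ k, (tauC N₁ k (D k) (D k) - tauC N₂ k (D k) (D k)) := by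
        rw [Finset.sum_sub_distrib]
        linarith
      rw [h3]
      simp only [t]
      rw [Finset.mul_sum, Finset.mul_sum, ← Finset.sum_add_distrib]
      apply Finset.sum_congr rfl
      intro k _
      by_cases h : rep k = κ
      · have h0 : ∀ x, disp P c m κ' u' k x = 0 := hdisp0 κ' k u' hκ' (by rw [h]; exact hne)
        have hDk : ((D k : ℝ →+ ℂ) : ℝ → ℂ) = fun x => a * disp P c m κ u k x := by
          funext x
          rw [hD, linComb_apply, h0, mul_zero, add_zero]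
        rw [hDk, tauC_smul, tauC_smul, tauC_zero_left N₁ k _ _ h0, tauC_zero_left N₂ k _ _ h0]
        ring
      · have h0 : ∀ x, disp P c m κ u k x = 0 := hdisp0 κ k u hκ h
        have hDk : ((D k : ℝ →+ ℂ) : ℝ → ℂ) = fun x => b * disp P c m κ' u' k x := by
          funext x
          rw [hD, linComb_apply, h0, mul_zero, zero_add]
        rw [hDk, tauC_smul, tauC_smul, tauC_zero_left N₁ k _ _ h0, tauC_zero_left N₂ k _ _ h0]
        ring
    by_cases h0 : ℓ (disp P c m κ u) = 0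
    · have := key 1 0
      rw [h0] at this
      simp at this
      linarith
    · have h1 := key (ℓ (disp P c m κ' u')) (-ℓ (disp P c m κ u))
      have h2 : ℓ (disp P c m κ' u') * ℓ (disp P c m κ u) +
          -ℓ (disp P c m κ u) * ℓ (disp P c m κ' u') = 0 := by ring
      rw [h2, norm_zero, norm_neg] at h1
      have h3 : 0 < ‖ℓ (disp P c m κ u)‖ ^ 2 * t κ' u' := by
        have := norm_pos_iff.mpr h0
        positivity
      have h4 : 0 ≤ ‖ℓ (disp P c m κ' u')‖ ^ 2 * t κ u := by positivity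
      norm_num at h1
      linarith
  have hneg : ∀ κ u, t κ u < 0 → ∃ u', 0 < t κ u' := by
    intro κ u hu
    refine ⟨(starRingEnd ℂ).toAddMonoidHom.comp u, ?_⟩
    have : t κ ((starRingEnd ℂ).toAddMonoidHom.comp u) = -t κ u := by
      simp only [t]
      rw [← Finset.sum_neg_distrib]
      apply Finset.sum_congr rfl
      intro k _
      set p := cph m ((P (k + 1) - P k) / (P (κ + 1) - P κ)) with hp
      set l := clen c ((P (k + 1) - P k) / (P (κ + 1) - P κ)) with hl
      have e1 : ((disp P c m κ ((starRingEnd ℂ).toAddMonoidHom.comp u) k : ℝ →+ ℂ) : ℝ → ℂ) =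
          fun x => p * starRingEnd ℂ (u (x * l)) := rfl
      have e2 : ((disp P c m κ u k : ℝ →+ ℂ) : ℝ → ℂ) = fun x => p * u (x * l) := rfl
      rw [e1, e2, tauC_smul, tauC_smul, tauC_smul, tauC_smul,
        tauC_star N₁ k (fun x => u (x * l)), tauC_star N₂ k (fun x => u (x * l))]
      ring
    rw [this]
    linarith
  -- the sliding class
  obtain ⟨κs, hκs⟩ : ∃ κs, ∀ κ ∈ Finset.univ.image rep, κ ≠ κs → ∀ u, t κ u = 0 := by
    by_cases h : ∃ κs ∈ Finset.univ.image rep, ∃ u, 0 < t κs u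
    · obtain ⟨κs, hκs, u, hu⟩ := h
      refine ⟨κs, fun κ hκ hne u' => ?_⟩
      rcases lt_trichotomy (t κ u') 0 with h1 | h1 | h1
      · obtain ⟨u'', hu''⟩ := hneg κ u' h1
        exact (honly κ κs u'' u hκ hκs hne hu'' hu).elim
      · exact h1
      · exact (honly κ κs u' u hκ hκs hne h1 hu).elim
    · push Not at h
      refine ⟨0, fun κ hκ _ u => ?_⟩
      rcases lt_trichotomy (t κ u) 0 with h1 | h1 | h1
      · obtain ⟨u', hu'⟩ := hneg κ u h1
        exact absurd hu' (not_lt.mpr (h κ hκ u'))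
      · exact h1
      · exact absurd h1 (not_lt.mpr (h κ hκ u))
  -- the functional
  have hz : ζ 3 ∈ rootField := ζ_mem_rootField (by norm_num)
  have hzn : ζ n ∈ rootField := ζ_mem_rootField (NeZero.ne n)
  obtain ⟨Φ, hΦ, hΦK, hΦα, hΦδ⟩ := exists_coordinate rootField rootField_conj (ζ 3) hz
    (ζ_im_pos (n := 3) (by norm_num)).ne' (P (κs + 1) - P κs) (hv κs) (φ₁.rot t₁) (φ₁.rot_ne t₁)
  have h1 := main_formula (by omega) φ₁ rootField hzn Φ hΦ t₁
  have h2 := main_formula (by norm_num) φ₂ rootField hz Φ hΦ t₂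
  rw [octa_card] at h2
  let u : ZMod M → ℝ →+ ℂ := fun κ =>
    { toFun := fun x => Φ (x * (P (κ + 1) - P κ))
      map_zero' := by simp
      map_add' := by
        intro x y
        push_cast
        rw [add_mul, map_add] }
  have hu : ∀ κ x, u κ x = Φ (x * (P (κ + 1) - P κ)) := fun _ _ => rfl
  have hside : ∀ (N : Net P) (k : ZMod M),
      2 * tau N k (fun x => (Φ (x * (P (k + 1) - P k))).re)
        (fun x => (Φ (x * (P (k + 1) - P k))).im) =
      tauC N k (disp P c m (rep k) (u (rep k)) k) (disp P c m (rep k) (u (rep k)) k) := by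
    intro N k
    rw [← tauC_eq N k (fun x => Φ (x * (P (k + 1) - P k)))]
    set δ := P (rep k + 1) - P (rep k) with hδ
    set z := (P (k + 1) - P k) / δ with hzdef
    have hz0 : z ≠ 0 := div_ne_zero (hv k) (hv _)
    have hzn : ‖z‖ ≠ 0 := norm_ne_zero_iff.mpr hz0
    have hznc : (‖z‖ : ℂ) ≠ 0 := by exact_mod_cast hzn
    have hcl : (z ^ c).im = 0 := hrep k
    have hclen : clen c z = ‖z‖ := by
      unfold clen
      rw [if_pos hcl]
    set ρ := z / ‖z‖ with hρ
    have hρ1 : ‖ρ‖ = 1 := by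
      rw [hρ, norm_div, Complex.norm_real, norm_norm, div_self hzn]
    have hρK : ρ ∈ rootField := by
      apply Subfield.subset_closure
      refine ⟨2 * c, by omega, ?_⟩
      have h3 : ρ ^ c = (((z ^ c).re / ‖z‖ ^ c : ℝ) : ℂ) := by
        rw [hρ, div_pow]
        push_cast
        congr 1
        apply Complex.ext
        · simp
        · rw [hcl, Complex.ofReal_im]
      have h4 : ‖ρ ^ c‖ = 1 := by rw [norm_pow, hρ1, one_pow]
      rw [h3, Complex.norm_real, Real.norm_eq_abs] at h4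
      rw [mul_comm, pow_mul, h3, ← Complex.ofReal_pow, ← sq_abs, h4]
      simp
    have hval : ∀ x : ℝ, Φ (x * (P (k + 1) - P k)) = ρ * u (rep k) (x * ‖z‖) := by
      intro x
      rw [hu, ← hΦ ρ hρK]
      congr 1
      have hδ0 : δ ≠ 0 := hv (rep k)
      have hzd : z * δ = P (k + 1) - P k := by
        rw [hzdef]
        field_simp
      rw [← hzd, ← hδ, hρ]
      push_cast
      field_simp
    have e1 : (fun x : ℝ => Φ (x * (P (k + 1) - P k))) =
        fun x => ρ * u (rep k) (x * ‖z‖) := funext hval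
    have e2 : ((disp P c m (rep k) (u (rep k)) k : ℝ →+ ℂ) : ℝ → ℂ) =
        fun x => cph m z * u (rep k) (x * ‖z‖) := by
      funext x
      rw [disp_apply, ← hδ, ← hzdef, hclen]
    rw [e1, e2, tauC_smul, tauC_smul, hρ1, norm_cph m z hz0]
  have heq : ∑ k : ZMod M, ∑ j : Fin (N₁.m k),
        cross (Φ (P k + N₁.cut k j * (P (k + 1) - P k)))
          (Φ (P k + N₁.cut k (j + 1) * (P (k + 1) - P k))) =
      ∑ k : ZMod M, ∑ j : Fin (N₂.m k),
        cross (Φ (P k + N₂.cut k j * (P (k + 1) - P k)))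
          (Φ (P k + N₂.cut k (j + 1) * (P (k + 1) - P k))) := by
    rw [← sub_eq_zero, ← Finset.sum_sub_distrib]
    have h3 : ∀ k : ZMod M, (∑ j : Fin (N₁.m k),
        cross (Φ (P k + N₁.cut k j * (P (k + 1) - P k)))
          (Φ (P k + N₁.cut k (j + 1) * (P (k + 1) - P k)))) -
        (∑ j : Fin (N₂.m k),
        cross (Φ (P k + N₂.cut k j * (P (k + 1) - P k)))
          (Φ (P k + N₂.cut k (j + 1) * (P (k + 1) - P k)))) =
        (1 / 2) * (tauC N₁ k (disp P c m (rep k) (u (rep k)) k)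
          (disp P c m (rep k) (u (rep k)) k) -
        tauC N₂ k (disp P c m (rep k) (u (rep k)) k) (disp P c m (rep k) (u (rep k)) k)) := by
      intro k
      rw [side_tau, side_tau, ← hside N₁ k, ← hside N₂ k]
      ring
    rw [Finset.sum_congr rfl (fun k _ => h3 k), ← Finset.mul_sum]
    rw [← Finset.sum_fiberwise_of_maps_to (s := Finset.univ) (t := Finset.univ.image rep)
      (g := rep) (fun k _ => Finset.mem_image_of_mem rep (Finset.mem_univ k))]
    rw [Finset.sum_eq_zero, mul_zero]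
    intro κ hκ
    have h4 : ∑ k ∈ Finset.univ.filter (fun k => rep k = κ),
        (tauC N₁ k (disp P c m (rep k) (u (rep k)) k) (disp P c m (rep k) (u (rep k)) k) -
        tauC N₂ k (disp P c m (rep k) (u (rep k)) k) (disp P c m (rep k) (u (rep k)) k)) =
        t κ (u κ) := by
      simp only [t]
      rw [Finset.sum_filter]
      apply Finset.sum_congr rfl
      intro k _
      split_ifs with h
      · rw [h]
      · have h5 := hdisp0 κ k (u κ) hκ h
        rw [tauC_zero_left N₁ k _ _ h5, tauC_zero_left N₂ k _ _ h5, sub_zero]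
    rw [h4]
    by_cases h : κ = κs
    · rw [h]
      simp only [t]
      apply Finset.sum_eq_zero
      intro k _
      have h6 : ∀ x : ℝ, ((u κs) x).im = 0 := by
        intro x
        obtain ⟨l, hl⟩ := hΦδ x
        rw [hu, hl, Complex.ofReal_im]
      set p := cph m ((P (k + 1) - P k) / (P (κs + 1) - P κs)) with hp
      set l := clen c ((P (k + 1) - P k) / (P (κs + 1) - P κs)) with hl
      have e2 : ((disp P c m κs (u κs) k : ℝ →+ ℂ) : ℝ → ℂ) = fun x => p * u κs (x * l) := rfl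
      rw [e2, tauC_smul, tauC_smul, tauC_real N₁ k _ (fun x => h6 _),
        tauC_real N₂ k _ (fun x => h6 _)]
      ring
    · exact hκs κ hκ h _
  rw [heq] at h1
  have h3 := h1.symm.trans h2
  exact no_relation_coprime hn (by norm_num) hco (Fintype.card S.Face) 8 hcard (Φ (φ₁.rot t₁))
    (Φ (φ₂.rot t₂)) (hΦK _) (hΦK _) hΦα h3

end Pool.Agent.H69.Unfold
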