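import Pool.Agent.H69.PlanarWord

set_option autoImplicit false

namespace Pool.Agent.H69.Unfold

/-- An alternating form that vanishes on the common kernel of two functionals is a multiple of
their exterior product. -/
lemma exists_kappa {V : Type*} [AddCommGroup V] [Module ℝ V] (A : V → V → ℝ)
    (hadd : ∀ x y z, A (x + y) z = A x z + A y z) (hsmul : ∀ (a : ℝ) x z, A (a • x) z = a * A x z)
    (hanti : ∀ x y, A x y = - A y x) (l₁ l₂ : V →ₗ[ℝ] ℝ)
    (h : ∀ x, l₁ x = 0 → l₂ x = 0 → ∀ y, A x y = 0) :
    ∃ κ : ℝ, ∀ x y, A x y = κ * (l₁ x * l₂ y - l₂ x * l₁ y) := by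
  by_cases hdet : ∃ x₀ y₀, l₁ x₀ * l₂ y₀ - l₂ x₀ * l₁ y₀ ≠ 0
  · obtain ⟨x₀, y₀, hd⟩ := hdet
    set d := l₁ x₀ * l₂ y₀ - l₂ x₀ * l₁ y₀ with hddef
    have hself : ∀ x, A x x = 0 := by
      intro x
      have := hanti x x
      linarith
    have key : ∀ x z, A x z = (l₁ x * l₂ y₀ - l₂ x * l₁ y₀) / d * A x₀ z +
        (l₁ x₀ * l₂ x - l₂ x₀ * l₁ x) / d * A y₀ z := by
      intro x z
      set α := (l₁ x * l₂ y₀ - l₂ x * l₁ y₀) / d with hα
      set β := (l₁ x₀ * l₂ x - l₂ x₀ * l₁ x) / d with hβ
      have h1 : l₁ (x + ((-α) • x₀ + (-β) • y₀)) = 0 := by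
        simp only [map_add, map_smul, smul_eq_mul, hα, hβ]
        field_simp
        rw [hddef]
        ring
      have h2 : l₂ (x + ((-α) • x₀ + (-β) • y₀)) = 0 := by
        simp only [map_add, map_smul, smul_eq_mul, hα, hβ]
        field_simp
        rw [hddef]
        ring
      have h3 := h _ h1 h2 z
      rw [hadd, hadd, hsmul, hsmul] at h3
      linarith
    refine ⟨A x₀ y₀ / d, fun x y => ?_⟩
    have e1 : A x₀ y = (l₁ x₀ * l₂ y - l₂ x₀ * l₁ y) / d * A x₀ y₀ := by
      rw [hanti x₀ y, key y x₀, hself, hanti y₀ x₀]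
      ring
    have e2 : A y₀ y = - ((l₁ y * l₂ y₀ - l₂ y * l₁ y₀) / d * A x₀ y₀) := by
      rw [hanti y₀ y, key y y₀, hself]
      ring
    rw [key x y, e1, e2]
    field_simp
    rw [hddef]
    ring
  · push Not at hdet
    refine ⟨0, fun x y => ?_⟩
    rw [zero_mul]
    have hself : ∀ x, A x x = 0 := by
      intro x
      have := hanti x x
      linarith
    by_cases h1 : l₁ x = 0
    · by_cases h2 : l₂ x = 0
      · exact h x h1 h2 y
      · have hd := hdet x y
        rw [h1, zero_mul, zero_sub, neg_eq_zero, mul_eq_zero] at hd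
        have hy : l₁ y = 0 := by
          rcases hd with hd | hd
          · exact absurd hd h2
          · exact hd
        set t := l₂ y / l₂ x with ht
        have h3 : A (y + (-t) • x) x = 0 := by
          apply h
          · simp [hy, h1]
          · simp only [map_add, map_smul, smul_eq_mul, ht]
            field_simp
            ring
        rw [hadd, hsmul, hself, mul_zero, add_zero] at h3
        rw [hanti, h3, neg_zero]
    · set t := l₁ y / l₁ x with ht
      have h3 : A (y + (-t) • x) x = 0 := by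
        apply h
        · simp only [map_add, map_smul, smul_eq_mul, ht]
          field_simp
          ring
        · simp only [map_add, map_smul, smul_eq_mul, ht]
          have hd := hdet x y
          field_simp
          linarith
      rw [hadd, hsmul, hself, mul_zero, add_zero] at h3
      rw [hanti, h3, neg_zero]

/-- `π` is a planar pairing of the cyclically ordered set `ℤ/n`. -/
structure CWord (n : ℕ) (π : ZMod n → ZMod n) : Prop where
  inv : ∀ i, π (π i) = i
  ne : ∀ i, π i ≠ i
  nc : ∀ a b c d : ZMod n, a.val < b.val → b.val < c.val → c.val < d.val → π a = c → π b = d →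
    False

lemma val_add_natCast {n : ℕ} [NeZero n] (r : ZMod n) (m : ℕ) (hm : m < n) :
    (r + (m : ZMod n)).val = if r.val + m < n then r.val + m else r.val + m - n := by
  rw [ZMod.val_add, ZMod.val_natCast, Nat.mod_eq_of_lt hm]
  have hr := ZMod.val_lt r
  split_ifs with h
  · exact Nat.mod_eq_of_lt h
  · rw [Nat.mod_eq_sub_mod (not_lt.mp h), Nat.mod_eq_of_lt (by omega)]

namespace CWord

variable {n : ℕ} [NeZero n] {π : ZMod n → ZMod n}

/-- the pairing seen from `r` -/
def shift (π : ZMod n → ZMod n) (r : ZMod n) (m : ℕ) : ℕ := (π (r + m) - r).val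

lemma add_shift (r : ZMod n) (m : ℕ) : r + (shift π r m : ZMod n) = π (r + m) := by
  unfold shift
  rw [ZMod.natCast_zmod_val]
  ring

omit [NeZero n] in
lemma shift_of_eq {r : ZMod n} {m k : ℕ} (hk : k < n) (h : π (r + m) = r + k) :
    shift π r m = k := by
  unfold shift
  rw [h, add_sub_cancel_left, ZMod.val_natCast, Nat.mod_eq_of_lt hk]

lemma pword (h : CWord n π) (r : ZMod n) : PWord n (shift π r) := by
  have hlt : ∀ m, shift π r m < n := fun m => ZMod.val_lt _
  refine ⟨fun i _ => hlt i, ?_, ?_, ?_⟩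
  · intro i hi
    apply shift_of_eq hi
    rw [add_shift (π := π), h.inv]
  · intro i hi h'
    apply h.ne (r + i)
    rw [← add_shift (π := π), h']
  · intro a b c d hab hbc hcd hd hac hbd
    have h1 : π (r + a) = r + c := by rw [← add_shift (π := π), hac]
    have h2 : π (r + b) = r + d := by rw [← add_shift (π := π), hbd]
    have h3 : π (r + c) = r + a := by rw [← h1, h.inv]
    have h4 : π (r + d) = r + b := by rw [← h2, h.inv]
    have va := val_add_natCast r a (by omega)
    have vb := val_add_natCast r b (by omega)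
    have vc := val_add_natCast r c (by omega)
    have vd := val_add_natCast r d (by omega)
    have hr := ZMod.val_lt r
    by_cases w4 : r.val + d < n
    · rw [if_pos (by omega)] at va vb vc vd
      exact h.nc _ _ _ _ (by omega) (by omega) (by omega) h1 h2
    rw [if_neg w4] at vd
    by_cases w3 : r.val + c < n
    · rw [if_pos (by omega)] at va vb vc
      exact h.nc _ _ _ _ (by omega) (by omega) (by omega) h4 h1
    rw [if_neg w3] at vc
    by_cases w2 : r.val + b < n
    · rw [if_pos (by omega)] at va vb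
      exact h.nc _ _ _ _ (by omega) (by omega) (by omega) h3 h4
    rw [if_neg w2] at vb
    by_cases w1 : r.val + a < n
    · rw [if_pos (by omega)] at va
      exact h.nc _ _ _ _ (by omega) (by omega) (by omega) h2 h3
    rw [if_neg w1] at va
    exact h.nc _ _ _ _ (by omega) (by omega) (by omega) h1 h2

end CWord

/-- sums over `ℤ/n` starting from `r` -/
lemma sum_zmod {n : ℕ} [NeZero n] (r : ZMod n) (f : ZMod n → ℝ) :
    ∑ i : ZMod n, f i = ∑ m ∈ Finset.range n, f (r + m) := by
  rw [← Equiv.sum_comp (Equiv.addLeft r) f]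
  symm
  refine Finset.sum_nbij' (fun m => (m : ZMod n)) (fun i => i.val) ?_ ?_ ?_ ?_ ?_
  · intro m _
    exact Finset.mem_univ _
  · intro i _
    rw [Finset.mem_range]
    exact ZMod.val_lt i
  · intro m hm
    rw [Finset.mem_range] at hm
    rw [ZMod.val_natCast, Nat.mod_eq_of_lt hm]
  · intro i _
    exact ZMod.natCast_zmod_val i
  · intro m _
    rfl

/-- the area form of two functions on the vertices of a closed polygon -/
def areaForm {n : ℕ} [NeZero n] (F G : ZMod n → ℝ) : ℝ :=
  ∑ i : ZMod n, (F i * G (i + 1) - F (i + 1) * G i)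

/-- compatibility of the increments of `F` with a pairing `π` of the edges with signs `ε` -/
def Compat {n : ℕ} (π : ZMod n → ZMod n) (ε F : ZMod n → ℝ) : Prop :=
  ∀ i, F (π i + 1) - F (π i) = -(ε i * (F (i + 1) - F i))


lemma areaForm_sub_const {n : ℕ} [NeZero n] (F G : ZMod n → ℝ) (c : ℝ) :
    areaForm (fun i => F i - c) G = areaForm F G := by
  have h : ∑ i : ZMod n, (G (i + 1) - G i) = 0 := by
    rw [Finset.sum_sub_distrib, sub_eq_zero]
    exact Equiv.sum_comp (Equiv.addRight (1 : ZMod n)) G
  unfold areaForm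
  have h2 : ∀ i, (F i - c) * G (i + 1) - (F (i + 1) - c) * G i =
      (F i * G (i + 1) - F (i + 1) * G i) - c * (G (i + 1) - G i) := by
    intro i
    ring
  simp_rw [h2]
  rw [Finset.sum_sub_distrib, ← Finset.mul_sum, h, mul_zero, sub_zero]

namespace CWord

variable {n : ℕ} [NeZero n] {π : ZMod n → ZMod n}

/-- The vertex class of the first vertex inside a pair stays inside this pair. -/
lemma inside (h : CWord n π) (r : ZMod n) (m : ℕ) (hm : m < n) (hm2 : m < shift π r m) (k : ℕ) :
    ∃ v : ℕ, (fun x => π x + 1)^[k] (r + ((m + 1 : ℕ) : ZMod n)) = r + (v : ZMod n) ∧ m < v ∧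
      v ≤ shift π r m ∧ ∀ q, m < q → q < v → shift π r q < v := by
  have hp := h.pword r
  have hpm := hp.lt m hm
  induction k with
  | zero =>
    exact ⟨m + 1, rfl, by omega, by omega, fun q h1 h2 => by omega⟩
  | succ k ih =>
    obtain ⟨v, hv, h1, h2, h3⟩ := ih
    refine ⟨shift π r v + 1, ?_, ?_⟩
    · rw [Function.iterate_succ_apply', hv, ← add_shift (π := π)]
      push_cast
      ring
    rcases Nat.eq_or_lt_of_le h2 with h4 | h4
    · have h5 : shift π r v = m := by rw [h4, hp.inv m hm]
      rw [h5]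
      exact ⟨by omega, by omega, fun q h6 h7 => by omega⟩
    · have hv' : v < n := by omega
      obtain ⟨h5, h6⟩ := hp.inner hm h1 h4
      have h7 : v < shift π r v := by
        have hne := hp.ne v hv'
        by_contra hcon
        have h8 := h3 _ h5 (by omega)
        rw [hp.inv v hv'] at h8
        omega
      refine ⟨by omega, by omega, ?_⟩
      intro q hq1 hq2
      rcases lt_trichotomy q v with h8 | h8 | h8
      · have := h3 q hq1 h8
        omega
      · rw [h8]
        omega
      · rcases Nat.eq_or_lt_of_le (show q ≤ shift π r v by omega) with h9 | h9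
        · rw [h9, hp.inv v hv']
          omega
        · have := (hp.inner hv' h8 h9).2
          omega

omit [NeZero n] in
lemma cast_inj {a b : ℕ} (ha : a < n) (hb : b < n) (r : ZMod n)
    (h : r + (a : ZMod n) = r + (b : ZMod n)) : a = b := by
  have h1 : (a : ZMod n) = (b : ZMod n) := add_left_cancel h
  have h2 := congrArg ZMod.val h1
  rwa [ZMod.val_natCast, ZMod.val_natCast, Nat.mod_eq_of_lt ha, Nat.mod_eq_of_lt hb] at h2

/-- A planar pairing of the edges of a closed polygon with signs such that at most four vertex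
classes carry a holonomy: the area form of compatible functions factors through two
functionals. -/
theorem rank_two (hw : CWord n π) (ε H : ZMod n → ℝ) (lab : Fin 4 → ZMod n → Prop)
    (hε : ∀ i, ε (π i) = ε i) (hε2 : ∀ i, ε i * ε i = 1) (hH : ∀ i, H i * H i = 1)
    (hlab : ∀ v i, lab v i ↔ lab v (π i + 1))
    (hclass : ∀ v i j, lab v i → lab v j → ∃ k : ℕ, (fun x => π x + 1)^[k] i = j)
    (hgood : ∀ i, (∀ v, ¬ lab v i) → ε i = H i * H (π i + 1)) :
    ∃ a b c : ZMod n, ∀ F G : ZMod n → ℝ, Compat π ε F → Compat π ε G → F a = F c → F b = F c →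
      areaForm F G = 0 := by
  classical
  -- the root
  obtain ⟨r, v₀, hroot⟩ : ∃ (r : ZMod n) (v₀ : Fin 4), lab v₀ r ∨ ∀ v i, ¬ lab v i := by
    by_cases h : ∃ v i, lab v i
    · obtain ⟨v, i, hi⟩ := h
      exact ⟨i, v, Or.inl hi⟩
    · push Not at h
      exact ⟨0, 0, Or.inr h⟩
  have hp := hw.pword r
  -- uniqueness of first vertices with a given label
  have huniq : ∀ v m m', m < n → m < shift π r m → m' < n → m' < shift π r m' →
      lab v (r + ((m + 1 : ℕ) : ZMod n)) → lab v (r + ((m' + 1 : ℕ) : ZMod n)) → m ≤ m' := by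
    intro v m m' h1 h2 h3 h4 h5 h6
    obtain ⟨k, hk⟩ := hclass v _ _ h5 h6
    obtain ⟨w, hw1, hw2, hw3, hw4⟩ := hw.inside r m h1 h2 k
    rw [hk] at hw1
    have h7 := hp.lt m h1
    have h8 := hp.lt m' h3
    have h9 := cast_inj (n := n) (show m' + 1 < n by omega) (show w < n by omega) r hw1
    omega
  have huniq2 : ∀ v m m', m < n → m < shift π r m → m' < n → m' < shift π r m' →
      lab v (r + ((m + 1 : ℕ) : ZMod n)) → lab v (r + ((m' + 1 : ℕ) : ZMod n)) → m = m' :=
    fun v m m' h1 h2 h3 h4 h5 h6 => le_antisymm (huniq v m m' h1 h2 h3 h4 h5 h6)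
      (huniq v m' m h3 h4 h1 h2 h6 h5)
  have hv₀ : ∀ m, m < n → m < shift π r m → ¬ lab v₀ (r + ((m + 1 : ℕ) : ZMod n)) := by
    intro m h1 h2 h3
    rcases hroot with hroot | hroot
    · obtain ⟨k, hk⟩ := hclass v₀ _ _ h3 hroot
      obtain ⟨w, hw1, hw2, hw3, hw4⟩ := hw.inside r m h1 h2 k
      have h7 := hp.lt m h1
      have h9 := cast_inj (n := n) (show 0 < n by omega) (show w < n by omega) r
        (by rw [← hw1, hk]; simp)
      omega
    · exact hroot _ _ h3
  -- representatives
  let o : Fin 4 → ZMod n := fun v =>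
    if h : ∃ m, m < n ∧ m < shift π r m ∧ lab v (r + ((m + 1 : ℕ) : ZMod n)) then
      r + ((h.choose + 1 : ℕ) : ZMod n) else r
  have ho : ∀ v m, m < n → m < shift π r m → lab v (r + ((m + 1 : ℕ) : ZMod n)) →
      o v = r + ((m + 1 : ℕ) : ZMod n) := by
    intro v m h1 h2 h3
    have hex : ∃ m, m < n ∧ m < shift π r m ∧ lab v (r + ((m + 1 : ℕ) : ZMod n)) :=
      ⟨m, h1, h2, h3⟩
    have h4 : o v = r + ((hex.choose + 1 : ℕ) : ZMod n) := dif_pos hex
    obtain ⟨h5, h6, h7⟩ := hex.choose_spec
    rw [h4, huniq2 v _ m h5 h6 h1 h2 h7 h3]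
  refine ⟨o (v₀.succAbove 0), o (v₀.succAbove 1), o (v₀.succAbove 2), ?_⟩
  intro F G hF hG hac hbc
  set c := F (o (v₀.succAbove 2)) with hc
  rw [← areaForm_sub_const F G c]
  unfold areaForm
  rw [sum_zmod r]
  have hcast : ∀ m : ℕ, r + ((m : ZMod n)) + 1 = r + ((m + 1 : ℕ) : ZMod n) := by
    intro m
    push_cast
    ring
  simp only [hcast]
  have hstep : ∀ (f : ZMod n → ℝ) (i : ℕ), f (r + ((shift π r i + 1 : ℕ) : ZMod n)) =
      f (π (r + i) + 1) := by
    intro f i
    rw [← hcast, add_shift (π := π)]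
  have hstep0 : ∀ (f : ZMod n → ℝ) (i : ℕ), f (r + (shift π r i : ZMod n)) = f (π (r + i)) := by
    intro f i
    rw [add_shift (π := π)]
  have hn : ∀ f : ZMod n → ℝ, f (r + ((n : ℕ) : ZMod n)) = f (r + ((0 : ℕ) : ZMod n)) := by
    intro f
    rw [ZMod.natCast_self, Nat.cast_zero]
  have hcompat : ∀ f : ZMod n → ℝ, Compat π ε f → ∀ i : ℕ,
      f (r + ((shift π r i + 1 : ℕ) : ZMod n)) - f (r + (shift π r i : ZMod n)) =
      -(ε (r + i) * (f (r + ((i + 1 : ℕ) : ZMod n)) - f (r + i))) := by
    intro f hf i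
    rw [hstep f, hstep0 f, ← hcast i]
    exact hf (r + i)
  have hequi := hp.equivariant (fun m => ε (r + m)) (fun m => H (r + m))
    (fun m => F (r + m) - c) (fun m => ∃ v, lab v (r + m))
    (by
      intro i _
      change ε (r + (shift π r i : ZMod n)) = _
      rw [hstep0 ε, hε])
    (fun i _ => hε2 _) (fun i => hH _)
    (by
      intro i _
      constructor
      · rintro ⟨v, hv⟩
        refine ⟨v, ?_⟩
        rw [← hcast, add_shift (π := π)]
        exact (hlab v _).mp hv
      · rintro ⟨v, hv⟩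
        refine ⟨v, ?_⟩
        rw [← hcast, add_shift (π := π)] at hv
        exact (hlab v _).mpr hv)
    (by
      intro i _ hb
      push Not at hb
      change _ = _ * H (r + ((shift π r i + 1 : ℕ) : ZMod n))
      rw [hstep H]
      exact hgood _ hb)
    (by
      intro i _
      have := hcompat F hF i
      change F _ - c - (F _ - c) = -(ε _ * (F _ - c - (F _ - c)))
      rw [sub_sub_sub_cancel_right, sub_sub_sub_cancel_right]
      exact this)
    (by
      intro m h1 h2 hb
      obtain ⟨v, hv⟩ := hb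
      have hvne : v ≠ v₀ := by
        rintro rfl
        exact hv₀ m h1 h2 hv
      obtain ⟨j, rfl⟩ := Fin.exists_succAbove_eq hvne
      have h3 := ho _ m h1 h2 hv
      change F (r + ((m + 1 : ℕ) : ZMod n)) - c = 0
      rw [← h3]
      fin_cases j
      · exact sub_eq_zero.mpr hac
      · exact sub_eq_zero.mpr hbc
      · exact sub_eq_zero.mpr rfl)
  exact hp.area_zero (fun m => ε (r + m)) (fun m => F (r + m) - c) (fun m => G (r + m))
    (fun i _ => hε2 _) hequi (fun i _ => hcompat G hG i)
    (by
      change F _ - c = F _ - c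
      rw [hn F]) (hn G)

end CWord

end Pool.Agent.H69.Unfold
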