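import Pool.Agent.H69.FoldRank

set_option autoImplicit false

namespace Pool.Agent.H69.Unfold

open Complex

/-! ### Signed lengths -/

open Classical in
/-- The real cube root of `z ^ 3` if this number is real, `0` otherwise. -/
noncomputable def sl (z : ℂ) : ℝ :=
  if (z ^ 3).im = 0 then (if 0 ≤ (z ^ 3).re then ‖z‖ else -‖z‖) else 0

lemma sl_eq {z : ℂ} {x : ℝ} (h : z ^ 3 = (x : ℂ) ^ 3) : sl z = x := by
  have h1 : (z ^ 3).im = 0 := by
    rw [h, ← Complex.ofReal_pow, Complex.ofReal_im]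
  have h2 : (z ^ 3).re = x ^ 3 := by
    rw [h, ← Complex.ofReal_pow, Complex.ofReal_re]
  have h3 : ‖z‖ = |x| := by
    have h4 : ‖z‖ ^ 3 = |x| ^ 3 := by
      rw [← norm_pow, h, norm_pow, Complex.norm_real, Real.norm_eq_abs]
    exact (pow_left_inj₀ (norm_nonneg _) (abs_nonneg _) (by norm_num)).mp h4
  unfold sl
  rw [if_pos h1, h2, h3]
  split_ifs with h5
  · have : 0 ≤ x := by
      by_contra hx
      push Not at hx
      have : x ^ 3 < 0 := by
        have := pow_pos (neg_pos.mpr hx) 3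
        nlinarith
      linarith
    exact abs_of_nonneg this
  · have : x < 0 := by
      by_contra hx
      push Not at hx
      exact h5 (pow_nonneg hx 3)
    rw [abs_of_neg this]
    ring

lemma exists_real_cube {z : ℂ} (h : (z ^ 3).im = 0) : ∃ x : ℝ, z ^ 3 = (x : ℂ) ^ 3 := by
  have h1 : z ^ 3 = ((z ^ 3).re : ℂ) := by
    apply Complex.ext
    · simp
    · rw [h, Complex.ofReal_im]
  have h2 : |(z ^ 3).re| = ‖z‖ ^ 3 := by
    rw [← Real.norm_eq_abs, ← Complex.norm_real, ← h1, norm_pow]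
  rcases le_or_gt 0 (z ^ 3).re with h3 | h3
  · refine ⟨‖z‖, ?_⟩
    rw [abs_of_nonneg h3] at h2
    rw [h1, h2]
    push_cast
    ring
  · refine ⟨-‖z‖, ?_⟩
    rw [abs_of_neg h3] at h2
    rw [h1]
    have : (z ^ 3).re = -(‖z‖ ^ 3) := by linarith
    rw [this]
    push_cast
    ring

lemma sl_spec {z : ℂ} (h : (z ^ 3).im = 0) : ∃ ρ : ℂ, ρ ^ 3 = 1 ∧ z = ρ * sl z := by
  obtain ⟨x, hx⟩ := exists_real_cube h
  rw [sl_eq hx]
  rcases eq_or_ne x 0 with rfl | h0
  · refine ⟨1, by norm_num, ?_⟩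
    have : z ^ 3 = 0 := by rw [hx]; simp
    have : z = 0 := by simpa using this
    rw [this]
    simp
  · have h1 : (x : ℂ) ≠ 0 := by exact_mod_cast h0
    refine ⟨z / x, ?_, ?_⟩
    · rw [div_pow, hx, div_self (pow_ne_zero 3 h1)]
    · field_simp

lemma sl_zero : sl 0 = 0 := sl_eq (by simp)

lemma sl_of_im_ne {z : ℂ} (h : (z ^ 3).im ≠ 0) : sl z = 0 := by
  unfold sl
  rw [if_neg h]

lemma sl_real_mul (t : ℝ) (z : ℂ) : sl (t * z) = t * sl z := by
  rcases eq_or_ne t 0 with rfl | ht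
  · simp [sl_zero]
  by_cases h : (z ^ 3).im = 0
  · obtain ⟨x, hx⟩ := exists_real_cube h
    rw [sl_eq hx]
    apply sl_eq
    rw [mul_pow, hx]
    push_cast
    ring
  · rw [sl_of_im_ne h, mul_zero]
    apply sl_of_im_ne
    rw [mul_pow, ← Complex.ofReal_pow, Complex.im_ofReal_mul]
    exact mul_ne_zero (pow_ne_zero 3 ht) h

lemma sl_root_mul {ρ : ℂ} (hρ : ρ ^ 3 = 1) (z : ℂ) : sl (ρ * z) = sl z := by
  have h1 : (ρ * z) ^ 3 = z ^ 3 := by rw [mul_pow, hρ, one_mul]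
  have h2 : ‖ρ‖ = 1 := by
    have h3 : ‖ρ‖ ^ 3 = 1 := by rw [← norm_pow, hρ, norm_one]
    exact (pow_eq_one_iff_of_nonneg (norm_nonneg _) (by norm_num)).mp h3
  unfold sl
  rw [h1, norm_mul, h2, one_mul]

/-! ### Side sums -/

variable {M : ℕ} {P : ZMod M → ℂ}

/-- The area form of two functions of the parameter on side `k`. -/
noncomputable def tau (N : Net P) (k : ZMod M) (f g : ℝ → ℝ) : ℝ :=
  ∑ j : Fin (N.m k), (f (N.cut k j) * g (N.cut k (j + 1)) - f (N.cut k (j + 1)) * g (N.cut k j))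

lemma tau_affine (N : Net P) (k : ZMod M) (f₀ g₀ : ℝ) (f g : ℝ → ℝ) (hf : f 0 = 0)
    (hg : g 0 = 0) :
    tau N k (fun c => f₀ + f c) (fun c => g₀ + g c) = f₀ * g 1 - g₀ * f 1 + tau N k f g := by
  unfold tau
  have h : ∀ j : ℕ, (f₀ + f (N.cut k j)) * (g₀ + g (N.cut k (j + 1))) -
      (f₀ + f (N.cut k (j + 1))) * (g₀ + g (N.cut k j)) =
      ((f₀ * g (N.cut k (j + 1)) - g₀ * f (N.cut k (j + 1))) -
        (f₀ * g (N.cut k j) - g₀ * f (N.cut k j))) +
      (f (N.cut k j) * g (N.cut k (j + 1)) - f (N.cut k (j + 1)) * g (N.cut k j)) := by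
    intro j
    ring
  rw [Finset.sum_congr rfl (fun (j : Fin (N.m k)) _ => h j), Finset.sum_add_distrib]
  congr 1
  rw [Fin.sum_univ_eq_sum_range (fun j => (f₀ * g (N.cut k (j + 1)) - g₀ * f (N.cut k (j + 1))) -
        (f₀ * g (N.cut k j) - g₀ * f (N.cut k j))) (N.m k),
    Finset.sum_range_sub (fun j => f₀ * g (N.cut k j) - g₀ * f (N.cut k j)), N.cut_last,
    N.cut_zero, hf, hg]
  ring

lemma tau_zero_left (N : Net P) (k : ZMod M) (f g : ℝ → ℝ) (hf : ∀ c, f c = 0) :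
    tau N k f g = 0 := by
  unfold tau
  apply Finset.sum_eq_zero
  intro j _
  rw [hf, hf]
  ring

lemma tau_zero_right (N : Net P) (k : ZMod M) (f g : ℝ → ℝ) (hg : ∀ c, g c = 0) :
    tau N k f g = 0 := by
  unfold tau
  apply Finset.sum_eq_zero
  intro j _
  rw [hg, hg]
  ring

end Pool.Agent.H69.Unfold
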