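import Pool.Agent.H69.CyclicWord

set_option autoImplicit false

namespace Pool.Agent.H69.Unfold

/-- The position of the boundary edge `⟨k, j⟩` (number `j` on side `k`) in the list of all
boundary edges. -/
def bidx {M : ℕ} (m : ZMod M → ℕ) (x : Σ k : ZMod M, Fin (m k)) : ℕ :=
  (∑ i ∈ Finset.range x.1.val, m (i : ZMod M)) + x.2

lemma sum_zmod_nat {M : ℕ} [NeZero M] (f : ZMod M → ℕ) :
    ∑ k : ZMod M, f k = ∑ i ∈ Finset.range M, f (i : ZMod M) := by
  symm
  refine Finset.sum_nbij' (fun m => (m : ZMod M)) (fun i => i.val) ?_ ?_ ?_ ?_ ?_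
  · intro m _
    exact Finset.mem_univ _
  · intro i _
    rw [Finset.mem_range]
    exact ZMod.val_lt i
  · intro m hm
    rw [Finset.mem_range] at hm
    rw [ZMod.val_natCast, Nat.mod_eq_of_lt hm]
  · intro i _
    exact ZMod.natCast_zmod_val i
  · intro m _
    rfl

lemma bidx_lt_next {M : ℕ} [NeZero M] (m : ZMod M → ℕ) (x : Σ k : ZMod M, Fin (m k)) :
    bidx m x < ∑ i ∈ Finset.range (x.1.val + 1), m (i : ZMod M) := by
  unfold bidx
  rw [Finset.sum_range_succ, ZMod.natCast_zmod_val]
  have := x.2.2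
  omega

lemma bidx_lt {M : ℕ} [NeZero M] (m : ZMod M → ℕ) (x : Σ k : ZMod M, Fin (m k)) :
    bidx m x < ∑ k : ZMod M, m k := by
  rw [sum_zmod_nat]
  refine lt_of_lt_of_le (bidx_lt_next m x) ?_
  apply Finset.sum_le_sum_of_subset
  intro i hi
  rw [Finset.mem_range] at hi ⊢
  have := ZMod.val_lt x.1
  omega

lemma bidx_lt_of_lt {M : ℕ} [NeZero M] (m : ZMod M → ℕ) (x y : Σ k : ZMod M, Fin (m k))
    (h : x.1.val < y.1.val) : bidx m x < bidx m y := by
  refine lt_of_lt_of_le (bidx_lt_next m x) ?_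
  unfold bidx
  refine le_trans ?_ (Nat.le_add_right _ _)
  apply Finset.sum_le_sum_of_subset
  intro i hi
  rw [Finset.mem_range] at hi ⊢
  omega

lemma bidx_inj {M : ℕ} [NeZero M] (m : ZMod M → ℕ) : Function.Injective (bidx m) := by
  intro x y h
  rcases lt_trichotomy x.1.val y.1.val with h1 | h1 | h1
  · have := bidx_lt_of_lt m x y h1
    omega
  · have h2 : x.1 = y.1 := ZMod.val_injective M h1
    obtain ⟨k, j⟩ := x
    obtain ⟨k', j'⟩ := y
    simp only at h2
    subst h2
    unfold bidx at h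
    simp only at h
    have : j = j' := Fin.ext (by omega)
    rw [this]
  · have := bidx_lt_of_lt m y x h1
    omega

/-- An enumeration of the boundary edges by `ℤ/n`. -/
lemma exists_enum {M : ℕ} [NeZero M] (m : ZMod M → ℕ) (hm : ∀ k, 0 < m k) :
    ∃ (n : ℕ) (_ : NeZero n) (E : ZMod n ≃ Σ k : ZMod M, Fin (m k)),
      (∀ x, (E.symm x).val = bidx m x) ∧
      (∀ (x : Σ k : ZMod M, Fin (m k)) (h : x.2.val + 1 < m x.1),
        E (E.symm x + 1) = ⟨x.1, ⟨x.2.val + 1, h⟩⟩) ∧
      (∀ x : Σ k : ZMod M, Fin (m k), x.2.val + 1 = m x.1 →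
        E (E.symm x + 1) = ⟨x.1 + 1, ⟨0, hm _⟩⟩) := by
  set n := ∑ k : ZMod M, m k with hn
  have hn0 : NeZero n := ⟨by
    have := bidx_lt m ⟨0, ⟨0, hm 0⟩⟩
    omega⟩
  let f : (Σ k : ZMod M, Fin (m k)) → ZMod n := fun x => (bidx m x : ℕ)
  have hval : ∀ x, (f x).val = bidx m x := by
    intro x
    change ((bidx m x : ℕ) : ZMod n).val = _
    rw [ZMod.val_natCast, Nat.mod_eq_of_lt (bidx_lt m x)]
  have hinj : Function.Injective f := by
    intro x y h
    apply bidx_inj m
    rw [← hval, ← hval, h]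
  have hbij : Function.Bijective f := by
    rw [Fintype.bijective_iff_injective_and_card]
    refine ⟨hinj, ?_⟩
    rw [Fintype.card_sigma, ZMod.card]
    simp [hn]
  let e := Equiv.ofBijective f hbij
  have he : ∀ x, e x = (bidx m x : ℕ) := fun _ => rfl
  refine ⟨n, hn0, e.symm, ?_, ?_, ?_⟩
  · intro x
    exact hval x
  · intro x h
    rw [Equiv.symm_apply_eq, Equiv.symm_symm, he, he]
    unfold bidx
    push_cast
    ring
  · intro x h
    rw [Equiv.symm_apply_eq, Equiv.symm_symm, he, he]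
    by_cases hk : x.1.val + 1 < M
    · have h1 : (x.1 + 1).val = x.1.val + 1 := by
        have h0 : x.1 + 1 = ((x.1.val + 1 : ℕ) : ZMod M) := by
          push_cast
          rw [ZMod.natCast_zmod_val]
        rw [h0, ZMod.val_natCast, Nat.mod_eq_of_lt hk]
      have h2 : bidx m ⟨x.1 + 1, ⟨0, hm _⟩⟩ = bidx m x + 1 := by
        unfold bidx
        simp only [h1]
        rw [Finset.sum_range_succ, ZMod.natCast_zmod_val]
        omega
      rw [h2]
      push_cast
      ring
    · have h3 := ZMod.val_lt x.1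
      have h4 : x.1.val + 1 = M := by omega
      have h5 : x.1 + 1 = 0 := by
        have : x.1 = ((x.1.val : ℕ) : ZMod M) := (ZMod.natCast_zmod_val _).symm
        rw [this]
        have h6 : (((x.1.val + 1 : ℕ)) : ZMod M) = 0 := by
          rw [h4]
          exact ZMod.natCast_self M
        push_cast at h6
        exact h6
      have h6 : bidx m x + 1 = n := by
        unfold bidx
        have h7 : ∑ i ∈ Finset.range M, m (i : ZMod M) =
            ∑ i ∈ Finset.range (x.1.val + 1), m (i : ZMod M) := by rw [h4]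
        rw [hn, sum_zmod_nat, h7, Finset.sum_range_succ, ZMod.natCast_zmod_val]
        omega
      have h7 : bidx m ⟨x.1 + 1, ⟨0, hm _⟩⟩ = 0 := by
        unfold bidx
        simp [h5]
      rw [h7]
      have h8 : ((bidx m x + 1 : ℕ) : ZMod n) = 0 := by
        rw [h6]
        exact ZMod.natCast_self n
      push_cast at h8
      rw [h8]
      simp

end Pool.Agent.H69.Unfold
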