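import Pool.Agent.H69.FoldClass

set_option autoImplicit false

namespace Pool.Agent.H69.Unfold

open Complex

variable {M : ℕ} {P : ZMod M → ℂ}

/-- the partial sums of the weights -/
noncomputable def off (w : ZMod M → ℝ) (k : ZMod M) : ℝ :=
  ∑ i ∈ Finset.range k.val, w (i : ZMod M)

lemma sum_zmod_real [NeZero M] (f : ZMod M → ℝ) :
    ∑ k : ZMod M, f k = ∑ i ∈ Finset.range M, f (i : ZMod M) := by
  have h := sum_zmod 0 f
  simpa using h

lemma off_succ [NeZero M] (w : ZMod M → ℝ) (hw : ∑ k, w k = 0) (k : ZMod M) :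
    off w (k + 1) = off w k + w k := by
  unfold off
  by_cases hk : k.val + 1 < M
  · have h1 : (k + 1).val = k.val + 1 := by
      have h0 : k + 1 = ((k.val + 1 : ℕ) : ZMod M) := by
        push_cast
        rw [ZMod.natCast_zmod_val]
      rw [h0, ZMod.val_natCast, Nat.mod_eq_of_lt hk]
    rw [h1, Finset.sum_range_succ, ZMod.natCast_zmod_val]
  · have h3 := ZMod.val_lt k
    have h4 : k.val + 1 = M := by omega
    have h5 : k + 1 = 0 := by
      have : k = ((k.val : ℕ) : ZMod M) := (ZMod.natCast_zmod_val _).symm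
      rw [this]
      have h6 : (((k.val + 1 : ℕ)) : ZMod M) = 0 := by
        rw [h4]
        exact ZMod.natCast_self M
      push_cast at h6
      exact h6
    rw [h5, ZMod.val_zero, Finset.sum_range_zero]
    have h6 : ∑ i ∈ Finset.range (k.val + 1), w (i : ZMod M) = 0 := by
      rw [← hw, sum_zmod_real]
      rw [h4]
    rw [Finset.sum_range_succ, ZMod.natCast_zmod_val] at h6
    linarith

/-- the part of the area form that does not depend on the net -/
noncomputable def baseForm [NeZero M] (w w' : ZMod M → ℝ) (f g : ℝ →+ ℝ) : ℝ :=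
  ∑ k : ZMod M, (f (off w k) * g (w' k) - g (off w' k) * f (w k))

section vertices

variable (N : Net P) {L : ℕ} (E : ZMod L ≃ Σ k : ZMod M, Fin (N.m k))

/-- the function on the boundary vertices with the increments `Δcut * w` -/
noncomputable def vtx (w : ZMod M → ℝ) (i : ZMod L) : ℝ :=
  off w (E i).1 + N.cut (E i).1 (E i).2 * w (E i).1

variable [NeZero M]
  (hE1 : ∀ (x : Σ k : ZMod M, Fin (N.m k)) (h : x.2.val + 1 < N.m x.1),
        E (E.symm x + 1) = ⟨x.1, ⟨x.2.val + 1, h⟩⟩)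
  (hE2 : ∀ x : Σ k : ZMod M, Fin (N.m k), x.2.val + 1 = N.m x.1 →
        E (E.symm x + 1) = ⟨x.1 + 1, ⟨0, N.m_pos _⟩⟩)

include hE1 hE2

lemma vtx_succ (w : ZMod M → ℝ) (hw : ∑ k, w k = 0) (i : ZMod L) :
    vtx N E w (i + 1) = off w (E i).1 + N.cut (E i).1 ((E i).2 + 1) * w (E i).1 := by
  obtain ⟨x, rfl⟩ : ∃ x, i = E.symm x := ⟨E i, by simp⟩
  unfold vtx
  rw [Equiv.apply_symm_apply]
  by_cases h : x.2.val + 1 < N.m x.1
  · rw [hE1 x h]
  · have h' : x.2.val + 1 = N.m x.1 := by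
      have := x.2.2
      omega
    rw [hE2 x h']
    simp only
    rw [h', N.cut_last, N.cut_zero, off_succ w hw]
    ring

lemma areaForm_vtx [NeZero L] (w w' : ZMod M → ℝ) (hw : ∑ k, w k = 0) (hw' : ∑ k, w' k = 0)
    (f g : ℝ →+ ℝ) :
    areaForm (fun i => f (vtx N E w i)) (fun i => g (vtx N E w' i)) =
      baseForm w w' f g + ∑ k, tau N k (fun c => f (c * w k)) (fun c => g (c * w' k)) := by
  unfold areaForm
  simp only [vtx_succ N E hE1 hE2 w hw, vtx_succ N E hE1 hE2 w' hw']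
  unfold vtx baseForm
  rw [← Finset.sum_add_distrib]
  have h1 := Equiv.sum_comp E (fun x : Σ k : ZMod M, Fin (N.m k) =>
    f (off w x.1 + N.cut x.1 x.2 * w x.1) * g (off w' x.1 + N.cut x.1 (x.2 + 1) * w' x.1) -
    f (off w x.1 + N.cut x.1 (x.2 + 1) * w x.1) * g (off w' x.1 + N.cut x.1 x.2 * w' x.1))
  rw [h1, Fintype.sum_sigma]
  apply Finset.sum_congr rfl
  intro k _
  have h2 := tau_affine N k (f (off w k)) (g (off w' k)) (fun c => f (c * w k))
    (fun c => g (c * w' k)) (by simp) (by simp)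
  simp only [one_mul] at h2
  rw [← h2]
  unfold tau
  apply Finset.sum_congr rfl
  intro j _
  simp only [map_add]

end vertices

section folding

variable {N : Net P} {n : ℕ} {S : NGonSurface n}

/-- the length of a boundary edge relative to its side -/
def Net.len (N : Net P) (x : Σ k : ZMod M, Fin (N.m k)) : ℝ :=
  N.cut x.1 (x.2 + 1) - N.cut x.1 x.2

/-- admissible weights of the sides: weighted lengths of glued edges agree up to the signs -/
structure Adm [NeZero M] (φ : Folding N S) (ε : N.Tri × ZMod 3 → ℝ) (w : ZMod M → ℝ) : Prop where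
  sum : ∑ k, w k = 0
  rel : ∀ x y, φ.pair (N.bdry x) = N.bdry y →
    N.len y * w y.1 = -(ε (N.bdry x) * (N.len x * w x.1))

lemma compat_vtx [NeZero M] (φ : Folding N S) {L : ℕ} (E : ZMod L ≃ Σ k : ZMod M, Fin (N.m k))
    (hE1 : ∀ (x : Σ k : ZMod M, Fin (N.m k)) (h : x.2.val + 1 < N.m x.1),
        E (E.symm x + 1) = ⟨x.1, ⟨x.2.val + 1, h⟩⟩)
    (hE2 : ∀ x : Σ k : ZMod M, Fin (N.m k), x.2.val + 1 = N.m x.1 →
        E (E.symm x + 1) = ⟨x.1 + 1, ⟨0, N.m_pos _⟩⟩)
    (π : ZMod L → ZMod L) (hπ : ∀ i, N.bdry (E (π i)) = φ.pair (N.bdry (E i)))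
    (ε : N.Tri × ZMod 3 → ℝ) (hε2 : ∀ e, ε e * ε e = 1) (w : ZMod M → ℝ) (hw : Adm φ ε w)
    (f : ℝ →+ ℝ) : Compat π (fun i => ε (N.bdry (E i))) (fun i => f (vtx N E w i)) := by
  have hstep : ∀ i, f (vtx N E w (i + 1)) - f (vtx N E w i) =
      f (N.len (E i) * w (E i).1) := by
    intro i
    rw [vtx_succ N E hE1 hE2 w hw.sum, ← map_sub]
    unfold vtx Net.len
    congr 1
    ring
  intro i
  simp only
  rw [hstep, hstep, hw.rel (E i) (E (π i)) (hπ i).symm, map_neg]
  congr 1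
  rcases mul_self_eq_one_iff.mp (hε2 (N.bdry (E i))) with h | h
  · rw [h, one_mul, one_mul]
  · rw [h, neg_one_mul, neg_one_mul, map_neg]

/-- compatible functions -/
def compatSub {L : ℕ} (π : ZMod L → ZMod L) (ε : ZMod L → ℝ) : Submodule ℝ (ZMod L → ℝ) where
  carrier := {F | Compat π ε F}
  add_mem' := by
    intro F G hF hG i
    have h1 := hF i
    have h2 := hG i
    simp only [Pi.add_apply]
    linarith
  zero_mem' := by
    intro i
    simp
  smul_mem' := by
    intro c F hF i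
    have h1 := hF i
    simp only [Pi.smul_apply, smul_eq_mul]
    linear_combination c * h1

lemma areaForm_kappa {L : ℕ} [NeZero L] (π : ZMod L → ZMod L) (ε : ZMod L → ℝ) (a b c : ZMod L)
    (h : ∀ F G : ZMod L → ℝ, Compat π ε F → Compat π ε G → F a = F c → F b = F c →
      areaForm F G = 0) :
    ∃ κ : ℝ, ∀ F G : ZMod L → ℝ, Compat π ε F → Compat π ε G →
      areaForm F G = κ * ((F a - F c) * (G b - G c) - (F b - F c) * (G a - G c)) := by
  let l : ZMod L → compatSub π ε →ₗ[ℝ] ℝ := fun i =>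
    ((LinearMap.proj i : (ZMod L → ℝ) →ₗ[ℝ] ℝ) - LinearMap.proj c).comp (compatSub π ε).subtype
  have hl : ∀ i (F : compatSub π ε), l i F = F.1 i - F.1 c := fun _ _ => rfl
  obtain ⟨κ, hκ⟩ := exists_kappa (fun F G : compatSub π ε => areaForm F.1 G.1)
    (by
      intro F G K
      change areaForm (F.1 + G.1) K.1 = _
      unfold areaForm
      rw [← Finset.sum_add_distrib]
      apply Finset.sum_congr rfl
      intro i _
      simp only [Pi.add_apply]
      ring)
    (by
      intro t F G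
      change areaForm (t • F.1) G.1 = _
      unfold areaForm
      rw [Finset.mul_sum]
      apply Finset.sum_congr rfl
      intro i _
      simp only [Pi.smul_apply, smul_eq_mul]
      ring)
    (by
      intro F G
      unfold areaForm
      rw [← Finset.sum_neg_distrib]
      apply Finset.sum_congr rfl
      intro i _
      ring)
    (l a) (l b)
    (by
      intro F h1 h2 G
      rw [hl] at h1 h2
      exact h F.1 G.1 F.2 G.2 (by linarith) (by linarith))
  refine ⟨κ, fun F G hF hG => ?_⟩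
  have := hκ ⟨F, hF⟩ ⟨G, hG⟩
  simp only [hl] at this
  exact this

/-- The total area form of a folding with holonomy `±1` at no more than four vertices. -/
theorem Folding.form_rank_two [NeZero M] (φ : Folding N S) (hP : IsSimplePolygon P)
    (hS : ∀ x, S.glue x ≠ x) (hnc : φ.NonCrossing)
    (can : Fin 4 → N.Tri × ZMod 3 → Prop) (hcan : ∀ v c c', can v c → can v c' → c = c')
    (ε H : N.Tri × ZMod 3 → ℝ) (hε : ∀ e, ε (φ.pair e) = ε e) (hε2 : ∀ e, ε e * ε e = 1)
    (hε1 : ∀ e, N.adj e ≠ e → ε e = 1) (hH : ∀ e, H e * H e = 1)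
    (hgood : ∀ e, (∀ v, ¬ can v e) → ε e = H e * H (φ.nu e)) :
    ∃ (X Y : (ZMod M → ℝ) → ℝ) (κ : ℝ), ∀ w w', Adm φ ε w → Adm φ ε w' → ∀ f g : ℝ →+ ℝ,
      baseForm w w' f g + ∑ k, tau N k (fun c => f (c * w k)) (fun c => g (c * w' k)) =
        κ * (f (X w) * g (Y w') - f (Y w) * g (X w')) := by
  obtain ⟨L, hL, E, π, hw, hE1, hE2, hπ, hfan⟩ := φ.exists_word hP hS hnc
  have hb : ∀ x, N.adj (N.bdry x) = N.bdry x := by
    intro x
    have : N.bdry x ∈ Set.range N.bdry := ⟨x, rfl⟩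
    rw [N.bdry_range] at this
    exact this
  obtain ⟨a, b, c, h⟩ := φ.rank_two (fun i => N.bdry (E i))
    (fun i j h => E.injective (N.bdry_inj h)) (fun i => hb _) π hw hπ hfan can hcan ε H hε hε2
    hε1 hH hgood
  obtain ⟨κ, hκ⟩ := areaForm_kappa π _ a b c h
  refine ⟨fun w => vtx N E w a - vtx N E w c, fun w => vtx N E w b - vtx N E w c, κ, ?_⟩
  intro w w' hAw hAw' f g
  rw [← areaForm_vtx N E hE1 hE2 w w' hAw.sum hAw'.sum f g,
    hκ _ _ (compat_vtx φ E hE1 hE2 π hπ ε hε2 w hAw f)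
      (compat_vtx φ E hE1 hE2 π hπ ε hε2 w' hAw' g)]
  simp only [map_sub]

/-- The total area form of a folding without holonomy. -/
theorem Folding.form_trivial [NeZero M] (φ : Folding N S) (hP : IsSimplePolygon P)
    (hS : ∀ x, S.glue x ≠ x) (hnc : φ.NonCrossing) :
    ∀ w w', Adm φ (fun _ => 1) w → Adm φ (fun _ => 1) w' → ∀ f g : ℝ →+ ℝ,
      baseForm w w' f g + ∑ k, tau N k (fun c => f (c * w k)) (fun c => g (c * w' k)) = 0 := by
  obtain ⟨L, hL, E, π, hw, hE1, hE2, hπ, hfan⟩ := φ.exists_word hP hS hnc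
  intro w w' hAw hAw' f g
  rw [← areaForm_vtx N E hE1 hE2 w w' hAw.sum hAw'.sum f g]
  exact hw.area_trivial _ _
    (compat_vtx φ E hE1 hE2 π hπ (fun _ => 1) (fun _ => by norm_num) w hAw f)
    (compat_vtx φ E hE1 hE2 π hπ (fun _ => 1) (fun _ => by norm_num) w' hAw' g)

end folding

end Pool.Agent.H69.Unfold
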