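import Pool.Agent.H69.FoldHol

set_option autoImplicit false

namespace Pool.Agent.H69.Unfold

open Complex

/-! ### Area forms of complex functions -/

/-- the polarisation of twice the area of closed polygons -/
noncomputable def areaFormC {n : ℕ} [NeZero n] (F G : ZMod n → ℂ) : ℝ :=
  ∑ i : ZMod n, (cross (F i) (G (i + 1)) - cross (F (i + 1)) (G i))

lemma polyArea_self {n : ℕ} [NeZero n] (F : ZMod n → ℂ) : areaFormC F F = 2 * polyArea F := by
  unfold areaFormC polyArea
  rw [Finset.mul_sum]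
  apply Finset.sum_congr rfl
  intro i _
  rw [cross_comm (F i) (F (i + 1))]
  ring

lemma areaFormC_eq {n : ℕ} [NeZero n] (F G : ZMod n → ℂ) :
    areaFormC F G = areaForm (fun i => (F i).re) (fun i => (G i).im) -
      areaForm (fun i => (F i).im) (fun i => (G i).re) := by
  unfold areaFormC areaForm
  rw [← Finset.sum_sub_distrib]
  apply Finset.sum_congr rfl
  intro i _
  unfold cross
  simp only [Complex.mul_im, Complex.conj_re, Complex.conj_im]
  ring

/-- The area form of a pairing without holonomy vanishes. -/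
theorem CWord.area_trivialC {L : ℕ} [NeZero L] {π : ZMod L → ZMod L} (hw : CWord L π)
    (F G : ZMod L → ℂ) (hF : CompatC π (fun _ => 1) F) (hG : CompatC π (fun _ => 1) G) :
    areaFormC F G = 0 := by
  have hre : ∀ F : ZMod L → ℂ, CompatC π (fun _ => 1) F →
      Compat π (fun _ => 1) (fun i => (F i).re) ∧ Compat π (fun _ => 1) (fun i => (F i).im) := by
    intro F hF
    constructor
    · intro i
      have := congrArg Complex.re (hF i)
      simpa using this
    · intro i
      have := congrArg Complex.im (hF i)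
      simpa using this
  rw [areaFormC_eq, hw.area_trivial _ _ (hre F hF).1 (hre G hG).2,
    hw.area_trivial _ _ (hre F hF).2 (hre G hG).1, sub_zero]

/-! ### Displacements of the sides -/

variable {M : ℕ} {P : ZMod M → ℂ}

/-- The area form of two complex functions of the parameter on side `k`. -/
noncomputable def tauC (N : Net P) (k : ZMod M) (f g : ℝ → ℂ) : ℝ :=
  ∑ j : Fin (N.m k), (cross (f (N.cut k j)) (g (N.cut k (j + 1))) -
    cross (f (N.cut k (j + 1))) (g (N.cut k j)))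

lemma tauC_affine (N : Net P) (k : ZMod M) (f₀ g₀ : ℂ) (f g : ℝ → ℂ) (hf : f 0 = 0)
    (hg : g 0 = 0) :
    tauC N k (fun c => f₀ + f c) (fun c => g₀ + g c) =
      cross f₀ (g 1) - cross (f 1) g₀ + tauC N k f g := by
  unfold tauC
  have h : ∀ j : ℕ, cross (f₀ + f (N.cut k j)) (g₀ + g (N.cut k (j + 1))) -
      cross (f₀ + f (N.cut k (j + 1))) (g₀ + g (N.cut k j)) =
      ((cross f₀ (g (N.cut k (j + 1))) - cross (f (N.cut k (j + 1))) g₀) -
        (cross f₀ (g (N.cut k j)) - cross (f (N.cut k j)) g₀)) +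
      (cross (f (N.cut k j)) (g (N.cut k (j + 1))) -
        cross (f (N.cut k (j + 1))) (g (N.cut k j))) := by
    intro j
    rw [cross_add_left, cross_add_right, cross_add_right, cross_add_left, cross_add_right,
      cross_add_right]
    ring
  rw [Finset.sum_congr rfl (fun (j : Fin (N.m k)) _ => h j), Finset.sum_add_distrib]
  congr 1
  rw [Fin.sum_univ_eq_sum_range (fun j => (cross f₀ (g (N.cut k (j + 1))) -
        cross (f (N.cut k (j + 1))) g₀) - (cross f₀ (g (N.cut k j)) - cross (f (N.cut k j)) g₀))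
        (N.m k),
    Finset.sum_range_sub (fun j => cross f₀ (g (N.cut k j)) - cross (f (N.cut k j)) g₀),
    N.cut_last, N.cut_zero, hf, hg]
  simp [cross]

lemma tauC_zero_left (N : Net P) (k : ZMod M) (f g : ℝ → ℂ) (hf : ∀ c, f c = 0) :
    tauC N k f g = 0 := by
  unfold tauC
  apply Finset.sum_eq_zero
  intro j _
  rw [hf, hf]
  simp [cross]

lemma tauC_zero_right (N : Net P) (k : ZMod M) (f g : ℝ → ℂ) (hg : ∀ c, g c = 0) :
    tauC N k f g = 0 := by
  unfold tauC
  apply Finset.sum_eq_zero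
  intro j _
  rw [hg, hg]
  simp [cross]

/-- the partial sums of the side vectors of displacement data -/
noncomputable def offC (D : ZMod M → ℝ →+ ℂ) (k : ZMod M) : ℂ :=
  ∑ i ∈ Finset.range k.val, D (i : ZMod M) 1

lemma offC_succ [NeZero M] (D : ZMod M → ℝ →+ ℂ) (hw : ∑ k, D k 1 = 0) (k : ZMod M) :
    offC D (k + 1) = offC D k + D k 1 := by
  have hsum : ∑ i ∈ Finset.range M, D (i : ZMod M) 1 = 0 := by
    rw [← hw]
    symm
    refine Finset.sum_nbij' (fun i => i.val) (fun m => (m : ZMod M)) ?_ ?_ ?_ ?_ ?_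
    · intro i _
      rw [Finset.mem_range]
      exact ZMod.val_lt i
    · intro m _
      exact Finset.mem_univ _
    · intro i _
      exact ZMod.natCast_zmod_val i
    · intro m hm
      rw [Finset.mem_range] at hm
      rw [ZMod.val_natCast, Nat.mod_eq_of_lt hm]
    · intro i _
      simp only [ZMod.natCast_zmod_val]
  unfold offC
  by_cases hk : k.val + 1 < M
  · have h1 : (k + 1).val = k.val + 1 := by
      have h0 : k + 1 = ((k.val + 1 : ℕ) : ZMod M) := by
        push_cast
        rw [ZMod.natCast_zmod_val]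
      rw [h0, ZMod.val_natCast, Nat.mod_eq_of_lt hk]
    rw [h1, Finset.sum_range_succ, ZMod.natCast_zmod_val]
  · have h3 := ZMod.val_lt k
    have h4 : k.val + 1 = M := by omega
    have h5 : k + 1 = 0 := by
      have : k = ((k.val : ℕ) : ZMod M) := (ZMod.natCast_zmod_val _).symm
      rw [this]
      have h6 : (((k.val + 1 : ℕ)) : ZMod M) = 0 := by
        rw [h4]
        exact ZMod.natCast_self M
      push_cast at h6
      exact h6
    rw [h5, ZMod.val_zero, Finset.sum_range_zero]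
    have h6 : ∑ i ∈ Finset.range (k.val + 1), D (i : ZMod M) 1 = 0 := by
      rw [← hsum]
      rw [h4]
    rw [Finset.sum_range_succ, ZMod.natCast_zmod_val] at h6
    exact h6.symm

/-- complex linear combinations of displacement data -/
noncomputable def linComb (a b : ℂ) (D D' : ZMod M → ℝ →+ ℂ) (k : ZMod M) : ℝ →+ ℂ where
  toFun c := a * D k c + b * D' k c
  map_zero' := by simp
  map_add' := by
    intro x y
    rw [map_add, map_add]
    ring

lemma linComb_apply (a b : ℂ) (D D' : ZMod M → ℝ →+ ℂ) (k : ZMod M) (c : ℝ) :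
    linComb a b D D' k c = a * D k c + b * D' k c := rfl

/-- the part of the area form that does not depend on the net -/
noncomputable def baseFormC [NeZero M] (D D' : ZMod M → ℝ →+ ℂ) : ℝ :=
  ∑ k : ZMod M, (cross (offC D k) (D' k 1) - cross (D k 1) (offC D' k))

section vertices

variable (N : Net P) {L : ℕ} (E : ZMod L ≃ Σ k : ZMod M, Fin (N.m k))

/-- the function on the boundary vertices with the given displacements -/
noncomputable def vtxC (D : ZMod M → ℝ →+ ℂ) (i : ZMod L) : ℂ :=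
  offC D (E i).1 + D (E i).1 (N.cut (E i).1 (E i).2)

variable [NeZero M]
  (hE1 : ∀ (x : Σ k : ZMod M, Fin (N.m k)) (h : x.2.val + 1 < N.m x.1),
        E (E.symm x + 1) = ⟨x.1, ⟨x.2.val + 1, h⟩⟩)
  (hE2 : ∀ x : Σ k : ZMod M, Fin (N.m k), x.2.val + 1 = N.m x.1 →
        E (E.symm x + 1) = ⟨x.1 + 1, ⟨0, N.m_pos _⟩⟩)

include hE1 hE2

lemma vtxC_succ (D : ZMod M → ℝ →+ ℂ) (hD : ∑ k, D k 1 = 0) (i : ZMod L) :
    vtxC N E D (i + 1) = offC D (E i).1 + D (E i).1 (N.cut (E i).1 ((E i).2 + 1)) := by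
  obtain ⟨x, rfl⟩ : ∃ x, i = E.symm x := ⟨E i, by simp⟩
  unfold vtxC
  rw [Equiv.apply_symm_apply]
  by_cases h : x.2.val + 1 < N.m x.1
  · rw [hE1 x h]
  · have h' : x.2.val + 1 = N.m x.1 := by
      have := x.2.2
      omega
    rw [hE2 x h']
    simp only
    rw [h', N.cut_last, N.cut_zero, offC_succ D hD, map_zero, add_zero]

lemma areaFormC_vtx [NeZero L] (D D' : ZMod M → ℝ →+ ℂ) (hD : ∑ k, D k 1 = 0)
    (hD' : ∑ k, D' k 1 = 0) :
    areaFormC (vtxC N E D) (vtxC N E D') =
      baseFormC D D' + ∑ k, tauC N k (D k) (D' k) := by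
  unfold areaFormC
  simp only [vtxC_succ N E hE1 hE2 D hD, vtxC_succ N E hE1 hE2 D' hD']
  unfold vtxC baseFormC
  rw [← Finset.sum_add_distrib]
  have h1 := Equiv.sum_comp E (fun x : Σ k : ZMod M, Fin (N.m k) =>
    cross (offC D x.1 + D x.1 (N.cut x.1 x.2)) (offC D' x.1 + D' x.1 (N.cut x.1 (x.2 + 1))) -
    cross (offC D x.1 + D x.1 (N.cut x.1 (x.2 + 1))) (offC D' x.1 + D' x.1 (N.cut x.1 x.2)))
  rw [h1, Fintype.sum_sigma]
  apply Finset.sum_congr rfl
  intro k _
  rw [← tauC_affine N k (offC D k) (offC D' k) (D k) (D' k) (map_zero _) (map_zero _)]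
  rfl

end vertices

section folding

variable {N : Net P} {n : ℕ} {S : NGonSurface n}

/-- admissible displacements of the sides: displacements of glued edges agree up to the phases -/
structure AdmC [NeZero M] (φ : Folding N S) (ε : N.Tri × ZMod 3 → ℂ) (D : ZMod M → ℝ →+ ℂ) :
    Prop where
  sum : ∑ k, D k 1 = 0
  rel : ∀ x y, φ.pair (N.bdry x) = N.bdry y →
    D y.1 (N.len y) = -(ε (N.bdry x) * D x.1 (N.len x))

lemma compatC_vtx [NeZero M] (φ : Folding N S) {L : ℕ} (E : ZMod L ≃ Σ k : ZMod M, Fin (N.m k))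
    (hE1 : ∀ (x : Σ k : ZMod M, Fin (N.m k)) (h : x.2.val + 1 < N.m x.1),
        E (E.symm x + 1) = ⟨x.1, ⟨x.2.val + 1, h⟩⟩)
    (hE2 : ∀ x : Σ k : ZMod M, Fin (N.m k), x.2.val + 1 = N.m x.1 →
        E (E.symm x + 1) = ⟨x.1 + 1, ⟨0, N.m_pos _⟩⟩)
    (π : ZMod L → ZMod L) (hπ : ∀ i, N.bdry (E (π i)) = φ.pair (N.bdry (E i)))
    (ε : N.Tri × ZMod 3 → ℂ) (D : ZMod M → ℝ →+ ℂ) (hD : AdmC φ ε D) :
    CompatC π (fun i => ε (N.bdry (E i))) (vtxC N E D) := by
  have hstep : ∀ i, vtxC N E D (i + 1) - vtxC N E D i = D (E i).1 (N.len (E i)) := by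
    intro i
    rw [vtxC_succ N E hE1 hE2 D hD.sum]
    unfold vtxC Net.len
    rw [map_sub]
    ring
  intro i
  simp only
  rw [hstep, hstep, hD.rel (E i) (E (π i)) (hπ i).symm]

/-- The total area form of a folding without holonomy. -/
theorem Folding.form_trivialC [NeZero M] (φ : Folding N S) (hP : IsSimplePolygon P)
    (hS : ∀ x, S.glue x ≠ x) (hnc : φ.NonCrossing) :
    ∀ D D', AdmC φ (fun _ => 1) D → AdmC φ (fun _ => 1) D' →
      baseFormC D D' + ∑ k, tauC N k (D k) (D' k) = 0 := by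
  obtain ⟨L, hL, E, π, hw, hE1, hE2, hπ, hfan⟩ := φ.exists_word hP hS hnc
  intro D D' hD hD'
  rw [← areaFormC_vtx N E hE1 hE2 D D' hD.sum hD'.sum]
  exact hw.area_trivialC _ _
    (compatC_vtx φ E hE1 hE2 π hπ (fun _ => 1) D hD)
    (compatC_vtx φ E hE1 hE2 π hπ (fun _ => 1) D' hD')

/-- The total area form of a folding of index one: two area-orthogonal admissible displacements
and all their complex multiples cannot both have positive area. -/
theorem Folding.form_index_one [NeZero M] (φ : Folding N S) (hP : IsSimplePolygon P)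
    (hS : ∀ x, S.glue x ≠ x) (hnc : φ.NonCrossing)
    (q : ℕ) (hq : 0 < q) (can : Fin (4 * q) → N.Tri × ZMod 3 → Prop)
    (hcan : ∀ v v' c c', can v c → can v' c' → φ.nu.SameCycle c c' → c = c')
    (hcan2 : ∀ v c c', can v c → can v c' → c = c')
    (ε H : N.Tri × ZMod 3 → ℂ) (g : ℂ) (hg : g * cis (Real.pi / q) = 1)
    (hε : ∀ e, ε (φ.pair e) * ε e = 1)
    (hε1 : ∀ e, N.adj e ≠ e → ε e = 1) (hH : ∀ e, H e ≠ 0)
    (hgood : ∀ e, (∀ v, ¬ can v e) → ε e * H e = H (φ.nu e))
    (hbad : ∀ e, (∃ v, can v e) → ε e * H e = H (φ.nu e) * g) :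
    ∃ ℓ : (ZMod M → ℝ →+ ℂ) → ℂ, (∀ D D', AdmC φ ε D → AdmC φ ε D' → ∀ a b : ℂ,
        ℓ (linComb a b D D') = a * ℓ D + b * ℓ D') ∧
      ∀ D, AdmC φ ε D → baseFormC D D + ∑ k, tauC N k (D k) (D k) ≤ ‖ℓ D‖ ^ 2 := by
  obtain ⟨L, hL, E, π, hw, hE1, hE2, hπ, hfan⟩ := φ.exists_word hP hS hnc
  have hb : ∀ x, N.adj (N.bdry x) = N.bdry x := by
    intro x
    have : N.bdry x ∈ Set.range N.bdry := ⟨x, rfl⟩
    rw [N.bdry_range] at this
    exact this
  obtain ⟨ℓ, hℓ⟩ := φ.index_one (fun i => N.bdry (E i))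
    (fun i j h => E.injective (N.bdry_inj h)) (fun i => hb _) π hw hπ hfan q hq can hcan hcan2 ε H
    g hg hε hε1 hH hgood hbad
  refine ⟨fun D => (Real.sqrt 2 : ℂ) * ℓ (vtxC N E D), ?_, ?_⟩
  · intro D D' hD hD' a b
    have h1 : vtxC N E (linComb a b D D') = a • vtxC N E D + b • vtxC N E D' := by
      funext i
      unfold vtxC offC
      simp only [linComb_apply, Pi.add_apply, Pi.smul_apply, smul_eq_mul]
      rw [Finset.sum_add_distrib, ← Finset.mul_sum, ← Finset.mul_sum]
      ring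
    simp only
    rw [h1, map_add, map_smul, map_smul]
    simp only [smul_eq_mul]
    ring
  · intro D hD
    rw [← areaFormC_vtx N E hE1 hE2 D D hD.sum hD.sum, polyArea_self]
    have h2 := hℓ _ (compatC_vtx φ E hE1 hE2 π hπ ε D hD)
    rw [norm_mul, mul_pow]
    have h3 : ‖(Real.sqrt 2 : ℂ)‖ ^ 2 = 2 := by
      rw [Complex.norm_real, Real.norm_eq_abs, sq_abs, Real.sq_sqrt (by norm_num)]
    rw [h3]
    linarith

end folding

end Pool.Agent.H69.Unfold
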