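import Pool.Agent.H69.FoldForm

set_option autoImplicit false

namespace Pool.Agent.H69.Unfold

open Complex

variable {M : ℕ} {P : ZMod M → ℂ} {N : Net P} {n : ℕ} {S : NGonSurface n}

/-- the vector of an edge -/
def Net.vec (N : Net P) (e : N.Tri × ZMod 3) : ℂ := N.pos e.1 (e.2 + 1) - N.pos e.1 e.2

lemma Net.vec_ne_zero (N : Net P) (e : N.Tri × ZMod 3) : N.vec e ≠ 0 :=
  sub_ne_zero.mpr (N.edge_ne e.1 e.2)

lemma Net.vec_bdry (N : Net P) (x : Σ k : ZMod M, Fin (N.m k)) :
    N.vec (N.bdry x) = N.len x * (P (x.1 + 1) - P x.1) := by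
  obtain ⟨k, j⟩ := x
  unfold Net.vec Net.len
  rw [N.bdry_start, N.bdry_stop]
  push_cast
  ring

/-- the vector of the image of an edge -/
def Folding.dloc (φ : Folding N S) (e : N.Tri × ZMod 3) : ℂ :=
  φ.loc e.1 (e.2 + 1) - φ.loc e.1 e.2

lemma Folding.vec_eq (φ : Folding N S) (e : N.Tri × ZMod 3) :
    N.vec e = φ.rot e.1 * φ.dloc e := by
  unfold Net.vec Folding.dloc
  rw [φ.pos_eq, φ.pos_eq]
  ring

lemma Folding.dloc_ne (φ : Folding N S) (e : N.Tri × ZMod 3) : φ.dloc e ≠ 0 := by
  intro h
  apply N.vec_ne_zero e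
  rw [φ.vec_eq, h, mul_zero]

lemma Folding.rot_ne (φ : Folding N S) (t : N.Tri) : φ.rot t ≠ 0 := by
  rw [← norm_ne_zero_iff, φ.norm_rot]
  exact φ.scale_pos.ne'

lemma Folding.vec_pair_inner (φ : Folding N S) (e : N.Tri × ZMod 3) (h : φ.side e = none) :
    N.vec (φ.pair e) = -(φ.rot (φ.pair e).1 * φ.dloc e) := by
  obtain ⟨_, _, h3, h4⟩ := φ.inner e h
  rw [φ.vec_eq]
  unfold Folding.dloc
  rw [h3, h4]
  ring

lemma Folding.vec_pair_outer (φ : Folding N S) (e : N.Tri × ZMod 3) (k : ZMod n)
    (h : φ.side e = some k) :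
    N.vec (φ.pair e) = φ.rot (φ.pair e).1 * ζ n ^ ((S.glue (φ.face e.1, k)).2 - k).val *
      φ.dloc e := by
  obtain ⟨_, _, h3, h4⟩ := φ.outer e k h
  rw [φ.vec_eq]
  unfold Folding.dloc
  rw [h3, h4, motion_eq, motion_eq k _ (φ.loc e.1 (e.2 + 1))]
  ring

lemma Folding.vec_pair_adj (φ : Folding N S) (e : N.Tri × ZMod 3) (h : N.adj e ≠ e) :
    N.vec (φ.pair e) = - N.vec e := by
  obtain ⟨h1, h2⟩ := N.adj_pos e h
  rw [φ.pair_adj e h]
  unfold Net.vec
  rw [h1, h2]
  ring

/-- Induction over the triangles of a folding. -/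
lemma Folding.rot_induct (φ : Folding N S) (Q : N.Tri → Prop) (t₀ : N.Tri) (h0 : Q t₀)
    (hin : ∀ a b, φ.face b = φ.face a → φ.rot b = φ.rot a → Q a → Q b)
    (hout : ∀ a b k, φ.face b = (S.glue (φ.face a, k)).1 →
      φ.rot b * ζ n ^ ((S.glue (φ.face a, k)).2 - k).val = -φ.rot a → Q a → Q b) (t : N.Tri) :
    Q t := by
  induction N.conn t₀ t with
  | refl => exact h0
  | @tail a b _ hab ih =>
    obtain ⟨i, j, hij⟩ := hab
    by_cases hfix : N.adj (a, i) = (a, i)
    · have : b = a := by
        rw [hij] at hfix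
        exact congrArg Prod.fst hfix
      subst this
      exact ih
    have hv := φ.vec_pair_adj (a, i) hfix
    have hpair := φ.pair_adj (a, i) hfix
    rw [hij] at hpair
    have hd := φ.dloc_ne (a, i)
    rcases hs : φ.side (a, i) with _ | k
    · have h1 := φ.vec_pair_inner (a, i) hs
      obtain ⟨_, h2, _, _⟩ := φ.inner (a, i) hs
      rw [hpair] at h1 h2 hv
      rw [hv, φ.vec_eq (a, i)] at h1
      apply hin a b h2 _ ih
      have h3 : (φ.rot b - φ.rot a) * φ.dloc (a, i) = 0 := by
        simp only at h1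
        linear_combination h1
      rcases mul_eq_zero.mp h3 with h | h
      · exact sub_eq_zero.mp h
      · exact absurd h hd
    · have h1 := φ.vec_pair_outer (a, i) k hs
      obtain ⟨_, h2, _, _⟩ := φ.outer (a, i) k hs
      rw [hpair] at h1 h2 hv
      rw [hv, φ.vec_eq (a, i)] at h1
      apply hout a b k h2 _ ih
      simp only at h1
      have h3 : (φ.rot b * ζ n ^ ((S.glue (φ.face a, k)).2 - k).val + φ.rot a) *
          φ.dloc (a, i) = 0 := by
        linear_combination -h1
      rcases mul_eq_zero.mp h3 with h | h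
      · linear_combination h
      · exact absurd h hd

/-! ### The tetrahedron and the octahedron -/

/-- The gluing of the faces of the tetrahedron. -/
def tetraGlue (x : Option (ZMod 3) × ZMod 3) : Option (ZMod 3) × ZMod 3 :=
  match x with
  | (none, k) => (some k, 0)
  | (some k, 0) => (none, k)
  | (some k, 1) => (some (k - 1), 2)
  | (some k, 2) => (some (k + 1), 1)

/-- The surface of the regular tetrahedron: the face `none` and, for every side `k` of it, the
face `some k`, which lies on the other side of this side. Side `0` of the face `some k` is glued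
to side `k` of the face `none`, side `2` of the face `some k` to side `1` of the face
`some (k+1)`. -/
def tetra : NGonSurface 3 where
  Face := Option (ZMod 3)
  glue := tetraGlue
  glue_glue := by decide

/-- change of sign of coordinate number `a` -/
def flipAt (s : Bool × Bool × Bool) (a : ZMod 3) : Bool × Bool × Bool :=
  match a with
  | 0 => (!s.1, s.2.1, s.2.2)
  | 1 => (s.1, !s.2.1, s.2.2)
  | 2 => (s.1, s.2.1, !s.2.2)

/-- the parity of a face of the octahedron -/
def octParity (s : Bool × Bool × Bool) : Bool := xor s.1 (xor s.2.1 s.2.2)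

/-- The gluing of the faces of the octahedron. -/
def octaGlue (x : (Bool × Bool × Bool) × ZMod 3) : (Bool × Bool × Bool) × ZMod 3 :=
  (flipAt x.1 (if octParity x.1 then -x.2 else x.2), -x.2)

/-- The surface of the regular octahedron with the vertices `± e_0`, `± e_1`, `± e_2`: its faces
are the sign vectors `s` (the face `s` has the vertices `s_0 e_0`, `s_1 e_1`, `s_2 e_2`). Side
`k` of the face `s` is opposite to the vertex `s_k e_k` if `s` is even and to the vertex
`s_{-k} e_{-k}` if `s` is odd. -/
def octa : NGonSurface 3 where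
  Face := Bool × Bool × Bool
  glue := octaGlue
  glue_glue := by decide

lemma tetra_card : Fintype.card tetra.Face = 4 := by decide

lemma octa_card : Fintype.card octa.Face = 8 := by decide

lemma tetraGlue_ne : ∀ x, tetraGlue x ≠ x := by decide

lemma octaGlue_ne : ∀ x, octaGlue x ≠ x := by decide

lemma tetra_glue_ne (x) : tetra.glue x ≠ x := tetraGlue_ne x

lemma octa_glue_ne (x) : octa.glue x ≠ x := octaGlue_ne x

lemma octaGlue_parity : ∀ x, octParity (octaGlue x).1 = !octParity x.1 := by decide

/-- The vertex of the octahedron (axis and sign) at corner `j` of the face `s`. -/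
def octaVertex (s : Bool × Bool × Bool) (j : ZMod 3) : ZMod 3 × Bool :=
  let a := if octParity s then 2 - j else j + 1
  (a, match a with
    | 0 => s.1
    | 1 => s.2.1
    | 2 => s.2.2)

/-- Glued sides of the octahedron have the same end points. -/
lemma octaGlue_vertex : ∀ x, octaVertex (octaGlue x).1 (octaGlue x).2 = octaVertex x.1 (x.2 + 1) ∧
    octaVertex (octaGlue x).1 ((octaGlue x).2 + 1) = octaVertex x.1 x.2 := by decide

/-- The vertex of the tetrahedron at corner `j` of a face; vertex `none` is the vertex opposite to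
the face `none`, vertex `some k` is corner `k` of the face `none`. -/
def tetraVertex (f : Option (ZMod 3)) (j : ZMod 3) : Option (ZMod 3) :=
  match f with
  | none => some j
  | some k => if j = 2 then none else some (k + 1 - j)

/-- Glued sides of the tetrahedron have the same end points. -/
lemma tetraGlue_vertex : ∀ x, tetraVertex (tetraGlue x).1 (tetraGlue x).2 =
      tetraVertex x.1 (x.2 + 1) ∧
    tetraVertex (tetraGlue x).1 ((tetraGlue x).2 + 1) = tetraVertex x.1 x.2 := by decide

end Pool.Agent.H69.Unfold
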