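import Pool.Agent.H69.StarCyclic
import Pool.Agent.H69.FoldForm

set_option autoImplicit false

namespace Pool.Agent.H69.Unfold

open Complex

section cycles

variable {A : Type*} (ν : Equiv.Perm A)

/-- Telescoping of phases along an orbit. -/
lemma orbit_prod (can : A → Prop) [DecidablePred can] (ε H : A → ℂ) (g : ℂ)
    (hε : ∀ e, ε e * H e = H (ν e) * (if can e then g else 1)) (e₀ : A) (m : ℕ) :
    (∏ j ∈ Finset.range m, ε ((ν ^ j) e₀)) * H e₀ =
      H ((ν ^ m) e₀) * g ^ ((Finset.range m).filter (fun j => can ((ν ^ j) e₀))).card := by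
  induction m with
  | zero => simp
  | succ m ih =>
    rw [Finset.prod_range_succ, Finset.range_add_one, Finset.filter_insert]
    have h1 := hε ((ν ^ m) e₀)
    have h2 : ν ((ν ^ m) e₀) = (ν ^ (m + 1)) e₀ := by
      rw [← Equiv.Perm.mul_apply, ← pow_succ']
    rw [h2] at h1
    split_ifs with hc
    · rw [if_pos hc] at h1
      rw [Finset.card_insert_of_notMem (by simp), pow_succ]
      calc (∏ j ∈ Finset.range m, ε ((ν ^ j) e₀)) * ε ((ν ^ m) e₀) * H e₀
          = ((∏ j ∈ Finset.range m, ε ((ν ^ j) e₀)) * H e₀) * ε ((ν ^ m) e₀) := by ring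
        _ = (ε ((ν ^ m) e₀) * H ((ν ^ m) e₀)) *
              g ^ ((Finset.range m).filter (fun j => can ((ν ^ j) e₀))).card := by
            rw [ih]; ring
        _ = _ := by
            rw [h1, mul_assoc]
            congr 1
            exact mul_comm _ _
    · rw [if_neg hc, mul_one] at h1
      calc (∏ j ∈ Finset.range m, ε ((ν ^ j) e₀)) * ε ((ν ^ m) e₀) * H e₀
          = ((∏ j ∈ Finset.range m, ε ((ν ^ j) e₀)) * H e₀) * ε ((ν ^ m) e₀) := by ring
        _ = (ε ((ν ^ m) e₀) * H ((ν ^ m) e₀)) *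
              g ^ ((Finset.range m).filter (fun j => can ((ν ^ j) e₀))).card := by
            rw [ih]; ring
        _ = _ := by rw [h1]

/-- The holonomy of a cycle. -/
lemma orbit_hol [Finite A] (can : A → Prop) [DecidablePred can]
    (hcan : ∀ c c', can c → can c' → ν.SameCycle c c' → c = c') (ε H : A → ℂ) (g : ℂ)
    (hH : ∀ e, H e ≠ 0)
    (hε : ∀ e, ε e * H e = H (ν e) * (if can e then g else 1)) (e₀ : A) (m : ℕ) (hm : 0 < m)
    (hcyc : (ν ^ m) e₀ = e₀) (hmin : ∀ j, 0 < j → j < m → (ν ^ j) e₀ ≠ e₀) :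
    ((∃ c, can c ∧ ν.SameCycle e₀ c) → ∏ j ∈ Finset.range m, ε ((ν ^ j) e₀) = g) ∧
    (¬ (∃ c, can c ∧ ν.SameCycle e₀ c) → ∏ j ∈ Finset.range m, ε ((ν ^ j) e₀) = 1) := by
  have h1 := orbit_prod ν can ε H g hε e₀ m
  rw [hcyc, mul_comm (H e₀)] at h1
  have h2 := mul_right_cancel₀ (hH e₀) h1
  rw [h2]
  have hinj : ∀ i j, i < m → j < m → (ν ^ i) e₀ = (ν ^ j) e₀ → i = j := by
    have key : ∀ i j, i < j → j < m → (ν ^ i) e₀ ≠ (ν ^ j) e₀ := by
      intro i j hij hj h
      apply hmin (j - i) (by omega) (by omega)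
      have h3 : (ν ^ j) e₀ = (ν ^ i) ((ν ^ (j - i)) e₀) := by
        rw [← Equiv.Perm.mul_apply, ← pow_add]
        congr 2
        omega
      rw [h3] at h
      exact ((ν ^ i).injective h).symm
    intro i j hi hj h
    rcases lt_trichotomy i j with h3 | h3 | h3
    · exact absurd h (key i j h3 hj)
    · exact h3
    · exact absurd h.symm (key j i h3 hi)
  constructor
  · rintro ⟨c, hc, hs⟩
    obtain ⟨k, hk⟩ := hs.exists_nat_pow_eq
    have hmod : (ν ^ (k % m)) e₀ = c := by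
      rw [← hk]
      conv_rhs => rw [← Nat.mod_add_div k m]
      rw [pow_add, Equiv.Perm.mul_apply, pow_mul]
      congr 1
      have : ∀ t : ℕ, ((ν ^ m) ^ t) e₀ = e₀ := by
        intro t
        induction t with
        | zero => rfl
        | succ t ih => rw [pow_succ, Equiv.Perm.mul_apply, hcyc, ih]
      rw [this]
    have hset : (Finset.range m).filter (fun j => can ((ν ^ j) e₀)) = {k % m} := by
      ext j
      rw [Finset.mem_filter, Finset.mem_range, Finset.mem_singleton]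
      constructor
      · rintro ⟨hj, hcj⟩
        apply hinj j (k % m) hj (Nat.mod_lt _ hm)
        rw [hmod]
        apply hcan _ _ hcj hc
        have h5 : ν.SameCycle e₀ ((ν ^ j) e₀) := ⟨(j : ℤ), by rw [zpow_natCast]⟩
        exact h5.symm.trans hs
      · rintro rfl
        refine ⟨Nat.mod_lt _ hm, ?_⟩
        rw [hmod]
        exact hc
    rw [hset, Finset.card_singleton, pow_one]
  · intro hno
    have hset : (Finset.range m).filter (fun j => can ((ν ^ j) e₀)) = ∅ := by
      rw [Finset.filter_eq_empty_iff]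
      intro j _ hcj
      exact hno ⟨_, hcj, ⟨(j : ℤ), by rw [zpow_natCast]⟩⟩
    rw [hset, Finset.card_empty, pow_zero]

end cycles

variable {M : ℕ} {P : ZMod M → ℂ} {N : Net P} {n : ℕ} {S : NGonSurface n}

/-- The walk around a vertex class and the boundary word. -/
lemma Folding.walk (φ : Folding N S) {L : ℕ} (b : ZMod L → N.Tri × ZMod 3)
    (π : ZMod L → ZMod L)
    (hfan : ∀ i, ∃ m : ℕ, (φ.nu ^ (m + 1)) (b i) = b (π i + 1) ∧
        ∀ m' < m, N.adj ((φ.nu ^ (m' + 1)) (b i)) ≠ (φ.nu ^ (m' + 1)) (b i))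
    (ε : N.Tri × ZMod 3 → ℂ) (hε1 : ∀ e, N.adj e ≠ e → ε e = 1) (i : ZMod L) (Q : ℕ) :
    ∃ m : ℕ, (φ.nu ^ m) (b i) = b ((fun x => π x + 1)^[Q] i) ∧
      ∏ j ∈ Finset.range m, ε ((φ.nu ^ j) (b i)) =
        ∏ j ∈ Finset.range Q, ε (b ((fun x => π x + 1)^[j] i)) ∧
      (∀ m' < m, N.adj ((φ.nu ^ m') (b i)) = (φ.nu ^ m') (b i) →
        ∃ j < Q, (φ.nu ^ m') (b i) = b ((fun x => π x + 1)^[j] i) ∧ (j = 0 → m' = 0)) ∧
      (Q = 0 ↔ m = 0) := by
  induction Q with
  | zero => exact ⟨0, rfl, rfl, fun m' hm' => by omega, by simp⟩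
  | succ Q ih =>
    obtain ⟨m, h1, h2, h3, h4⟩ := ih
    obtain ⟨s, hs1, hs2⟩ := hfan ((fun x => π x + 1)^[Q] i)
    have hadd : ∀ t, (φ.nu ^ (m + t)) (b i) = (φ.nu ^ t) (b ((fun x => π x + 1)^[Q] i)) := by
      intro t
      rw [add_comm, pow_add, Equiv.Perm.mul_apply, h1]
    refine ⟨m + (s + 1), ?_, ?_, ?_, ?_⟩
    · rw [hadd, hs1, Function.iterate_succ_apply']
    · rw [Finset.prod_range_add, h2, Finset.prod_range_succ (n := Q)]
      congr 1
      rw [Finset.prod_range_succ']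
      simp_rw [hadd]
      rw [Finset.prod_eq_one, one_mul, pow_zero]
      · rfl
      · intro j hj
        rw [Finset.mem_range] at hj
        exact hε1 _ (hs2 j hj)
    · intro m' hm' hadj
      rcases Nat.lt_or_ge m' m with h5 | h5
      · obtain ⟨j, hj1, hj2, hj3⟩ := h3 m' h5 hadj
        exact ⟨j, by omega, hj2, hj3⟩
      · obtain ⟨t, rfl⟩ : ∃ t, m' = m + t := ⟨m' - m, by omega⟩
        rcases Nat.eq_zero_or_pos t with h6 | h6
        · subst h6
          refine ⟨Q, by omega, ?_, ?_⟩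
          · rw [hadd]
            rfl
          · intro hQ
            rw [add_zero]
            exact h4.mp hQ
        · obtain ⟨t', rfl⟩ : ∃ t', t = t' + 1 := ⟨t - 1, by omega⟩
          exfalso
          rw [hadd] at hadj
          exact hs2 t' (by omega) hadj
    · omega

/-- The word theorem for a folding whose holonomy is carried by at most `4 q` vertex classes,
with holonomy `cis (- π / q)` each. -/
theorem Folding.index_one (φ : Folding N S) {L : ℕ} [NeZero L]
    (b : ZMod L → N.Tri × ZMod 3) (hbinj : Function.Injective b)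
    (hb : ∀ i, N.adj (b i) = b i) (π : ZMod L → ZMod L) (hw : CWord L π)
    (hπ : ∀ i, b (π i) = φ.pair (b i))
    (hfan : ∀ i, ∃ m : ℕ, (φ.nu ^ (m + 1)) (b i) = b (π i + 1) ∧
        ∀ m' < m, N.adj ((φ.nu ^ (m' + 1)) (b i)) ≠ (φ.nu ^ (m' + 1)) (b i))
    (q : ℕ) (hq : 0 < q) (can : Fin (4 * q) → N.Tri × ZMod 3 → Prop)
    (hcan : ∀ v v' c c', can v c → can v' c' → φ.nu.SameCycle c c' → c = c')
    (hcan2 : ∀ v c c', can v c → can v c' → c = c')
    (ε H : N.Tri × ZMod 3 → ℂ) (g : ℂ) (hg : g * cis (Real.pi / q) = 1)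
    (hε : ∀ e, ε (φ.pair e) * ε e = 1)
    (hε1 : ∀ e, N.adj e ≠ e → ε e = 1) (hH : ∀ e, H e ≠ 0)
    (hgood : ∀ e, (∀ v, ¬ can v e) → ε e * H e = H (φ.nu e))
    (hbad : ∀ e, (∃ v, can v e) → ε e * H e = H (φ.nu e) * g) :
    ∃ ℓ : (ZMod L → ℂ) →ₗ[ℂ] ℂ, ∀ F, CompatC π (fun i => ε (b i)) F →
      polyArea F ≤ ‖ℓ F‖ ^ 2 := by
  classical
  refine hw.index_one q hq (fun i => ε (b i)) (fun v i => ∃ c, can v c ∧ φ.nu.SameCycle (b i) c)
    ?_ ?_ ?_
  · intro i
    rw [hπ]
    exact hε _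
  · rintro v i j ⟨c, hc, hs⟩ ⟨c', hc', hs'⟩
    have hcc := hcan2 v c c' hc hc'
    subst hcc
    have h1 : φ.nu.SameCycle (b i) (b j) := hs.trans hs'.symm
    obtain ⟨k, hk⟩ := h1.exists_nat_pow_eq
    clear hs h1
    induction k using Nat.strong_induction_on generalizing i with
    | _ k ih =>
      rcases Nat.eq_zero_or_pos k with h0 | h0
      · subst h0
        exact ⟨0, hbinj hk⟩
      · obtain ⟨m, hm, hm2⟩ := hfan i
        have hkm : m + 1 ≤ k := by
          by_contra hlt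
          obtain ⟨k', rfl⟩ : ∃ k', k = k' + 1 := ⟨k - 1, by omega⟩
          apply hm2 k' (by omega)
          rw [hk]
          exact hb j
        obtain ⟨k', rfl⟩ : ∃ k', k = k' + (m + 1) := ⟨k - (m + 1), by omega⟩
        rw [pow_add, Equiv.Perm.mul_apply, hm] at hk
        obtain ⟨q, hq⟩ := ih k' (by omega) (π i + 1) hk
        refine ⟨q + 1, ?_⟩
        rw [Function.iterate_succ_apply]
        exact hq
  · intro i Q hQ hcyc hmin
    obtain ⟨m, h1, h2, h3, h4⟩ := φ.walk b π hfan ε hε1 i Q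
    rw [hcyc] at h1
    have hm : 0 < m := by
      rcases Nat.eq_zero_or_pos m with h5 | h5
      · have := h4.mpr h5
        omega
      · exact h5
    have h5 := orbit_hol φ.nu (fun e => ∃ v, can v e)
      (by
        rintro c c' ⟨v, hc⟩ ⟨v', hc'⟩ hs
        exact hcan v v' c c' hc hc' hs) ε H g hH
      (by
        intro e
        split_ifs with hc
        · exact hbad e hc
        · rw [mul_one]
          apply hgood
          intro v hv
          exact hc ⟨v, hv⟩)
      (b i) m hm h1 (by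
        intro j hj0 hjm hj
        obtain ⟨j', hj1, hj2, hj3⟩ := h3 j hjm (by rw [hj]; exact hb i)
        rw [hj] at hj2
        have h6 : (fun x => π x + 1)^[j'] i = i := (hbinj hj2).symm
        rcases Nat.eq_zero_or_pos j' with h7 | h7
        · have := hj3 h7
          omega
        · exact hmin j' h7 hj1 h6)
    rw [h2] at h5
    constructor
    · rintro ⟨v, c, hc, hs⟩
      rw [h5.1 ⟨c, ⟨v, hc⟩, hs⟩, hg]
    · intro hno
      apply h5.2
      rintro ⟨c, ⟨v, hc⟩, hs⟩
      exact hno ⟨v, c, hc, hs⟩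

end Pool.Agent.H69.Unfold
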