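import Pool.Agent.H69.FoldTetra

set_option autoImplicit false

namespace Pool.Agent.H69.Unfold

open Complex

variable {M : ℕ} {P : ZMod M → ℂ} {N : Net P}

/-! ### The octahedron -/

/-- the colour of a face of the octahedron -/
def octCol (s : Bool × Bool × Bool) : ℝ := if octParity s then -1 else 1

lemma octCol_sq (s : Bool × Bool × Bool) : octCol s * octCol s = 1 := by
  unfold octCol
  split_ifs <;> norm_num

lemma octCol_glue (x : (Bool × Bool × Bool) × ZMod 3) : octCol (octaGlue x).1 = - octCol x.1 := by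
  unfold octCol
  rw [octaGlue_parity]
  cases octParity x.1 <;> simp

lemma ζ_three_cube (j : ℕ) : (ζ 3 ^ j) ^ 3 = 1 := by
  have h : IsPrimitiveRoot (ζ 3) 3 := ζ_primitive (by norm_num)
  rw [← pow_mul, mul_comm, pow_mul, h.pow_eq_one, one_pow]

/-- In a folding to the octahedron the vectors of glued edges differ by a cube root of `-1`. -/
theorem octa_vec (φ : Folding N octa) (t₀ : N.Tri) (e : N.Tri × ZMod 3) :
    ∃ ρ : ℂ, ρ ^ 3 = 1 ∧ N.vec (φ.pair e) = -(ρ * N.vec e) := by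
  set R := φ.rot t₀ / octCol (φ.face t₀) with hR
  have hcol0 : ∀ s, (octCol s : ℂ) ≠ 0 := by
    intro s h
    have h1 : octCol s = 0 := by exact_mod_cast h
    have := octCol_sq s
    rw [h1] at this
    norm_num at this
  have hcol1 : ∀ s, (octCol s : ℂ) * octCol s = 1 := by
    intro s
    exact_mod_cast octCol_sq s
  have hσ : ∀ t, ∃ ρ : ℂ, ρ ^ 3 = 1 ∧ φ.rot t = octCol (φ.face t) * ρ * R := by
    intro t
    refine φ.rot_induct (fun t => ∃ ρ : ℂ, ρ ^ 3 = 1 ∧
      φ.rot t = octCol (φ.face t) * ρ * R) t₀ ?_ ?_ ?_ t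
    · refine ⟨1, by norm_num, ?_⟩
      rw [hR]
      have := hcol0 (φ.face t₀)
      field_simp
    · rintro a b h1 h2 ⟨ρ, h3, h4⟩
      exact ⟨ρ, h3, by rw [h2, h1, h4]⟩
    · rintro a b k h1 h2 ⟨ρ, h3, h4⟩
      have h5 := octCol_glue (φ.face a, k)
      change φ.face b = (octaGlue (φ.face a, k)).1 at h1
      change φ.rot b * ζ 3 ^ ((octaGlue (φ.face a, k)).2 - k).val = -φ.rot a at h2
      rw [← h1] at h5
      simp only at h5
      set j := ((octaGlue (φ.face a, k)).2 - k).val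
      have hr3 := ζ_three_cube j
      set r := ζ 3 ^ j
      have hr : r ≠ 0 := pow_ne_zero _ ((ζ_primitive (n := 3) (by norm_num)).ne_zero (by norm_num))
      refine ⟨ρ * r ^ 2, ?_, ?_⟩
      · rw [mul_pow, h3, ← pow_mul, mul_comm 2 3, pow_mul, hr3]
        norm_num
      · apply mul_right_cancel₀ hr
        rw [h2, h4, h5]
        push_cast
        linear_combination ((octCol (φ.face a) : ℂ) * ρ * R) * hr3
  choose σ hσ1 hσ2 using hσ
  have hσ0 : ∀ t, σ t ≠ 0 := by
    intro t h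
    have := hσ1 t
    rw [h] at this
    norm_num at this
  rcases h : φ.side e with _ | k
  · obtain ⟨_, h2, _, _⟩ := φ.inner e h
    refine ⟨σ (φ.pair e).1 / σ e.1, ?_, ?_⟩
    · rw [div_pow, hσ1, hσ1, div_one]
    · rw [φ.vec_pair_inner e h, φ.vec_eq e, hσ2, hσ2 e.1, h2]
      have := hσ0 e.1
      field_simp
  · obtain ⟨_, h2, _, _⟩ := φ.outer e k h
    have h5 := octCol_glue (φ.face e.1, k)
    simp only at h5
    have hr3 := ζ_three_cube ((octaGlue (φ.face e.1, k)).2 - k).val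
    refine ⟨σ (φ.pair e).1 * ζ 3 ^ ((octaGlue (φ.face e.1, k)).2 - k).val / σ e.1, ?_, ?_⟩
    · rw [div_pow, mul_pow, hσ1, hσ1, hr3]
      norm_num
    · rw [φ.vec_pair_outer e k h, φ.vec_eq e, hσ2, hσ2 e.1, h2]
      change (octCol (octaGlue (φ.face e.1, k)).1 : ℂ) * σ (φ.pair e).1 * R *
        ζ 3 ^ ((octaGlue (φ.face e.1, k)).2 - k).val * φ.dloc e = _
      rw [h5]
      have := hσ0 e.1
      push_cast
      field_simp

/-! ### The weights of a class -/

/-- the signed length of side `k` in the unit of side `κ` -/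
noncomputable def wt (P : ZMod M → ℂ) (κ k : ZMod M) : ℝ :=
  sl ((P (k + 1) - P k) / (P (κ + 1) - P κ))

lemma wt_rel (κ : ZMod M) (x y : Σ k : ZMod M, Fin (N.m k)) (ρ : ℂ) (hρ : ρ ^ 3 = 1) (ε : ℝ)
    (h : N.vec (N.bdry y) = -(ρ * ε * N.vec (N.bdry x))) :
    N.len y * wt P κ y.1 = -(ε * (N.len x * wt P κ x.1)) := by
  unfold wt
  rw [← sl_real_mul, ← sl_real_mul]
  rw [N.vec_bdry, N.vec_bdry] at h
  have h1 : (N.len y : ℂ) * ((P (y.1 + 1) - P y.1) / (P (κ + 1) - P κ)) =
      ρ * (((-ε : ℝ) : ℂ) * ((N.len x : ℂ) * ((P (x.1 + 1) - P x.1) / (P (κ + 1) - P κ)))) := by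
    rw [← mul_div_assoc, h]
    push_cast
    ring
  rw [h1, sl_root_mul hρ, sl_real_mul]
  ring

lemma wt_sum [NeZero M] (φ : Folding N octa) (t₀ : N.Tri) (κ : ZMod M) :
    ∑ k, wt P κ k = 0 := by
  have hb : ∀ x, N.adj (N.bdry x) = N.bdry x := by
    intro x
    have : N.bdry x ∈ Set.range N.bdry := ⟨x, rfl⟩
    rw [N.bdry_range] at this
    exact this
  have hpair : ∀ x, ∃ y, N.bdry y = φ.pair (N.bdry x) := by
    intro x
    have h1 := φ.pair_bdry _ (hb x)
    have h2 : φ.pair (N.bdry x) ∈ Set.range N.bdry := by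
      rw [N.bdry_range]
      exact h1
    exact h2
  choose g hg using hpair
  have hinv : Function.Involutive g := by
    intro x
    apply N.bdry_inj
    rw [hg, hg, φ.pair_pair]
  have h1 : ∑ k, wt P κ k = ∑ x : Σ k : ZMod M, Fin (N.m k), N.len x * wt P κ x.1 := by
    rw [Fintype.sum_sigma]
    apply Finset.sum_congr rfl
    intro k _
    simp only
    rw [← Finset.sum_mul]
    have h2 : ∑ j : Fin (N.m k), N.len ⟨k, j⟩ = 1 := by
      unfold Net.len
      rw [Fin.sum_univ_eq_sum_range (fun j => N.cut k (j + 1) - N.cut k j) (N.m k),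
        Finset.sum_range_sub (N.cut k), N.cut_last, N.cut_zero, sub_zero]
    rw [h2, one_mul]
  rw [h1]
  have h2 : ∑ x : Σ k : ZMod M, Fin (N.m k), N.len (g x) * wt P κ (g x).1 =
      ∑ x : Σ k : ZMod M, Fin (N.m k), N.len x * wt P κ x.1 :=
    Equiv.sum_comp (hinv.toPerm g) (fun x => N.len x * wt P κ x.1)
  have h3 : ∑ x : Σ k : ZMod M, Fin (N.m k), N.len (g x) * wt P κ (g x).1 =
      -∑ x : Σ k : ZMod M, Fin (N.m k), N.len x * wt P κ x.1 := by
    rw [← Finset.sum_neg_distrib]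
    apply Finset.sum_congr rfl
    intro x _
    obtain ⟨ρ, hρ, hv⟩ := octa_vec φ t₀ (N.bdry x)
    rw [← hg x] at hv
    have := wt_rel κ x (g x) ρ hρ 1 (by rw [hv]; push_cast; ring)
    rw [this, one_mul]
  linarith

end Pool.Agent.H69.Unfold
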