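import Pool.Agent.H69.FoldWord

set_option autoImplicit false

namespace Pool.Agent.H69.Unfold

variable {M : ℕ} {P : ZMod M → ℂ} {N : Net P} {n : ℕ} {S : NGonSurface n}

/-- The word theorem for a folding whose holonomy is `±1` and is carried by at most four vertex
classes. -/
theorem Folding.rank_two (φ : Folding N S) {L : ℕ} [NeZero L]
    (b : ZMod L → N.Tri × ZMod 3) (hbinj : Function.Injective b)
    (hb : ∀ i, N.adj (b i) = b i) (π : ZMod L → ZMod L) (hw : CWord L π)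
    (hπ : ∀ i, b (π i) = φ.pair (b i))
    (hfan : ∀ i, ∃ m : ℕ, (φ.nu ^ (m + 1)) (b i) = b (π i + 1) ∧
        ∀ m' < m, N.adj ((φ.nu ^ (m' + 1)) (b i)) ≠ (φ.nu ^ (m' + 1)) (b i))
    (can : Fin 4 → N.Tri × ZMod 3 → Prop) (hcan : ∀ v c c', can v c → can v c' → c = c')
    (ε H : N.Tri × ZMod 3 → ℝ) (hε : ∀ e, ε (φ.pair e) = ε e) (hε2 : ∀ e, ε e * ε e = 1)
    (hε1 : ∀ e, N.adj e ≠ e → ε e = 1) (hH : ∀ e, H e * H e = 1)
    (hgood : ∀ e, (∀ v, ¬ can v e) → ε e = H e * H (φ.nu e)) :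
    ∃ a b' c : ZMod L, ∀ F G : ZMod L → ℝ, Compat π (fun i => ε (b i)) F →
      Compat π (fun i => ε (b i)) G → F a = F c → F b' = F c → areaForm F G = 0 := by
  classical
  refine hw.rank_two (fun i => ε (b i)) (fun i => H (b i))
    (fun v i => ∃ c, can v c ∧ φ.nu.SameCycle (b i) c) ?_ ?_ ?_ ?_ ?_ ?_
  · intro i
    rw [hπ, hε]
  · intro i
    exact hε2 _
  · intro i
    exact hH _
  · intro v i
    obtain ⟨m, hm, _⟩ := hfan i
    have h1 : φ.nu.SameCycle (b i) (b (π i + 1)) := ⟨((m + 1 : ℕ) : ℤ), by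
      rw [zpow_natCast, hm]⟩
    constructor
    · rintro ⟨c, hc, hs⟩
      exact ⟨c, hc, h1.symm.trans hs⟩
    · rintro ⟨c, hc, hs⟩
      exact ⟨c, hc, h1.trans hs⟩
  · rintro v i j ⟨c, hc, hs⟩ ⟨c', hc', hs'⟩
    have hcc := hcan v c c' hc hc'
    subst hcc
    have h1 : φ.nu.SameCycle (b i) (b j) := hs.trans hs'.symm
    obtain ⟨k, hk⟩ := h1.exists_nat_pow_eq
    clear hs h1
    induction k using Nat.strong_induction_on generalizing i with
    | _ k ih =>
      rcases Nat.eq_zero_or_pos k with h0 | h0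
      · subst h0
        exact ⟨0, hbinj hk⟩
      · obtain ⟨m, hm, hm2⟩ := hfan i
        have hkm : m + 1 ≤ k := by
          by_contra hlt
          obtain ⟨k', rfl⟩ : ∃ k', k = k' + 1 := ⟨k - 1, by omega⟩
          apply hm2 k' (by omega)
          rw [hk]
          exact hb j
        obtain ⟨k', rfl⟩ : ∃ k', k = k' + (m + 1) := ⟨k - (m + 1), by omega⟩
        rw [pow_add, Equiv.Perm.mul_apply, hm] at hk
        obtain ⟨q, hq⟩ := ih k' (by omega) (π i + 1) hk
        refine ⟨q + 1, ?_⟩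
        rw [Function.iterate_succ_apply]
        exact hq
  · intro i hi
    have hnc : ∀ m : ℕ, ∀ v, ¬ can v ((φ.nu ^ m) (b i)) := by
      intro m v hv
      refine hi v ⟨_, hv, ⟨(m : ℤ), ?_⟩⟩
      rw [zpow_natCast]
    obtain ⟨m, hm, hm2⟩ := hfan i
    have h1 := hgood _ (hnc 0)
    have h2 : ∀ m' ≤ m, H ((φ.nu ^ (m' + 1)) (b i)) = H (φ.nu (b i)) := by
      intro m'
      induction m' with
      | zero => intro _; simp
      | succ m' ih =>
        intro hm'
        have h3 := hgood _ (hnc (m' + 1))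
        rw [hε1 _ (hm2 m' (by omega)), ← Equiv.Perm.mul_apply, ← pow_succ'] at h3
        have h4 := ih (by omega)
        have h5 := hH ((φ.nu ^ (m' + 1)) (b i))
        have h6 := hH ((φ.nu ^ (m' + 1 + 1)) (b i))
        rw [← h4]
        calc H ((φ.nu ^ (m' + 1 + 1)) (b i)) = 1 * H ((φ.nu ^ (m' + 1 + 1)) (b i)) := by ring
          _ = H ((φ.nu ^ (m' + 1)) (b i)) * (H ((φ.nu ^ (m' + 1 + 1)) (b i)) *
                H ((φ.nu ^ (m' + 1 + 1)) (b i))) := by rw [h3]; ring
          _ = H ((φ.nu ^ (m' + 1)) (b i)) := by rw [h6, mul_one]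
    have h3 := h2 m le_rfl
    rw [hm] at h3
    simp only [pow_zero, Equiv.Perm.coe_one, id_eq] at h1
    rw [h1, ← h3]

/-- The word theorem for a folding without holonomy. -/
theorem CWord.area_trivial {L : ℕ} [NeZero L] {π : ZMod L → ZMod L} (hw : CWord L π)
    (F G : ZMod L → ℝ) (hF : Compat π (fun _ => 1) F) (hG : Compat π (fun _ => 1) G) :
    areaForm F G = 0 := by
  have hp := hw.pword 0
  unfold areaForm
  rw [sum_zmod 0]
  have hcast : ∀ m : ℕ, (0 : ZMod L) + ((m : ZMod L)) + 1 = 0 + ((m + 1 : ℕ) : ZMod L) := by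
    intro m
    push_cast
    ring
  simp only [hcast]
  have hcompat : ∀ f : ZMod L → ℝ, Compat π (fun _ => 1) f → ∀ i : ℕ,
      f (0 + ((CWord.shift π 0 i + 1 : ℕ) : ZMod L)) - f (0 + (CWord.shift π 0 i : ZMod L)) =
      -(1 * (f (0 + ((i + 1 : ℕ) : ZMod L)) - f (0 + i))) := by
    intro f hf i
    rw [← hcast, CWord.add_shift (π := π), ← hcast i]
    exact hf (0 + i)
  have hn : ∀ f : ZMod L → ℝ, f (0 + ((L : ℕ) : ZMod L)) = f (0 + ((0 : ℕ) : ZMod L)) := by
    intro f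
    rw [ZMod.natCast_self, Nat.cast_zero]
  have hequi := hp.equivariant (fun _ => 1) (fun _ => 1) (fun m => F (0 + m)) (fun _ => False)
    (fun _ _ => rfl) (fun _ _ => by norm_num) (fun _ => by norm_num) (fun _ _ => Iff.rfl)
    (fun _ _ _ => by norm_num) (fun i _ => hcompat F hF i) (fun _ _ _ h => h.elim)
  exact hp.area_zero (fun _ => 1) (fun m => F (0 + m)) (fun m => G (0 + m))
    (fun _ _ => by norm_num) hequi (fun i _ => hcompat G hG i) (hn F) (hn G)

end Pool.Agent.H69.Unfold
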