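import Pool.Agent.H69.FoldGeom

set_option autoImplicit false

namespace Pool.Agent.H69.Unfold

open Complex

variable {M : ℕ} {P : ZMod M → ℂ} {N : Net P}

/-! ### The tetrahedron -/

/-- frames of the faces of the tetrahedron -/
noncomputable def tetraFr (f : Option (ZMod 3)) : ℂ :=
  match f with
  | none => 1
  | some k => -ζ 3 ^ k.val

/-- the signs of the sides of the faces of the tetrahedron -/
def tetraSign (x : Option (ZMod 3) × ZMod 3) : ℝ :=
  match x with
  | (none, _) => 1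
  | (some _, 0) => 1
  | (some _, 1) => -1
  | (some _, 2) => -1

lemma tetraSign_glue (x : Option (ZMod 3) × ZMod 3) : tetraSign (tetraGlue x) = tetraSign x := by
  obtain ⟨f, k⟩ := x
  rcases f with _ | i
  · rfl
  · fin_cases k <;> rfl

lemma tetraSign_sq (x : Option (ZMod 3) × ZMod 3) : tetraSign x * tetraSign x = 1 := by
  obtain ⟨f, k⟩ := x
  rcases f with _ | i
  · simp [tetraSign]
  · fin_cases k
    · change (1 : ℝ) * 1 = 1
      norm_num
    · change (-1 : ℝ) * (-1) = 1
      norm_num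
    · change (-1 : ℝ) * (-1) = 1
      norm_num

lemma tetraFr_glue (x : Option (ZMod 3) × ZMod 3) :
    tetraFr (tetraGlue x).1 * ζ 3 ^ ((tetraGlue x).2 - x.2).val =
      -(tetraSign x * tetraFr x.1) := by
  obtain ⟨f, k⟩ := x
  rcases f with _ | i
  · change -ζ 3 ^ k.val * ζ 3 ^ (0 - k).val = -(((1 : ℝ) : ℂ) * 1)
    rw [neg_mul, ← ζ_pow_val_add]
    simp
  · fin_cases k
    · change 1 * ζ 3 ^ (i - 0).val = -(((1 : ℝ) : ℂ) * (-ζ 3 ^ i.val))
      simp
    · change -ζ 3 ^ (i - 1).val * ζ 3 ^ ((2 : ZMod 3) - 1).val =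
        -(((-1 : ℝ) : ℂ) * (-ζ 3 ^ i.val))
      rw [neg_mul, ← ζ_pow_val_add]
      have : (i - 1 + (2 - 1) : ZMod 3) = i := by ring
      rw [this]
      push_cast
      ring
    · change -ζ 3 ^ (i + 1).val * ζ 3 ^ ((1 : ZMod 3) - 2).val =
        -(((-1 : ℝ) : ℂ) * (-ζ 3 ^ i.val))
      rw [neg_mul, ← ζ_pow_val_add]
      have : (i + 1 + (1 - 2) : ZMod 3) = i := by ring
      rw [this]
      push_cast
      ring

lemma tetraFr_ne (f : Option (ZMod 3)) : tetraFr f ≠ 0 := by
  have h : ζ 3 ≠ 0 := (ζ_primitive (by norm_num)).ne_zero (by norm_num)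
  rcases f with _ | i
  · exact one_ne_zero
  · exact neg_ne_zero.mpr (pow_ne_zero _ h)

/-- a point on side `k` of the standard triangle -/
noncomputable def sidePt (k : ZMod 3) (s : ℝ) : ℂ :=
  corner 3 k + s * (corner 3 (k + 1) - corner 3 k)

lemma motion_sidePt (k k' : ZMod 3) (s : ℝ) :
    motion 3 k k' (sidePt k s) = sidePt k' (1 - s) := by
  have h1 := motion_corner (n := 3) k k'
  have h2 := motion_corner_succ (n := 3) (by norm_num) k k'
  rw [motion_eq] at h1 h2
  unfold sidePt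
  rw [motion_eq]
  push_cast
  linear_combination (1 - (s : ℂ)) * h1 + (s : ℂ) * h2

/-- distance from the line of side `1` -/
noncomputable def tetraLam (z : ℂ) : ℝ := cross (ζ 3) (z - corner 3 1)

lemma tetraLam_zero (s : ℝ) : tetraLam (sidePt 0 s) = (1 - s) * (ζ 3).im := by
  have h0 := corner_succ_sub (n := 3) (by norm_num) 0
  rw [zero_add, ZMod.val_zero, pow_zero] at h0
  have h1 : sidePt 0 s - corner 3 1 = ((s - 1 : ℝ) : ℂ) := by
    unfold sidePt
    rw [zero_add]
    push_cast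
    linear_combination ((s : ℂ) - 1) * h0
  unfold tetraLam
  rw [h1]
  unfold cross
  rw [mul_comm, Complex.im_ofReal_mul, Complex.conj_im]
  ring

lemma tetraLam_one (s : ℝ) : tetraLam (sidePt 1 s) = 0 := by
  have h0 := corner_succ_sub (n := 3) (by norm_num) 1
  have hv : (1 : ZMod 3).val = 1 := rfl
  rw [hv, pow_one] at h0
  have h1 : sidePt 1 s - corner 3 1 = (s : ℂ) * ζ 3 := by
    unfold sidePt
    linear_combination (s : ℂ) * h0
  unfold tetraLam
  rw [h1]
  have h2 : cross (ζ 3) ((s : ℂ) * ζ 3) = s * cross (ζ 3) (ζ 3) := by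
    unfold cross
    rw [mul_left_comm, Complex.im_ofReal_mul]
  rw [h2, cross_self, mul_zero]

lemma tetraLam_two (s : ℝ) : tetraLam (sidePt 2 s) = s * (ζ 3).im := by
  have h0 := corner_succ_sub (n := 3) (by norm_num) 1
  have hv : (1 : ZMod 3).val = 1 := rfl
  have h12 : (1 + 1 : ZMod 3) = 2 := rfl
  rw [hv, pow_one, h12] at h0
  have h3 := corner_succ_sub (n := 3) (by norm_num) 2
  have hv2 : (2 : ZMod 3).val = 2 := rfl
  rw [hv2] at h3
  have h1 : sidePt 2 s - corner 3 1 = ζ 3 * (1 + (s : ℂ) * ζ 3) := by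
    unfold sidePt
    linear_combination (s : ℂ) * h3 + h0
  unfold tetraLam
  have h4 : cross (ζ 3) (ζ 3 * (1 + (s : ℂ) * ζ 3)) =
      cross (ζ 3 * 1) (ζ 3 * (1 + (s : ℂ) * ζ 3)) := by rw [mul_one]
  have h5 : ‖ζ 3‖ = 1 := by
    have := norm_ζ_pow (n := 3) (by norm_num) 1
    rwa [pow_one] at this
  rw [h1, h4, cross_mul_mul, h5]
  unfold cross
  simp

/-- the sign at a point of a face -/
noncomputable def tetraH (f : Option (ZMod 3)) (z : ℂ) : ℝ :=
  open Classical in
  match f with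
  | none => 1
  | some i => if tetraLam z = 0 ∧ ¬ (i = 1 ∧ z = corner 3 2) then -1 else 1

lemma tetraH_sq (f : Option (ZMod 3)) (z : ℂ) : tetraH f z * tetraH f z = 1 := by
  rcases f with _ | i
  · change (1 : ℝ) * 1 = 1
    norm_num
  · change (ite _ _ _ : ℝ) * ite _ _ _ = 1
    split_ifs <;> norm_num

lemma tetraH_none (z : ℂ) : tetraH none z = 1 := rfl

lemma tetraH_pos (i : ZMod 3) (z : ℂ) (h : tetraLam z ≠ 0) : tetraH (some i) z = 1 :=
  if_neg (fun h' => h h'.1)

lemma tetraH_neg (i : ZMod 3) (z : ℂ) (h : tetraLam z = 0) (h2 : z ≠ corner 3 2) :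
    tetraH (some i) z = -1 :=
  if_pos ⟨h, fun h' => h2 h'.2⟩

lemma tetraH_neg' (i : ZMod 3) (z : ℂ) (h : tetraLam z = 0) (h2 : i ≠ 1) :
    tetraH (some i) z = -1 :=
  if_pos ⟨h, fun h' => h2 h'.1⟩

lemma tetraH_corner : tetraH (some 1) (corner 3 2) = 1 :=
  if_neg (fun h' => h'.2 ⟨rfl, rfl⟩)

lemma sidePt_one_ne (s : ℝ) (h : s ≠ 1) : sidePt 1 s ≠ corner 3 2 := by
  intro h'
  have h0 := corner_succ_sub (n := 3) (by norm_num) 1
  have hv : (1 : ZMod 3).val = 1 := rfl
  have h12 : (1 + 1 : ZMod 3) = 2 := rfl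
  rw [hv, pow_one, h12] at h0
  unfold sidePt at h'
  rw [h12] at h'
  have h2 : ((s : ℂ) - 1) * ζ 3 = 0 := by
    linear_combination h' - ((s : ℂ) - 1) * h0
  rcases mul_eq_zero.mp h2 with h3 | h3
  · apply h
    have : (s : ℂ) = 1 := by linear_combination h3
    exact_mod_cast this
  · exact (ζ_primitive (n := 3) (by norm_num)).ne_zero (by norm_num) h3

lemma sidePt_zero (k : ZMod 3) : sidePt k 0 = corner 3 k := by
  unfold sidePt
  simp

lemma sidePt_one (k : ZMod 3) : sidePt k 1 = corner 3 (k + 1) := by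
  unfold sidePt
  push_cast
  ring

/-- the exceptional crossings -/
def tetraCan (v : Fin 4) : Option (ZMod 3) × ZMod 3 :=
  match v with
  | 0 => (none, 0)
  | 1 => (none, 1)
  | 2 => (none, 2)
  | 3 => (some 2, 2)

lemma tetra_step (x : Option (ZMod 3) × ZMod 3) (s : ℝ) (h0 : 0 ≤ s) (h1 : s < 1)
    (hx : s = 0 → ∀ v, x ≠ tetraCan v) :
    tetraSign x = tetraH x.1 (sidePt x.2 s) * tetraH (tetraGlue x).1
      (sidePt (tetraGlue x).2 (1 - s)) := by
  have hζ : (ζ 3).im ≠ 0 := (ζ_im_pos (n := 3) (by norm_num)).ne'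
  obtain ⟨f, k⟩ := x
  rcases f with _ | i
  · have hs : s ≠ 0 := by
      intro h
      fin_cases k
      · exact hx h 0 rfl
      · exact hx h 1 rfl
      · exact hx h 2 rfl
    change 1 = tetraH none (sidePt k s) * tetraH (some k) (sidePt 0 (1 - s))
    rw [tetraH_none, tetraH_pos, mul_one]
    rw [tetraLam_zero]
    apply mul_ne_zero _ hζ
    simpa using hs
  · fin_cases k
    · change 1 = tetraH (some i) (sidePt 0 s) * tetraH none (sidePt i (1 - s))
      rw [tetraH_none, tetraH_pos, mul_one]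
      rw [tetraLam_zero]
      exact mul_ne_zero (by linarith) hζ
    · change -1 = tetraH (some i) (sidePt 1 s) * tetraH (some (i - 1)) (sidePt 2 (1 - s))
      rw [tetraH_neg i _ (tetraLam_one s) (sidePt_one_ne s h1.ne), tetraH_pos, mul_one]
      rw [tetraLam_two]
      exact mul_ne_zero (by linarith) hζ
    · change -1 = tetraH (some i) (sidePt 2 s) * tetraH (some (i + 1)) (sidePt 1 (1 - s))
      by_cases hs : s = 0
      · subst hs
        have hi : i ≠ 2 := by
          rintro rfl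
          exact hx rfl 3 rfl
        rw [sub_zero, sidePt_one, sidePt_zero]
        have h2 : tetraLam (corner 3 2) = 0 := by
          have := tetraLam_one 1
          rwa [sidePt_one] at this
        have h12 : (1 + 1 : ZMod 3) = 2 := rfl
        rw [h12]
        have hi' : i = 0 ∨ i = 1 := by
          clear hx
          revert hi
          revert i
          decide
        rcases hi' with rfl | rfl
        · rw [zero_add, tetraH_corner, tetraH_neg' 0 _ h2 (by decide), mul_one]
        · rw [h12, tetraH_corner, tetraH_neg' 2 _ h2 (by decide), one_mul]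
      · rw [tetraH_pos, tetraH_neg _ _ (tetraLam_one _) (sidePt_one_ne _ _), one_mul]
        · intro h
          apply hs
          linarith
        · rw [tetraLam_two]
          exact mul_ne_zero hs hζ

/-- The sign data of a folding to the tetrahedron. -/
theorem tetra_signs (φ : Folding N tetra) (hst : φ.SideTiled) (t₀ : N.Tri) :
    ∃ (can : Fin 4 → N.Tri × ZMod 3 → Prop) (ε H : N.Tri × ZMod 3 → ℝ),
      (∀ v c c', can v c → can v c' → c = c') ∧ (∀ e, ε (φ.pair e) = ε e) ∧
      (∀ e, ε e * ε e = 1) ∧ (∀ e, N.adj e ≠ e → ε e = 1) ∧ (∀ e, H e * H e = 1) ∧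
      (∀ e, (∀ v, ¬ can v e) → ε e = H e * H (φ.nu e)) ∧
      (∀ e, N.vec (φ.pair e) = -(ε e * N.vec e)) := by
  set R := φ.rot t₀ / tetraFr (φ.face t₀) with hR
  have hσ : ∀ t, ∃ σ : ℝ, σ * σ = 1 ∧ φ.rot t = σ * tetraFr (φ.face t) * R := by
    intro t
    refine φ.rot_induct (fun t => ∃ σ : ℝ, σ * σ = 1 ∧
      φ.rot t = σ * tetraFr (φ.face t) * R) t₀ ?_ ?_ ?_ t
    · refine ⟨1, by norm_num, ?_⟩
      rw [hR]
      have := tetraFr_ne (φ.face t₀)
      push_cast
      field_simp
    · rintro a b h1 h2 ⟨σ, h3, h4⟩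
      exact ⟨σ, h3, by rw [h2, h1, h4]⟩
    · rintro a b k h1 h2 ⟨σ, h3, h4⟩
      have h5 := tetraFr_glue (φ.face a, k)
      have h6 := tetraSign_sq (φ.face a, k)
      set s := tetraSign (φ.face a, k)
      change φ.face b = (tetraGlue (φ.face a, k)).1 at h1
      change φ.rot b * ζ 3 ^ ((tetraGlue (φ.face a, k)).2 - k).val = -φ.rot a at h2
      rw [← h1] at h5
      simp only at h5
      set r := ζ 3 ^ ((tetraGlue (φ.face a, k)).2 - k).val
      have hr : r ≠ 0 := pow_ne_zero _ ((ζ_primitive (n := 3) (by norm_num)).ne_zero (by norm_num))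
      refine ⟨σ * s, ?_, ?_⟩
      · linear_combination (s * s) * h3 + h6
      · have h7 : (s : ℂ) * s = 1 := by exact_mod_cast h6
        apply mul_right_cancel₀ hr
        rw [h2, h4]
        push_cast
        linear_combination (-(σ : ℂ) * s * R) * h5 + ((σ : ℂ) * tetraFr (φ.face a) * R) * h7
  choose σ hσ1 hσ2 using hσ
  let sg : N.Tri × ZMod 3 → ℝ := fun e => match φ.side e with
    | none => 1
    | some k => tetraSign (φ.face e.1, k)
  have hsg0 : ∀ e, φ.side e = none → sg e = 1 := by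
    intro e h
    simp only [sg, h]
  have hsg1 : ∀ e k, φ.side e = some k → sg e = tetraSign (φ.face e.1, k) := by
    intro e k h
    simp only [sg, h]
  have hsg2 : ∀ e, sg e * sg e = 1 := by
    intro e
    rcases h : φ.side e with _ | k
    · rw [hsg0 e h]
      norm_num
    · rw [hsg1 e k h]
      exact tetraSign_sq _
  have hsgp : ∀ e, sg (φ.pair e) = sg e := by
    intro e
    rcases h : φ.side e with _ | k
    · obtain ⟨h1, _, _, _⟩ := φ.inner e h
      rw [hsg0 e h, hsg0 _ h1]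
    · obtain ⟨h1, h2, _, _⟩ := φ.outer e k h
      rw [hsg1 e k h, hsg1 _ _ h1, h2]
      exact tetraSign_glue (φ.face e.1, k)
  let ε : N.Tri × ZMod 3 → ℝ := fun e => σ e.1 * σ (φ.pair e).1 * sg e
  have hε2 : ∀ e, ε e * ε e = 1 := by
    intro e
    simp only [ε]
    linear_combination (σ (φ.pair e).1 * σ (φ.pair e).1 * (sg e * sg e)) * hσ1 e.1 +
      (sg e * sg e) * hσ1 (φ.pair e).1 + hsg2 e
  have hvec : ∀ e, N.vec (φ.pair e) = -(ε e * N.vec e) := by
    intro e
    have h3 : (σ e.1 : ℂ) * σ e.1 = 1 := by exact_mod_cast hσ1 e.1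
    rcases h : φ.side e with _ | k
    · obtain ⟨_, h2, _, _⟩ := φ.inner e h
      rw [φ.vec_pair_inner e h, φ.vec_eq e, hσ2, hσ2 e.1, h2]
      simp only [ε, hsg0 e h]
      push_cast
      linear_combination ((σ (φ.pair e).1 : ℂ) * tetraFr (φ.face e.1) * R * φ.dloc e) * h3
    · obtain ⟨_, h2, _, _⟩ := φ.outer e k h
      rw [φ.vec_pair_outer e k h, φ.vec_eq e, hσ2, hσ2 e.1, h2]
      simp only [ε, hsg1 e k h]
      have h5 := tetraFr_glue (φ.face e.1, k)
      simp only at h5
      change (σ (φ.pair e).1 : ℂ) * tetraFr (tetraGlue (φ.face e.1, k)).1 * R *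
        ζ 3 ^ ((tetraGlue (φ.face e.1, k)).2 - k).val * φ.dloc e = _
      push_cast
      linear_combination ((σ (φ.pair e).1 : ℂ) * R * φ.dloc e) * h5 +
        ((σ (φ.pair e).1 : ℂ) * tetraSign (φ.face e.1, k) * tetraFr (φ.face e.1) * R *
          φ.dloc e) * h3
  refine ⟨fun v e => φ.face e.1 = (tetraCan v).1 ∧ φ.side e = some (tetraCan v).2 ∧
    φ.loc e.1 e.2 = corner 3 (tetraCan v).2, ε,
    fun e => σ e.1 * tetraH (φ.face e.1) (φ.loc e.1 e.2), ?_, ?_, hε2, ?_, ?_, ?_, hvec⟩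
  · rintro v c c' ⟨h1, h2, h3⟩ ⟨h4, h5, h6⟩
    exact hst c c' _ h2 h5 (by rw [h1, h4]) (by rw [h3, h6])
  · intro e
    simp only [ε]
    rw [φ.pair_pair, hsgp]
    ring
  · intro e he
    have h1 := hvec e
    rw [φ.vec_pair_adj e he] at h1
    have h2 : ((ε e : ℂ) - 1) * N.vec e = 0 := by linear_combination h1
    rcases mul_eq_zero.mp h2 with h3 | h3
    · have : (ε e : ℂ) = 1 := by linear_combination h3
      exact_mod_cast this
    · exact absurd h3 (N.vec_ne_zero e)
  · intro e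
    linear_combination (tetraH (φ.face e.1) (φ.loc e.1 e.2) *
      tetraH (φ.face e.1) (φ.loc e.1 e.2)) * hσ1 e.1 + tetraH_sq (φ.face e.1) (φ.loc e.1 e.2)
  · intro e hcan
    have hnu1 : (φ.nu e).1 = (φ.pair e).1 := rfl
    have hnu2 : (φ.nu e).2 = (φ.pair e).2 + 1 := rfl
    simp only [ε, hnu1, hnu2]
    rcases h : φ.side e with _ | k
    · obtain ⟨_, h2, _, h4⟩ := φ.inner e h
      rw [h2, h4, hsg0 e h]
      linear_combination (-(σ e.1 * σ (φ.pair e).1)) * tetraH_sq (φ.face e.1) (φ.loc e.1 e.2)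
    · obtain ⟨_, h2, _, h4⟩ := φ.outer e k h
      obtain ⟨s, t, hs0, hst', ht1, hs, _⟩ := φ.on_side e k h
      rw [h2, h4, hsg1 e k h]
      have hs' : φ.loc e.1 e.2 = sidePt k s := hs
      rw [hs']
      change σ e.1 * σ (φ.pair e).1 * tetraSign (φ.face e.1, k) =
        σ e.1 * tetraH (φ.face e.1) (sidePt k s) * (σ (φ.pair e).1 *
        tetraH (tetraGlue (φ.face e.1, k)).1
          (motion 3 k (tetraGlue (φ.face e.1, k)).2 (sidePt k s)))
      rw [motion_sidePt]
      have h5 := tetra_step (φ.face e.1, k) s hs0 (by linarith) (by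
        intro h0 v hv
        refine hcan v ⟨?_, ?_, ?_⟩
        · rw [← hv]
        · rw [← hv, h]
        · rw [hs', h0, sidePt_zero, ← hv])
      rw [h5]
      ring

end Pool.Agent.H69.Unfold
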