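import Pool.Agent.H69.UnfoldNT

set_option autoImplicit false

namespace Pool.Agent.H69.Unfold

open Complex

/-! ### Triangular faces: norms from `ℚ(ω)` -/

lemma descent_two (c : ℤ) (hc : c % 2 = 1) : ∀ n : ℕ, ∀ x y d : ℤ, d.natAbs = n →
    2 * c * d ^ 2 = x ^ 2 - x * y + y ^ 2 → d = 0 := by
  intro n
  induction n using Nat.strong_induction_on with
  | _ n ih =>
    intro x y d hd h
    by_contra hd0
    have hx : x % 2 = 0 ∧ y % 2 = 0 := by
      have h1 : (x ^ 2 - x * y + y ^ 2) % 2 = 0 := by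
        rw [← h, mul_assoc]
        exact Int.mul_emod_right 2 _
      rcases Int.emod_two_eq_zero_or_one x with hx | hx <;>
      rcases Int.emod_two_eq_zero_or_one y with hy | hy
      · exact ⟨hx, hy⟩
      all_goals
        exfalso
        have h2 : (x ^ 2 - x * y + y ^ 2) % 2 = 1 := by
          simp [pow_two, Int.add_emod, Int.sub_emod, Int.mul_emod, hx, hy]
        omega
    obtain ⟨x', rfl⟩ : ∃ x', x = 2 * x' := ⟨x / 2, by omega⟩
    obtain ⟨y', rfl⟩ : ∃ y', y = 2 * y' := ⟨y / 2, by omega⟩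
    have h3 : c * d ^ 2 = 2 * (x' ^ 2 - x' * y' + y' ^ 2) := by linarith
    have h4 : d % 2 = 0 := by
      rcases Int.emod_two_eq_zero_or_one d with hd | hd
      · exact hd
      · exfalso
        have h5 : (c * d ^ 2) % 2 = 1 := by
          simp [pow_two, Int.mul_emod, hc, hd]
        rw [h3] at h5
        omega
    obtain ⟨d', rfl⟩ : ∃ d', d = 2 * d' := ⟨d / 2, by omega⟩
    have h6 : 2 * c * d' ^ 2 = x' ^ 2 - x' * y' + y' ^ 2 := by linarith
    have h7 : d' = 0 := ih d'.natAbs (by omega) x' y' d' rfl h6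
    exact hd0 (by rw [h7]; rfl)

lemma descent_five : ∀ n : ℕ, ∀ x y d : ℤ, d.natAbs = n →
    5 * d ^ 2 = x ^ 2 - x * y + y ^ 2 → d = 0 := by
  intro n
  induction n using Nat.strong_induction_on with
  | _ n ih =>
    intro x y d hd h
    by_contra hd0
    have hx : x % 5 = 0 ∧ y % 5 = 0 := by
      have h1 : (x ^ 2 - x * y + y ^ 2) % 5 = 0 := by
        rw [← h]
        exact Int.mul_emod_right 5 _
      have hx5 : x % 5 = 0 ∨ x % 5 = 1 ∨ x % 5 = 2 ∨ x % 5 = 3 ∨ x % 5 = 4 := by omega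
      have hy5 : y % 5 = 0 ∨ y % 5 = 1 ∨ y % 5 = 2 ∨ y % 5 = 3 ∨ y % 5 = 4 := by omega
      have h2 : (x ^ 2 - x * y + y ^ 2) % 5 =
          ((x % 5) ^ 2 - (x % 5) * (y % 5) + (y % 5) ^ 2) % 5 := by
        simp [pow_two, Int.add_emod, Int.sub_emod, Int.mul_emod]
      rw [h2] at h1
      rcases hx5 with hx | hx | hx | hx | hx <;>
      rcases hy5 with hy | hy | hy | hy | hy <;>
      rw [hx, hy] at h1 <;> first | exact ⟨hx, hy⟩ | (exfalso; revert h1; decide)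
    obtain ⟨x', rfl⟩ : ∃ x', x = 5 * x' := ⟨x / 5, by omega⟩
    obtain ⟨y', rfl⟩ : ∃ y', y = 5 * y' := ⟨y / 5, by omega⟩
    have h3 : d ^ 2 = 5 * (x' ^ 2 - x' * y' + y' ^ 2) := by linarith
    have h4 : d % 5 = 0 := by
      have h5 : (d ^ 2) % 5 = 0 := by rw [h3]; exact Int.mul_emod_right 5 _
      have hd5 : d % 5 = 0 ∨ d % 5 = 1 ∨ d % 5 = 2 ∨ d % 5 = 3 ∨ d % 5 = 4 := by omega
      have h2 : (d ^ 2) % 5 = ((d % 5) ^ 2) % 5 := by
        simp [pow_two, Int.mul_emod]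
      rw [h2] at h5
      rcases hd5 with hd | hd | hd | hd | hd <;> rw [hd] at h5 <;>
        first | exact hd | (exfalso; revert h5; decide)
    obtain ⟨d', rfl⟩ : ∃ d', d = 5 * d' := ⟨d / 5, by omega⟩
    have h6 : 5 * d' ^ 2 = x' ^ 2 - x' * y' + y' ^ 2 := by linarith
    have h7 : d' = 0 := ih d'.natAbs (by omega) x' y' d' rfl h6
    exact hd0 (by rw [h7]; rfl)

lemma no_norm (c : ℤ) (hc : c = 2 ∨ c = 5 ∨ c = 10) (a b : ℚ) (t : ℚ) (ht : t ≠ 0)
    (h : c * t ^ 2 = a ^ 2 - a * b + b ^ 2) : False := by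
  -- clear denominators
  have key : ∀ D : ℤ, D ≠ 0 → ∀ x y d : ℤ, (x : ℚ) = a * D → (y : ℚ) = b * D →
      (d : ℚ) = t * D → False := by
    intro D hD x y d hx hy hd
    have hD' : (D : ℚ) ≠ 0 := by exact_mod_cast hD
    have h1 : c * d ^ 2 = x ^ 2 - x * y + y ^ 2 := by
      have h2 : ((c * d ^ 2 : ℤ) : ℚ) = ((x ^ 2 - x * y + y ^ 2 : ℤ) : ℚ) := by
        push_cast
        rw [hx, hy, hd]
        linear_combination (D : ℚ) ^ 2 * h
      exact_mod_cast h2
    have hd0 : d ≠ 0 := by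
      intro h0
      rw [h0] at hd
      have : t * D ≠ 0 := mul_ne_zero ht hD'
      exact this (by rw [← hd]; simp)
    rcases hc with rfl | rfl | rfl
    · exact hd0 (descent_two 1 (by norm_num) _ x y d rfl (by linarith))
    · exact hd0 (descent_five _ x y d rfl h1)
    · exact hd0 (descent_two 5 (by norm_num) _ x y d rfl (by linarith))
  have hD : ((a.den * b.den * t.den : ℕ) : ℤ) ≠ 0 := by
    have := a.den_pos
    have := b.den_pos
    have := t.den_pos
    positivity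
  refine key _ hD (a.num * b.den * t.den) (b.num * a.den * t.den) (t.num * a.den * b.den) ?_ ?_ ?_
  · have h1 := Rat.mul_den_eq_num a
    push_cast
    rw [← h1]
    ring
  · have h1 := Rat.mul_den_eq_num b
    push_cast
    rw [← h1]
    ring
  · have h1 := Rat.mul_den_eq_num t
    push_cast
    rw [← h1]
    ring

/-- The field `ℚ(ω)`. -/
noncomputable def eisField : Subfield ℂ := Subfield.closure {ζ 3}

lemma ζ_three_sq : ζ 3 ^ 2 = -1 - ζ 3 := by
  have h : IsPrimitiveRoot (ζ 3) 3 := ζ_primitive (by norm_num)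
  have h1 : ζ 3 ^ 3 = 1 := h.pow_eq_one
  have h2 : ζ 3 ≠ 1 := ζ_ne_one (by norm_num)
  have h3 : (ζ 3 - 1) * (ζ 3 ^ 2 + ζ 3 + 1) = 0 := by linear_combination h1
  rcases mul_eq_zero.mp h3 with h4 | h4
  · exact absurd (sub_eq_zero.mp h4) h2
  · linear_combination h4

lemma ζ_three_conj : starRingEnd ℂ (ζ 3) = -1 - ζ 3 := by
  have h : IsPrimitiveRoot (ζ 3) 3 := ζ_primitive (by norm_num)
  rw [conj_root (h.norm'_eq_one (by norm_num)), ← ζ_three_sq]
  have h1 : ζ 3 ^ 3 = 1 := h.pow_eq_one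
  have h2 : ζ 3 ≠ 0 := h.ne_zero (by norm_num)
  field_simp
  rw [← h1]

lemma norm_eis (a b : ℚ) : ‖(a : ℂ) + b * ζ 3‖ ^ 2 = ((a ^ 2 - a * b + b ^ 2 : ℚ) : ℝ) := by
  have h1 : ((‖(a : ℂ) + b * ζ 3‖ ^ 2 : ℝ) : ℂ) = (((a ^ 2 - a * b + b ^ 2 : ℚ) : ℝ) : ℂ) := by
    rw [← Complex.normSq_eq_norm_sq, ← Complex.mul_conj]
    simp only [map_add, map_mul, ζ_three_conj]
    have h2 := ζ_three_sq
    simp
    linear_combination (-(b : ℂ) ^ 2) * h2
  exact_mod_cast h1

lemma eisField_repr : ∀ κ ∈ eisField, ∃ a b : ℚ, κ = a + b * ζ 3 := by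
  intro κ hκ
  unfold eisField at hκ
  induction hκ using Subfield.closure_induction with
  | mem x hx =>
    rw [Set.mem_singleton_iff] at hx
    exact ⟨0, 1, by rw [hx]; simp⟩
  | one => exact ⟨1, 0, by simp⟩
  | add x y _ _ hx hy =>
    obtain ⟨a, b, rfl⟩ := hx
    obtain ⟨a', b', rfl⟩ := hy
    exact ⟨a + a', b + b', by push_cast; ring⟩
  | neg x _ hx =>
    obtain ⟨a, b, rfl⟩ := hx
    exact ⟨-a, -b, by push_cast; ring⟩
  | inv x _ hx =>
    obtain ⟨a, b, hx⟩ := hx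
    by_cases h0 : x = 0
    · exact ⟨0, 0, by rw [h0]; simp⟩
    · have hN : ((a ^ 2 - a * b + b ^ 2 : ℚ) : ℝ) ≠ 0 := by
        rw [← norm_eis, ← hx]
        positivity
      have hN' : (a ^ 2 - a * b + b ^ 2 : ℚ) ≠ 0 := by
        intro h
        exact hN (by rw [h]; simp)
      have hN'' : ((a : ℂ) ^ 2 - a * b + b ^ 2) ≠ 0 := by exact_mod_cast hN'
      refine ⟨(a - b) / (a ^ 2 - a * b + b ^ 2), -b / (a ^ 2 - a * b + b ^ 2), ?_⟩
      rw [hx]
      apply inv_eq_of_mul_eq_one_right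
      push_cast
      have h2 := ζ_three_sq
      have h3 : ((a : ℂ) + b * ζ 3) * ((a - b) / (a ^ 2 - a * b + b ^ 2) +
          -b / (a ^ 2 - a * b + b ^ 2) * ζ 3) =
          ((a : ℂ) + b * ζ 3) * ((a - b) - b * ζ 3) / (a ^ 2 - a * b + b ^ 2) := by ring
      rw [h3, div_eq_one_iff_eq hN'']
      linear_combination (-(b : ℂ) ^ 2) * h2
  | mul x y _ _ hx hy =>
    obtain ⟨a, b, rfl⟩ := hx
    obtain ⟨a', b', rfl⟩ := hy
    refine ⟨a * a' - b * b', a * b' + b * a' - b * b', ?_⟩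
    have h2 := ζ_three_sq
    push_cast
    linear_combination ((b : ℂ) * b') * h2

lemma eisField_conj : ∀ κ ∈ eisField, starRingEnd ℂ κ ∈ eisField := by
  intro κ hκ
  obtain ⟨a, b, rfl⟩ := eisField_repr κ hκ
  have h1 : ζ 3 ∈ eisField := Subfield.subset_closure (Set.mem_singleton _)
  simp only [map_add, map_mul, ζ_three_conj]
  simp only [map_ratCast]
  exact eisField.add_mem (SubfieldClass.ratCast_mem eisField a) (eisField.mul_mem
    (SubfieldClass.ratCast_mem eisField b) (eisField.sub_mem (eisField.neg_mem eisField.one_mem) h1))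

/-- No area relation for two different solids with triangular faces. -/
theorem no_relation_triangle (f₁ f₂ : ℕ) (hf₁ : f₁ = 4 ∨ f₁ = 8 ∨ f₁ = 20)
    (hf₂ : f₂ = 4 ∨ f₂ = 8 ∨ f₂ = 20) (hne : f₁ ≠ f₂)
    (κ₁ κ₂ : ℂ) (hκ₁ : κ₁ ∈ eisField) (hκ₂ : κ₂ ∈ eisField) (h0 : κ₁ ≠ 0)
    (h : (f₁ : ℝ) * ‖κ₁‖ ^ 2 = f₂ * ‖κ₂‖ ^ 2) : False := by
  obtain ⟨a, b, hab⟩ := eisField_repr _ (eisField.div_mem hκ₂ hκ₁)
  have h1 : (f₁ : ℝ) = f₂ * ‖κ₂ / κ₁‖ ^ 2 := by
    rw [norm_div]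
    have : ‖κ₁‖ ≠ 0 := norm_ne_zero_iff.mpr h0
    field_simp
    linarith
  rw [hab, norm_eis] at h1
  have h2 : (f₁ : ℚ) = f₂ * (a ^ 2 - a * b + b ^ 2) := by exact_mod_cast h1
  rcases hf₁ with rfl | rfl | rfl <;> rcases hf₂ with rfl | rfl | rfl
  · exact hne rfl
  · push_cast at h2
    exact no_norm 2 (by simp) (2 * a) (2 * b) 1 (by norm_num) (by push_cast; linarith)
  · push_cast at h2
    exact no_norm 5 (by simp) (5 * a) (5 * b) 1 (by norm_num) (by push_cast; linarith)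
  · push_cast at h2
    exact no_norm 2 (by simp) a b 1 (by norm_num) (by push_cast; linarith)
  · exact hne rfl
  · push_cast at h2
    exact no_norm 10 (by simp) (5 * a) (5 * b) 1 (by norm_num) (by push_cast; linarith)
  · push_cast at h2
    exact no_norm 5 (by simp) a b 1 (by norm_num) (by push_cast; linarith)
  · push_cast at h2
    exact no_norm 10 (by simp) (2 * a) (2 * b) 1 (by norm_num) (by push_cast; linarith)
  · exact hne rfl

end Pool.Agent.H69.Unfold
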