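import Pool.Agent.H69.UnfoldFunctional
import Pool.Agent.H69.UnfoldNT2

set_option autoImplicit false

namespace Pool.Agent.H69.Unfold

open Complex

/-- The two nets cut side `k` of the polygon at the same points. -/
def SameCuts {M : ℕ} {P : ZMod M → ℂ} (N₁ N₂ : Net P) (k : ZMod M) : Prop :=
  N₁.m k = N₂.m k ∧ ∀ j ≤ N₁.m k, N₁.cut k j = N₂.cut k j

lemma Net.nonempty_tri {M : ℕ} {P : ZMod M → ℂ} (N : Net P) : Nonempty N.Tri := by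
  have h1 : N.m 0 ≠ 0 := by
    intro h0
    have h2 := N.cut_last 0
    rw [h0, N.cut_zero 0] at h2
    exact zero_ne_one h2
  exact ⟨(N.bdry ⟨0, ⟨0, Nat.pos_of_ne_zero h1⟩⟩).1⟩

/-- The area relation: if all sides of the polygon on which the cuts of the two foldings differ
have directions in `K · ℝ · δ` then the ratio of the numbers of unit faces, weighted with their
areas, is a norm from `K`. -/
theorem area_relation {M : ℕ} [NeZero M] {P : ZMod M → ℂ} (N₁ N₂ : Net P) {n₁ n₂ : ℕ}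
    [NeZero n₁] [NeZero n₂] (hn₁ : 3 ≤ n₁) (hn₂ : 3 ≤ n₂)
    {S₁ : NGonSurface n₁} {S₂ : NGonSurface n₂} (φ₁ : Folding N₁ S₁) (φ₂ : Folding N₂ S₂)
    (K : Subfield ℂ) (hconj : ∀ κ ∈ K, starRingEnd ℂ κ ∈ K) (h₁ : ζ n₁ ∈ K) (h₂ : ζ n₂ ∈ K)
    (δ : ℂ) (hδ : δ ≠ 0)
    (hside : ∀ k, SameCuts N₁ N₂ k ∨ ∃ κ ∈ K, ∃ r : ℝ, P (k + 1) - P k = κ * (r * δ)) :
    ∃ κ₁ ∈ K, ∃ κ₂ ∈ K, κ₁ ≠ 0 ∧
      Fintype.card S₁.Face * area2 n₁ * ‖κ₁‖ ^ 2 = Fintype.card S₂.Face * area2 n₂ * ‖κ₂‖ ^ 2 := by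
  obtain ⟨t₁⟩ := N₁.nonempty_tri
  obtain ⟨t₂⟩ := N₂.nonempty_tri
  have hα : φ₁.rot t₁ ≠ 0 := by
    rw [← norm_ne_zero_iff, φ₁.norm_rot]
    exact φ₁.scale_pos.ne'
  obtain ⟨Φ, hΦ, hΦK, hΦα, hΦδ⟩ :=
    exists_coordinate K hconj (ζ n₁) h₁ (ζ_im_pos hn₁).ne' δ hδ (φ₁.rot t₁) hα
  refine ⟨Φ (φ₁.rot t₁), hΦK _, Φ (φ₂.rot t₂), hΦK _, hΦα, ?_⟩
  rw [← main_formula (by omega) φ₁ K h₁ Φ hΦ t₁, ← main_formula (by omega) φ₂ K h₂ Φ hΦ t₂]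
  apply Finset.sum_congr rfl
  intro k _
  rcases hside k with ⟨hm, hc⟩ | ⟨κ, hκ, r, hr⟩
  · rw [Fin.sum_univ_eq_sum_range (fun j => cross (Φ (P k + N₁.cut k j * (P (k + 1) - P k)))
      (Φ (P k + N₁.cut k (j + 1) * (P (k + 1) - P k)))) (N₁.m k),
      Fin.sum_univ_eq_sum_range (fun j => cross (Φ (P k + N₂.cut k j * (P (k + 1) - P k)))
      (Φ (P k + N₂.cut k (j + 1) * (P (k + 1) - P k)))) (N₂.m k), ← hm]
    apply Finset.sum_congr rfl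
    intro j hj
    rw [Finset.mem_range] at hj
    rw [hc j (by omega), hc (j + 1) (by omega)]
  · have hD : ∀ s : ℝ, ∃ l : ℝ, Φ (s * (P (k + 1) - P k)) = l * κ := by
      intro s
      obtain ⟨l, hl⟩ := hΦδ (s * r)
      refine ⟨l, ?_⟩
      have h3 : (s : ℂ) * (P (k + 1) - P k) = κ * (((s * r : ℝ) : ℂ) * δ) := by
        rw [hr]
        push_cast
        ring
      rw [h3, hΦ κ hκ, hl]
      ring
    rw [side_sum Φ (P k) (P (k + 1) - P k) (N₁.m k) (N₁.cut k) (N₁.cut_zero k) (N₁.cut_last k) κ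
      hD, side_sum Φ (P k) (P (k + 1) - P k) (N₂.m k) (N₂.cut k) (N₂.cut_zero k)
      (N₂.cut_last k) κ hD]

end Pool.Agent.H69.Unfold
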