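import Pool.Agent.H69.FoldEnum
import Pool.Agent.H69.UnfoldMain

set_option autoImplicit false

namespace Pool.Agent.H69.Unfold

open Complex

/-- The closed polygon with the corners `P k`, `k ∈ ℤ/M`, and the sides from `P k` to `P (k+1)`
is simple: its boundary passes through every point at most once. -/
def IsSimplePolygon {M : ℕ} (P : ZMod M → ℂ) : Prop :=
  ∀ k k' : ZMod M, ∀ s s' : ℝ, 0 ≤ s → s < 1 → 0 ≤ s' → s' < 1 →
    P k + s * (P (k + 1) - P k) = P k' + s' * (P (k' + 1) - P k') → k = k' ∧ s = s'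

variable {M : ℕ} {P : ZMod M → ℂ} {N : Net P} {n : ℕ} {S : NGonSurface n}

/-- The gluing of the boundary of the polygon is planar: two pairs of glued boundary edges never
separate each other on the boundary (this holds exactly if the polygon folds to a sphere). -/
def Folding.NonCrossing (φ : Folding N S) : Prop :=
  ∀ a b c d, bidx N.m a < bidx N.m b → bidx N.m b < bidx N.m c → bidx N.m c < bidx N.m d →
    φ.pair (N.bdry a) = N.bdry c → φ.pair (N.bdry b) ≠ N.bdry d

/-- Different edges on the same side of the same face start at different points. -/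
def Folding.SideTiled (φ : Folding N S) : Prop :=
  ∀ e e' k, φ.side e = some k → φ.side e' = some k → φ.face e.1 = φ.face e'.1 →
    φ.loc e.1 e.2 = φ.loc e'.1 e'.2 → e = e'

/-! ### Cuts -/

lemma Net.cut_le (N : Net P) (k : ZMod M) {i j : ℕ} (hij : i ≤ j) (hj : j ≤ N.m k) :
    N.cut k i ≤ N.cut k j := by
  induction j, hij using Nat.le_induction with
  | base => exact le_rfl
  | succ j hij ih => exact le_trans (ih (by omega)) (N.cut_lt k j (by omega)).le

lemma Net.cut_strict (N : Net P) (k : ZMod M) {i j : ℕ} (hij : i < j) (hj : j ≤ N.m k) :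
    N.cut k i < N.cut k j :=
  lt_of_lt_of_le (N.cut_lt k i (by omega)) (N.cut_le k (show i + 1 ≤ j by omega) hj)

lemma Net.cut_inj (N : Net P) (k : ZMod M) {i j : ℕ} (hi : i ≤ N.m k) (hj : j ≤ N.m k)
    (h : N.cut k i = N.cut k j) : i = j := by
  rcases lt_trichotomy i j with h1 | h1 | h1
  · have := N.cut_strict k h1 hj
    rw [h] at this
    exact absurd this (lt_irrefl _)
  · exact h1
  · have := N.cut_strict k h1 hi
    rw [h] at this
    exact absurd this (lt_irrefl _)

lemma Net.cut_nonneg (N : Net P) (k : ZMod M) {j : ℕ} (hj : j ≤ N.m k) : 0 ≤ N.cut k j := by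
  have := N.cut_le k (Nat.zero_le j) hj
  rwa [N.cut_zero] at this

lemma Net.cut_lt_one (N : Net P) (k : ZMod M) {j : ℕ} (hj : j < N.m k) : N.cut k j < 1 := by
  have := N.cut_strict k hj le_rfl
  rwa [N.cut_last] at this

lemma Net.m_pos (N : Net P) (k : ZMod M) : 0 < N.m k := by
  by_contra h
  have h0 : N.m k = 0 := by omega
  have h2 := N.cut_last k
  rw [h0, N.cut_zero k] at h2
  exact zero_ne_one h2

/-- In a simple polygon a boundary edge is determined by its starting point. -/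
lemma Net.bdry_start_inj (N : Net P) (hP : IsSimplePolygon P) (x y : Σ k : ZMod M, Fin (N.m k))
    (h : N.pos (N.bdry x).1 (N.bdry x).2 = N.pos (N.bdry y).1 (N.bdry y).2) : x = y := by
  obtain ⟨k, j⟩ := x
  obtain ⟨k', j'⟩ := y
  rw [N.bdry_start, N.bdry_start] at h
  obtain ⟨h1, h2⟩ := hP _ _ _ _ (N.cut_nonneg k j.2.le) (N.cut_lt_one k j.2)
    (N.cut_nonneg k' j'.2.le) (N.cut_lt_one k' j'.2) h
  subst h1
  have h3 := N.cut_inj k j.2.le j'.2.le h2
  have h4 : j = j' := Fin.ext h3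
  rw [h4]

/-! ### The rotation around vertices -/

/-- the next edge of the same triangle -/
def succEquiv (T : Type) : Equiv.Perm (T × ZMod 3) :=
  Equiv.prodCongr (Equiv.refl _) (Equiv.addRight 1)

lemma succEquiv_apply (T : Type) (e : T × ZMod 3) : succEquiv T e = (e.1, e.2 + 1) := rfl

/-- the gluing as a permutation -/
def Folding.pairEquiv (φ : Folding N S) : Equiv.Perm (N.Tri × ZMod 3) :=
  Function.Involutive.toPerm φ.pair φ.pair_pair

/-- the rotation around the starting point of an edge -/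
def Folding.nu (φ : Folding N S) : Equiv.Perm (N.Tri × ZMod 3) :=
  φ.pairEquiv.trans (succEquiv _)

lemma Folding.nu_apply (φ : Folding N S) (e : N.Tri × ZMod 3) :
    φ.nu e = succEquiv _ (φ.pair e) := rfl

lemma Folding.pos_nu (φ : Folding N S) (e : N.Tri × ZMod 3) (he : N.adj e ≠ e) :
    N.pos (φ.nu e).1 (φ.nu e).2 = N.pos e.1 e.2 := by
  rw [φ.nu_apply, succEquiv_apply, φ.pair_adj e he]
  exact (N.adj_pos e he).2

lemma Folding.pair_bdry (φ : Folding N S) (e : N.Tri × ZMod 3) (he : N.adj e = e) :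
    N.adj (φ.pair e) = φ.pair e := by
  by_contra h
  have h1 := φ.pair_adj _ h
  rw [φ.pair_pair] at h1
  have h2 : N.adj e = φ.pair e := by
    rw [h1, N.adj_adj, ← h1]
  rw [he] at h2
  rw [← h2] at h
  exact h he

/-- Turning around a boundary vertex inside the polygon leads to the boundary. -/
lemma Folding.exists_bdry (φ : Folding N S) (b : N.Tri × ZMod 3) (hb : N.adj b = b) :
    ∃ m : ℕ, N.adj ((φ.nu ^ m) (succEquiv _ b)) = (φ.nu ^ m) (succEquiv _ b) := by
  by_contra hcon
  push Not at hcon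
  set c := succEquiv _ b with hc
  obtain ⟨L, hL, hLc⟩ := isOfFinOrder_iff_pow_eq_one.mp (isOfFinOrder_of_finite φ.nu)
  obtain ⟨L', rfl⟩ : ∃ L', L = L' + 1 := ⟨L - 1, by omega⟩
  have h1 : φ.nu ((φ.nu ^ L') c) = c := by
    rw [← Equiv.Perm.mul_apply, ← pow_succ', hLc]
    rfl
  set e := (φ.nu ^ L') c with he
  have h2 : φ.pair e = b := by
    have h3 : succEquiv N.Tri (φ.pair e) = succEquiv N.Tri b := by
      rw [← φ.nu_apply, h1, hc]
    exact (succEquiv N.Tri).injective h3
  have h4 := φ.pair_adj e (hcon L')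
  rw [h2] at h4
  have h5 : N.adj b = e := by rw [h4, N.adj_adj]
  rw [hb] at h5
  apply hcon L'
  rw [← he, ← h5]
  exact hb

/-- The fan of triangles at a boundary vertex. -/
lemma Folding.fan (φ : Folding N S) (hP : IsSimplePolygon P) (x y : Σ k : ZMod M, Fin (N.m k))
    (hxy : N.pos (N.bdry x).1 ((N.bdry x).2 + 1) = N.pos (N.bdry y).1 (N.bdry y).2) :
    ∃ m : ℕ, (φ.nu ^ m) (succEquiv _ (N.bdry x)) = N.bdry y ∧
      ∀ m' < m, N.adj ((φ.nu ^ m') (succEquiv _ (N.bdry x))) ≠
        (φ.nu ^ m') (succEquiv _ (N.bdry x)) := by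
  classical
  have hb : ∀ x, N.adj (N.bdry x) = N.bdry x := by
    intro x
    have : N.bdry x ∈ Set.range N.bdry := ⟨x, rfl⟩
    rw [N.bdry_range] at this
    exact this
  have hex := φ.exists_bdry (N.bdry x) (hb x)
  set m := Nat.find hex with hm
  have h1 : N.adj ((φ.nu ^ m) (succEquiv _ (N.bdry x))) = (φ.nu ^ m) (succEquiv _ (N.bdry x)) :=
    Nat.find_spec hex
  have h2 : ∀ m' < m, N.adj ((φ.nu ^ m') (succEquiv _ (N.bdry x))) ≠
        (φ.nu ^ m') (succEquiv _ (N.bdry x)) := fun m' h => Nat.find_min hex h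
  refine ⟨m, ?_, h2⟩
  have h3 : ∀ m' ≤ m, N.pos ((φ.nu ^ m') (succEquiv _ (N.bdry x))).1
      ((φ.nu ^ m') (succEquiv _ (N.bdry x))).2 = N.pos (N.bdry x).1 ((N.bdry x).2 + 1) := by
    intro m'
    induction m' with
    | zero => intro _; rfl
    | succ m' ih =>
      intro h
      rw [pow_succ', Equiv.Perm.mul_apply, φ.pos_nu _ (h2 m' (by omega))]
      exact ih (by omega)
  have h4 : (φ.nu ^ m) (succEquiv _ (N.bdry x)) ∈ Set.range N.bdry := by
    rw [N.bdry_range]
    exact h1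
  obtain ⟨z, hz⟩ := h4
  have h5 := h3 m le_rfl
  rw [← hz, hxy] at h5
  rw [← hz, N.bdry_start_inj hP z y h5]

/-- The boundary word of a folding. -/
theorem Folding.exists_word [NeZero M] (φ : Folding N S) (hP : IsSimplePolygon P)
    (hS : ∀ x, S.glue x ≠ x) (hnc : φ.NonCrossing) :
    ∃ (L : ℕ) (_ : NeZero L) (E : ZMod L ≃ Σ k : ZMod M, Fin (N.m k)) (π : ZMod L → ZMod L),
      CWord L π ∧
      (∀ (x : Σ k : ZMod M, Fin (N.m k)) (h : x.2.val + 1 < N.m x.1),
        E (E.symm x + 1) = ⟨x.1, ⟨x.2.val + 1, h⟩⟩) ∧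
      (∀ x : Σ k : ZMod M, Fin (N.m k), x.2.val + 1 = N.m x.1 →
        E (E.symm x + 1) = ⟨x.1 + 1, ⟨0, N.m_pos _⟩⟩) ∧
      (∀ i, N.bdry (E (π i)) = φ.pair (N.bdry (E i))) ∧
      (∀ i, ∃ m : ℕ, (φ.nu ^ (m + 1)) (N.bdry (E i)) = N.bdry (E (π i + 1)) ∧
        ∀ m' < m, N.adj ((φ.nu ^ (m' + 1)) (N.bdry (E i))) ≠ (φ.nu ^ (m' + 1)) (N.bdry (E i))) := by
  classical
  obtain ⟨L, hL, E, hE0, hE1, hE2⟩ := exists_enum N.m N.m_pos
  have hb : ∀ x, N.adj (N.bdry x) = N.bdry x := by
    intro x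
    have : N.bdry x ∈ Set.range N.bdry := ⟨x, rfl⟩
    rw [N.bdry_range] at this
    exact this
  have hpair : ∀ x, ∃ y, N.bdry y = φ.pair (N.bdry x) := by
    intro x
    have h1 := φ.pair_bdry _ (hb x)
    have h2 : φ.pair (N.bdry x) ∈ Set.range N.bdry := by
      rw [N.bdry_range]
      exact h1
    exact h2
  choose g hg using hpair
  let π : ZMod L → ZMod L := fun i => E.symm (g (E i))
  have hπ : ∀ i, N.bdry (E (π i)) = φ.pair (N.bdry (E i)) := by
    intro i
    simp only [π, Equiv.apply_symm_apply]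
    exact hg _
  have hpair_ne : ∀ e, φ.pair e ≠ e := by
    intro e he
    rcases hs : φ.side e with _ | k
    · obtain ⟨_, _, h3, _⟩ := φ.inner e hs
      rw [he] at h3
      apply N.edge_ne e.1 e.2
      rw [φ.pos_eq, φ.pos_eq, h3]
    · obtain ⟨h1, h2, _, _⟩ := φ.outer e k hs
      rw [he] at h1 h2
      apply hS (φ.face e.1, k)
      rw [hs] at h1
      ext
      · exact h2.symm
      · simpa using h1.symm
  have hinj : Function.Injective (fun i => N.bdry (E i)) := fun i j h =>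
    E.injective (N.bdry_inj h)
  refine ⟨L, hL, E, π, ⟨?_, ?_, ?_⟩, hE1, hE2, hπ, ?_⟩
  · intro i
    apply hinj
    simp only
    rw [hπ, hπ, φ.pair_pair]
  · intro i h
    apply hpair_ne (N.bdry (E i))
    rw [← hπ, h]
  · intro a b c d hab hbc hcd h1 h2
    have hval : ∀ i, bidx N.m (E i) = i.val := by
      intro i
      rw [← hE0, Equiv.symm_apply_apply]
    refine hnc (E a) (E b) (E c) (E d) ?_ ?_ ?_ ?_ ?_
    · rw [hval, hval]; exact hab
    · rw [hval, hval]; exact hbc
    · rw [hval, hval]; exact hcd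
    · rw [← hπ, h1]
    · rw [← hπ, h2]
  · intro i
    have hstep : ∀ i, N.pos (N.bdry (E i)).1 ((N.bdry (E i)).2 + 1) =
        N.pos (N.bdry (E (i + 1))).1 (N.bdry (E (i + 1))).2 := by
      intro i
      obtain ⟨x, rfl⟩ : ∃ x, i = E.symm x := ⟨E i, by simp⟩
      rw [Equiv.apply_symm_apply]
      by_cases h : x.2.val + 1 < N.m x.1
      · rw [hE1 x h, N.bdry_start]
        obtain ⟨k, j⟩ := x
        rw [N.bdry_stop]
      · have h' : x.2.val + 1 = N.m x.1 := by
          have := x.2.2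
          omega
        rw [hE2 x h', N.bdry_start]
        obtain ⟨k, j⟩ := x
        simp only at h'
        rw [N.bdry_stop, h', N.cut_last, N.cut_zero]
        push_cast
        ring
    obtain ⟨m, h1, h2⟩ := φ.fan hP (E (π i)) (E (π i + 1)) (hstep (π i))
    have h3 : ∀ m : ℕ, (φ.nu ^ (m + 1)) (N.bdry (E i)) =
        (φ.nu ^ m) (succEquiv _ (N.bdry (E (π i)))) := by
      intro m
      rw [pow_succ, Equiv.Perm.mul_apply, φ.nu_apply, hπ]
    refine ⟨m, ?_, ?_⟩
    · rw [h3, h1]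
    · intro m' hm'
      rw [h3]
      exact h2 m' hm'

end Pool.Agent.H69.Unfold
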