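import Pool.Agent.H69.NGonGeom

set_option autoImplicit false

namespace Pool.Agent.H69.Unfold

open Complex

/-- the rotation between the frames of two glued faces, as an exponent of `- ζ (2 n)` -/
def sExp (n : ℕ) (k k' : ZMod n) : ZMod (2 * n) := ((2 * (k' - k).val + n : ℕ) : ZMod (2 * n))

/-- A trivialisation of the frames of a surface of `n`-gons outside `4 q` exceptional crossings of
sides at corners, one for each vertex. -/
structure Gauge {n : ℕ} (S : NGonSurface n) (q : ℕ) where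
  /-- the frames at the corners of the faces -/
  hc : S.Face → ZMod n → ZMod (2 * n)
  /-- the frames at the sides of the faces -/
  hs : S.Face → ZMod n → ZMod (2 * n)
  /-- the exceptional crossings -/
  canon : Fin (4 * q) → S.Face × ZMod n
  /-- the vertex at a corner -/
  lab : S.Face → ZMod n → Fin (4 * q)
  /-- the holonomy of an exceptional crossing -/
  γ : ZMod (2 * n)
  side_eq : ∀ x : S.Face × ZMod n, sExp n x.2 (S.glue x).2 + hs x.1 x.2 =
    hs (S.glue x).1 (S.glue x).2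
  corner_eq : ∀ x : S.Face × ZMod n, (∀ v, canon v ≠ x) →
    sExp n x.2 (S.glue x).2 + hc x.1 x.2 = hc (S.glue x).1 ((S.glue x).2 + 1)
  corner_bad : ∀ v, sExp n (canon v).2 (S.glue (canon v)).2 + hc (canon v).1 (canon v).2 =
    hc (S.glue (canon v)).1 ((S.glue (canon v)).2 + 1) + γ
  lab_glue : ∀ x : S.Face × ZMod n, lab (S.glue x).1 ((S.glue x).2 + 1) = lab x.1 x.2
  lab_canon : ∀ v, lab (canon v).1 (canon v).2 = v

section

variable {n : ℕ} {S : NGonSurface n} {q : ℕ}

open Classical in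
/-- the frame at a point of a face -/
noncomputable def Gauge.frame (G : Gauge S q) (f : S.Face) (z : ℂ) : ZMod (2 * n) :=
  if h : ∃ j, z = corner n j then G.hc f h.choose
  else if h : ∃ k, ∃ s : ℝ, 0 < s ∧ s < 1 ∧ z = nPt n k s then G.hs f h.choose else 0

open Classical in
/-- the vertex at a point of a face -/
noncomputable def Gauge.vlab (G : Gauge S q) (f : S.Face) (z : ℂ) : Option (Fin (4 * q)) :=
  if h : ∃ j, z = corner n j then some (G.lab f h.choose) else none

lemma Gauge.frame_corner (G : Gauge S q) (hn : 3 ≤ n) (f : S.Face) (j : ZMod n) :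
    G.frame f (corner n j) = G.hc f j := by
  have h : ∃ j', corner n j = corner n j' := ⟨j, rfl⟩
  unfold Gauge.frame
  rw [dif_pos h]
  congr 1
  exact (corner_inj hn _ _ h.choose_spec).symm

lemma Gauge.vlab_corner (G : Gauge S q) (hn : 3 ≤ n) (f : S.Face) (j : ZMod n) :
    G.vlab f (corner n j) = some (G.lab f j) := by
  have h : ∃ j', corner n j = corner n j' := ⟨j, rfl⟩
  unfold Gauge.vlab
  rw [dif_pos h]
  congr 2
  exact (corner_inj hn _ _ h.choose_spec).symm

lemma Gauge.frame_side (G : Gauge S q) (hn : 3 ≤ n) (f : S.Face) (k : ZMod n) (s : ℝ)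
    (h0 : 0 < s) (h1 : s < 1) : G.frame f (nPt n k s) = G.hs f k := by
  have h : ¬ ∃ j, nPt n k s = corner n j := by
    rintro ⟨j, hj⟩
    exact nPt_ne_corner hn k j s h0 h1 hj
  have h' : ∃ k', ∃ s' : ℝ, 0 < s' ∧ s' < 1 ∧ nPt n k s = nPt n k' s' := ⟨k, s, h0, h1, rfl⟩
  unfold Gauge.frame
  rw [dif_neg h, dif_pos h']
  congr 1
  obtain ⟨s', h2, h3, h4⟩ := h'.choose_spec
  exact nPt_inj hn _ _ s s' h2 h3 h4

lemma Gauge.vlab_side (G : Gauge S q) (hn : 3 ≤ n) (f : S.Face) (k : ZMod n) (s : ℝ)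
    (h0 : 0 < s) (h1 : s < 1) : G.vlab f (nPt n k s) = none := by
  have h : ¬ ∃ j, nPt n k s = corner n j := by
    rintro ⟨j, hj⟩
    exact nPt_ne_corner hn k j s h0 h1 hj
  unfold Gauge.vlab
  rw [dif_neg h]

variable {M : ℕ} {P : ZMod M → ℂ} {N : Net P}

/-- The phases of a folding to a surface with a gauge. -/
theorem Gauge.signs (G : Gauge S q) (hn : 3 ≤ n) (φ : Folding N S) (hst : φ.SideTiled)
    (t₀ : N.Tri) :
    ∃ (can : Fin (4 * q) → N.Tri × ZMod 3 → Prop) (ε H : N.Tri × ZMod 3 → ℂ),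
      (∀ v v' c c', can v c → can v' c' → φ.nu.SameCycle c c' → c = c') ∧
      (∀ v c c', can v c → can v c' → c = c') ∧ (∀ e, ε (φ.pair e) * ε e = 1) ∧
      (∀ e, ε e ^ (2 * n) = 1) ∧ (∀ e, N.adj e ≠ e → ε e = 1) ∧ (∀ e, H e ≠ 0) ∧
      (∀ e, (∀ v, ¬ can v e) → ε e * H e = H (φ.nu e)) ∧
      (∀ e, (∃ v, can v e) → ε e * H e = H (φ.nu e) * ζ (2 * n) ^ G.γ.val) ∧
      (∀ e, N.vec (φ.pair e) = -(ε e * N.vec e)) := by
  have : NeZero n := ⟨by omega⟩
  have : NeZero (2 * n) := ⟨by omega⟩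
  have hZ0 : ζ (2 * n) ≠ 0 := (ζ_primitive (by omega)).ne_zero (by omega)
  set Z : ZMod (2 * n) → ℂ := fun x => ζ (2 * n) ^ x.val with hZ
  have Zadd : ∀ x y, Z (x + y) = Z x * Z y := fun x y => ζ_pow_val_add x y
  have Z0 : Z 0 = 1 := by
    simp only [hZ]
    rw [ZMod.val_zero, pow_zero]
  have Zne : ∀ x, Z x ≠ 0 := fun x => pow_ne_zero _ hZ0
  have Znat : ∀ m : ℕ, Z (m : ZMod (2 * n)) = ζ (2 * n) ^ m := by
    intro m
    simp only [hZ]
    apply ζ_pow_eq (by omega)
    rw [ZMod.val_natCast]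
    exact Nat.mod_modEq _ _
  have Zpow : ∀ x, Z x ^ (2 * n) = 1 := by
    intro x
    simp only [hZ]
    rw [← pow_mul, mul_comm x.val (2 * n), pow_mul, (ζ_primitive (by omega)).pow_eq_one, one_pow]
  have hζn : ζ (2 * n) ^ 2 = ζ n := by
    rw [ζ_eq_cis _ (by omega), ζ_eq_cis _ (by omega), cis_pow]
    congr 1
    have : (n : ℝ) ≠ 0 := by exact_mod_cast (NeZero.ne n)
    push_cast
    field_simp
  have hζm : ζ (2 * n) ^ n = -1 := by
    rw [ζ_eq_cis _ (by omega), cis_pow, ← cis_pi]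
    congr 1
    have : (n : ℝ) ≠ 0 := by exact_mod_cast (NeZero.ne n)
    push_cast
    field_simp
  have ZsExp : ∀ k k' : ZMod n, Z (sExp n k k') = -(ζ n ^ (k' - k).val) := by
    intro k k'
    unfold sExp
    rw [Znat, pow_add, pow_mul, hζn, hζm]
    ring
  have sExp_symm : ∀ k k' : ZMod n, Z (sExp n k' k) * Z (sExp n k k') = 1 := by
    intro k k'
    rw [ZsExp, ZsExp, neg_mul_neg, ← ζ_pow_val_add]
    have : k - k' + (k' - k) = 0 := by ring
    rw [this, ZMod.val_zero, pow_zero]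
  set R := φ.rot t₀ with hR
  have hσ : ∀ t, ∃ σ : ZMod (2 * n), φ.rot t = Z σ * R := by
    intro t
    refine φ.rot_induct (fun t => ∃ σ : ZMod (2 * n), φ.rot t = Z σ * R) t₀ ?_ ?_ ?_ t
    · refine ⟨0, ?_⟩
      rw [Z0, one_mul]
    · rintro a b h1 h2 ⟨σ, h4⟩
      exact ⟨σ, by rw [h2, h4]⟩
    · rintro a b k h1 h2 ⟨σ, h4⟩
      refine ⟨σ - sExp n k (S.glue (φ.face a, k)).2, ?_⟩
      set k' := (S.glue (φ.face a, k)).2
      have h5 := ZsExp k k'
      apply mul_right_cancel₀ (Zne (sExp n k k'))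
      calc φ.rot b * Z (sExp n k k') = -(φ.rot b * ζ n ^ (k' - k).val) := by rw [h5]; ring
        _ = φ.rot a := by rw [h2]; ring
        _ = Z (σ - sExp n k k' + sExp n k k') * R := by rw [sub_add_cancel, h4]
        _ = _ := by rw [Zadd]; ring
  choose σ hσ using hσ
  let se : N.Tri × ZMod 3 → ZMod (2 * n) := fun e => match φ.side e with
    | none => 0
    | some k => sExp n k (S.glue (φ.face e.1, k)).2
  have hse0 : ∀ e, φ.side e = none → se e = 0 := by
    intro e h
    simp only [se, h]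
  have hse1 : ∀ e k, φ.side e = some k → se e = sExp n k (S.glue (φ.face e.1, k)).2 := by
    intro e k h
    simp only [se, h]
  let ε : N.Tri × ZMod 3 → ℂ := fun e => Z (σ (φ.pair e).1 - σ e.1 + se e)
  have hεdef : ∀ e, ε e = Z (σ (φ.pair e).1 - σ e.1 + se e) := fun _ => rfl
  have hvec : ∀ e, N.vec (φ.pair e) = -(ε e * N.vec e) := by
    intro e
    have h1 : Z (σ (φ.pair e).1 - σ e.1 + se e) * Z (σ e.1) = Z (σ (φ.pair e).1) * Z (se e) := by
      rw [← Zadd, ← Zadd]
      congr 1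
      ring
    rcases h : φ.side e with _ | k
    · rw [φ.vec_pair_inner e h, φ.vec_eq e, hσ, hσ e.1, hεdef]
      rw [hse0 e h, Z0] at h1
      rw [hse0 e h]
      linear_combination (R * φ.dloc e) * h1
    · rw [φ.vec_pair_outer e k h, φ.vec_eq e, hσ, hσ e.1, hεdef]
      rw [hse1 e k h] at h1 ⊢
      have h5 := ZsExp k (S.glue (φ.face e.1, k)).2
      rw [h5] at h1
      linear_combination (R * φ.dloc e) * h1
  let can : Fin (4 * q) → N.Tri × ZMod 3 → Prop := fun v e => φ.face e.1 = (G.canon v).1 ∧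
    φ.side e = some (G.canon v).2 ∧ φ.loc e.1 e.2 = corner n (G.canon v).2
  have hcan2 : ∀ v c c', can v c → can v c' → c = c' := by
    rintro v c c' ⟨h1, h2, h3⟩ ⟨h4, h5, h6⟩
    exact hst c c' _ h2 h5 (by rw [h1, h4]) (by rw [h3, h6])
  have hnu1 : ∀ e, (φ.nu e).1 = (φ.pair e).1 := fun _ => rfl
  have hnu2 : ∀ e, (φ.nu e).2 = (φ.pair e).2 + 1 := fun _ => rfl
  have hloc : ∀ e k s, φ.side e = some k → φ.loc e.1 e.2 = nPt n k s →
      φ.loc (φ.nu e).1 (φ.nu e).2 = nPt n (S.glue (φ.face e.1, k)).2 (1 - s) := by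
    intro e k s h1 h2
    obtain ⟨_, _, _, h4⟩ := φ.outer e k h1
    rw [hnu1, hnu2, h4, h2, motion_nPt (by omega)]
  have hface : ∀ e k, φ.side e = some k → φ.face (φ.nu e).1 = (S.glue (φ.face e.1, k)).1 := by
    intro e k h1
    obtain ⟨_, h2, _, _⟩ := φ.outer e k h1
    exact h2
  -- the vertex labels are invariant
  have hvl : ∀ e, G.vlab (φ.face (φ.nu e).1) (φ.loc (φ.nu e).1 (φ.nu e).2) =
      G.vlab (φ.face e.1) (φ.loc e.1 e.2) := by
    intro e
    rcases h : φ.side e with _ | k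
    · obtain ⟨_, h2, _, h4⟩ := φ.inner e h
      rw [hnu1, hnu2, h2, h4]
    · obtain ⟨s, t, hs0, hst', ht1, hs, _⟩ := φ.on_side e k h
      have hs' : φ.loc e.1 e.2 = nPt n k s := hs
      rw [hloc e k s h hs', hface e k h, hs']
      rcases eq_or_lt_of_le hs0 with h0 | h0
      · rw [← h0, sub_zero, nPt_one, nPt_zero, G.vlab_corner hn, G.vlab_corner hn]
        rw [G.lab_glue]
      · rw [G.vlab_side hn _ _ s h0 (by linarith),
          G.vlab_side hn _ _ (1 - s) (by linarith) (by linarith)]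
  have hvlpow : ∀ (m : ℕ) e, G.vlab (φ.face ((φ.nu ^ m) e).1)
      (φ.loc ((φ.nu ^ m) e).1 ((φ.nu ^ m) e).2) = G.vlab (φ.face e.1) (φ.loc e.1 e.2) := by
    intro m
    induction m with
    | zero => intro e; rfl
    | succ m ih =>
      intro e
      rw [pow_succ', Equiv.Perm.mul_apply, hvl, ih]
  have hcan : ∀ v v' c c', can v c → can v' c' → φ.nu.SameCycle c c' → c = c' := by
    rintro v v' c c' hc hc' hs
    obtain ⟨m, hm⟩ := hs.exists_nat_pow_eq
    have h1 := hvlpow m c
    rw [hm] at h1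
    obtain ⟨h2, _, h3⟩ := hc
    obtain ⟨h4, _, h5⟩ := hc'
    have h6 := G.lab_canon v
    have h7 := G.lab_canon v'
    rw [h2, h3, h4, h5, G.vlab_corner hn, G.vlab_corner hn, h6, h7] at h1
    have h8 : v' = v := by simpa using h1
    subst h8
    exact hcan2 v' c c' ⟨h2, by assumption, h3⟩ ⟨h4, by assumption, h5⟩
  refine ⟨can, ε, fun e => Z (σ e.1 + G.frame (φ.face e.1) (φ.loc e.1 e.2)), hcan, hcan2, ?_,
    fun e => Zpow _, ?_, fun e => Zne _, ?_, ?_, hvec⟩
  · intro e
    rw [hεdef, hεdef, φ.pair_pair]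
    have h1 : Z (se (φ.pair e)) * Z (se e) = 1 := by
      rcases h : φ.side e with _ | k
      · obtain ⟨h1, _, _, _⟩ := φ.inner e h
        rw [hse0 e h, hse0 _ h1, Z0, mul_one]
      · obtain ⟨h1, h2, _, _⟩ := φ.outer e k h
        rw [hse1 e k h, hse1 _ _ h1, h2]
        have h3 : S.glue ((S.glue (φ.face e.1, k)).1, (S.glue (φ.face e.1, k)).2) =
            (φ.face e.1, k) := S.glue_glue _
        rw [h3]
        exact sExp_symm _ _
    rw [← Zadd] at h1 ⊢
    rw [← h1]
    congr 1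
    ring
  · intro e he
    have h1 := hvec e
    rw [φ.vec_pair_adj e he] at h1
    have h2 : (ε e - 1) * N.vec e = 0 := by linear_combination h1
    rcases mul_eq_zero.mp h2 with h3 | h3
    · exact sub_eq_zero.mp h3
    · exact absurd h3 (N.vec_ne_zero e)
  · intro e hno
    rw [hεdef]
    change Z _ * Z _ = Z _
    rw [← Zadd]
    congr 1
    rcases h : φ.side e with _ | k
    · obtain ⟨_, h2, _, h4⟩ := φ.inner e h
      rw [hnu1, hnu2, h2, h4, hse0 e h]
      ring
    · obtain ⟨s, t, hs0, hst', ht1, hs, _⟩ := φ.on_side e k h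
      have hs' : φ.loc e.1 e.2 = nPt n k s := hs
      rw [hloc e k s h hs', hface e k h, hs', hse1 e k h, hnu1]
      rcases eq_or_lt_of_le hs0 with h0 | h0
      · rw [← h0, sub_zero, nPt_one, nPt_zero, G.frame_corner hn, G.frame_corner hn]
        have h5 := G.corner_eq (φ.face e.1, k) (by
          intro v hv
          refine hno v ⟨?_, ?_, ?_⟩
          · rw [hv]
          · rw [hv, h]
          · rw [hs', ← h0, nPt_zero, hv])
        simp only at h5
        rw [← h5]
        ring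
      · rw [G.frame_side hn _ _ s h0 (by linarith),
          G.frame_side hn _ _ (1 - s) (by linarith) (by linarith)]
        have h5 := G.side_eq (φ.face e.1, k)
        simp only at h5
        rw [← h5]
        ring
  · rintro e ⟨v, h1, h2, h3⟩
    rw [hεdef]
    change Z _ * Z _ = Z _ * Z _
    rw [← Zadd, ← Zadd]
    congr 1
    obtain ⟨h4, h5, _, _⟩ := φ.outer e _ h2
    have h6 := hloc e _ 0 h2 (by rw [nPt_zero]; exact h3)
    have h7 := hface e _ h2
    have h8 := G.corner_bad v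
    rw [h7, h6, hse1 e _ h2, hnu1, h1, h3, sub_zero, nPt_one, G.frame_corner hn,
      G.frame_corner hn]
    have h9 : ((G.canon v).1, (G.canon v).2) = G.canon v := rfl
    rw [h9]
    linear_combination h8

end

end Pool.Agent.H69.Unfold
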