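import Pool.Agent.H69.FoldFormC
import Pool.Agent.H69.FoldTetra

set_option autoImplicit false

namespace Pool.Agent.H69.Unfold

open Complex

/-! ### Sides and corners of regular polygons -/

lemma ζ_eq_cis (n : ℕ) (hn : n ≠ 0) : ζ n = cis (2 * (Real.pi / n)) := by
  unfold ζ cis
  congr 1
  have : (n : ℂ) ≠ 0 := by exact_mod_cast hn
  push_cast
  field_simp

lemma cis_pow (κ : ℝ) (m : ℕ) : cis κ ^ m = cis (m * κ) := by
  unfold cis
  rw [← Complex.exp_nat_mul]
  congr 1
  push_cast
  ring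

lemma cis_neg (κ : ℝ) : cis (-κ) * cis κ = 1 := by
  rw [← cis_add]
  simp [cis]

lemma cis_sub_cis_neg (κ : ℝ) : cis κ - cis (-κ) = 2 * Complex.I * (Real.sin κ : ℂ) := by
  have h : 2 * Complex.I * (Real.sin κ : ℂ) = ((2 * Real.sin κ : ℝ) : ℂ) * Complex.I := by
    rw [Complex.ofReal_mul]
    push_cast
    ring
  rw [h]
  apply Complex.ext
  · rw [Complex.sub_re, cis_re, cis_re, Real.cos_neg, Complex.mul_I_re, Complex.ofReal_im]
    ring
  · rw [Complex.sub_im, cis_im, cis_im, Real.sin_neg, Complex.mul_I_im, Complex.ofReal_re]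
    ring

lemma geom_im_pos {n : ℕ} (m : ℕ) (hm : 2 ≤ m) (hmn : m < n) :
    0 < ((ζ n ^ m - 1) / (ζ n - 1)).im := by
  have hn0 : n ≠ 0 := by omega
  have hnr : (0 : ℝ) < n := by exact_mod_cast Nat.pos_of_ne_zero hn0
  set θ := Real.pi / n with hθ
  have hθ0 : 0 < θ := by
    have := Real.pi_pos
    positivity
  have hnθ : n * θ = Real.pi := by
    rw [hθ]
    field_simp
  have hmr : (2 : ℝ) ≤ m := by exact_mod_cast hm
  have hmnr : (m : ℝ) + 1 ≤ n := by exact_mod_cast hmn
  have hsin : 0 < Real.sin θ := by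
    apply Real.sin_pos_of_pos_of_lt_pi hθ0
    nlinarith
  have hsinm : 0 < Real.sin (m * θ) := by
    apply Real.sin_pos_of_pos_of_lt_pi
    · positivity
    · nlinarith
  have hsinm1 : 0 < Real.sin ((m - 1) * θ) := by
    apply Real.sin_pos_of_pos_of_lt_pi
    · nlinarith
    · nlinarith
  have hζ1 : ζ n - 1 ≠ 0 := sub_ne_zero.mpr (ζ_ne_one (by omega))
  have key : (ζ n ^ m - 1) * (Real.sin θ : ℂ) =
      (ζ n - 1) * (cis ((m - 1) * θ) * (Real.sin (m * θ) : ℂ)) := by
    have h1 := cis_sub_cis_neg θ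
    have h2 := cis_sub_cis_neg (m * θ)
    have h3 : ζ n ^ m = cis (m * θ) * cis (m * θ) := by
      rw [ζ_eq_cis n hn0, cis_pow, ← cis_add, ← hθ]
      congr 1
      ring
    have h4 : ζ n = cis θ * cis θ := by
      rw [ζ_eq_cis n hn0, ← cis_add, ← hθ]
      congr 1
      ring
    have h5 := cis_neg θ
    have h6 := cis_neg (m * θ)
    have h7 : cis ((m - 1) * θ) = cis (m * θ) * cis (-θ) := by
      rw [← cis_add]
      congr 1
      ring
    have h8 : (2 * Complex.I) * ((ζ n ^ m - 1) * (Real.sin θ : ℂ)) =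
        (2 * Complex.I) * ((ζ n - 1) * (cis ((m - 1) * θ) * (Real.sin (m * θ) : ℂ))) := by
      calc (2 * Complex.I) * ((ζ n ^ m - 1) * (Real.sin θ : ℂ))
          = (ζ n ^ m - 1) * (2 * Complex.I * (Real.sin θ : ℂ)) := by ring
        _ = (ζ n - 1) * (cis ((m - 1) * θ) * (2 * Complex.I * (Real.sin (m * θ) : ℂ))) := by
            rw [← h1, ← h2, h3, h4, h7]
            linear_combination
              (-(cis (m * θ) * cis (m * θ)) * cis θ + cis (m * θ) * cis (-(m * θ)) * cis θ) * h5 +
              (cis θ - cis (-θ)) * h6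
        _ = _ := by ring
    exact mul_left_cancel₀ (mul_ne_zero two_ne_zero Complex.I_ne_zero) h8
  have h9 : (ζ n ^ m - 1) / (ζ n - 1) =
      cis ((m - 1) * θ) * ((Real.sin (m * θ) / Real.sin θ : ℝ) : ℂ) := by
    have hsinc : (Real.sin θ : ℂ) ≠ 0 := by exact_mod_cast hsin.ne'
    rw [div_eq_iff hζ1, Complex.ofReal_div]
    field_simp
    linear_combination key
  rw [h9, mul_comm, Complex.im_ofReal_mul, cis_im]
  positivity

/-- a point on side `k` of the standard `n`-gon -/
noncomputable def nPt (n : ℕ) (k : ZMod n) (s : ℝ) : ℂ :=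
  corner n k + s * (corner n (k + 1) - corner n k)

lemma nPt_zero {n : ℕ} (k : ZMod n) : nPt n k 0 = corner n k := by
  unfold nPt
  simp

lemma nPt_one {n : ℕ} (k : ZMod n) : nPt n k 1 = corner n (k + 1) := by
  unfold nPt
  push_cast
  ring

lemma motion_nPt {n : ℕ} (hn : 2 ≤ n) (k k' : ZMod n) (s : ℝ) :
    motion n k k' (nPt n k s) = nPt n k' (1 - s) := by
  have h1 := motion_corner (n := n) k k'
  have h2 := motion_corner_succ (n := n) hn k k'
  rw [motion_eq] at h1 h2
  unfold nPt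
  rw [motion_eq]
  push_cast
  linear_combination (1 - (s : ℂ)) * h1 + (s : ℂ) * h2

/-- distance from the line of side `k` -/
noncomputable def lam (n : ℕ) (k : ZMod n) (z : ℂ) : ℝ := cross (ζ n ^ k.val) (z - corner n k)

lemma lam_corner_self {n : ℕ} (k : ZMod n) : lam n k (corner n k) = 0 := by
  unfold lam
  rw [sub_self, cross_zero_right]

lemma lam_corner_succ {n : ℕ} (hn : 2 ≤ n) (k : ZMod n) : lam n k (corner n (k + 1)) = 0 := by
  unfold lam
  rw [corner_succ_sub hn, cross_self]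

lemma lam_corner_pos {n : ℕ} (hn : 3 ≤ n) (k j : ZMod n) (h1 : j ≠ k) (h2 : j ≠ k + 1) :
    0 < lam n k (corner n j) := by
  have : NeZero n := ⟨by omega⟩
  set m := (j - k).val with hm
  have hj : j = k + (m : ZMod n) := by
    rw [hm, ZMod.natCast_zmod_val]
    ring
  have hmn : m < n := ZMod.val_lt _
  have hm2 : 2 ≤ m := by
    by_contra hcon
    have : m = 0 ∨ m = 1 := by omega
    rcases this with h | h
    · apply h1
      rw [hj, h]
      simp
    · apply h2
      rw [hj, h]
      simp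
  have hζ1 : ζ n - 1 ≠ 0 := sub_ne_zero.mpr (ζ_ne_one (by omega))
  have hval : corner n j - corner n k = ζ n ^ k.val * ((ζ n ^ m - 1) / (ζ n - 1)) := by
    unfold corner
    rw [hj, ζ_pow_val_add, ZMod.val_natCast, Nat.mod_eq_of_lt hmn]
    field_simp
  unfold lam
  rw [hval]
  have h3 : cross (ζ n ^ k.val) (ζ n ^ k.val * ((ζ n ^ m - 1) / (ζ n - 1))) =
      cross (ζ n ^ k.val * 1) (ζ n ^ k.val * ((ζ n ^ m - 1) / (ζ n - 1))) := by rw [mul_one]
  rw [h3, cross_mul_mul, norm_ζ_pow (by omega)]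
  have h4 : cross 1 ((ζ n ^ m - 1) / (ζ n - 1)) = ((ζ n ^ m - 1) / (ζ n - 1)).im := by
    unfold cross
    simp
  rw [h4]
  have := geom_im_pos m hm2 hmn
  linarith

lemma lam_corner_nonneg {n : ℕ} (hn : 3 ≤ n) (k j : ZMod n) : 0 ≤ lam n k (corner n j) := by
  by_cases h1 : j = k
  · rw [h1, lam_corner_self]
  · by_cases h2 : j = k + 1
    · rw [h2, lam_corner_succ (by omega)]
    · exact (lam_corner_pos hn k j h1 h2).le

lemma lam_corner_eq {n : ℕ} (hn : 3 ≤ n) (k j : ZMod n) (h : lam n k (corner n j) = 0) :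
    j = k ∨ j = k + 1 := by
  by_contra hcon
  push Not at hcon
  have := lam_corner_pos hn k j hcon.1 hcon.2
  linarith

lemma lam_nPt {n : ℕ} (k k' : ZMod n) (s : ℝ) :
    lam n k (nPt n k' s) = (1 - s) * lam n k (corner n k') + s * lam n k (corner n (k' + 1)) := by
  unfold lam nPt
  have h : corner n k' + s * (corner n (k' + 1) - corner n k') - corner n k =
      ((1 - s : ℝ) : ℂ) * (corner n k' - corner n k) +
        (s : ℂ) * (corner n (k' + 1) - corner n k) := by
    push_cast
    ring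
  rw [h, cross_add_right]
  have h2 : ∀ (t : ℝ) (x y : ℂ), cross x ((t : ℂ) * y) = t * cross x y := by
    intro t x y
    unfold cross
    rw [mul_left_comm, Complex.im_ofReal_mul]
  rw [h2, h2]

lemma corner_succ_ne {n : ℕ} (hn : 2 ≤ n) (k : ZMod n) : corner n (k + 1) ≠ corner n k := by
  intro h
  have h1 := corner_succ_sub hn k
  rw [h, sub_self] at h1
  have h2 : ζ n ≠ 0 := (ζ_primitive (by omega)).ne_zero (by omega)
  exact pow_ne_zero _ h2 h1.symm

lemma corner_inj {n : ℕ} (hn : 3 ≤ n) (j k : ZMod n) (h : corner n j = corner n k) : j = k := by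
  have h1 : lam n k (corner n j) = 0 := by rw [h, lam_corner_self]
  rcases lam_corner_eq hn k j h1 with h2 | h2
  · exact h2
  · rw [h2] at h
    exact absurd h (corner_succ_ne (by omega) k)

lemma nPt_eq_corner_imp {n : ℕ} (hn : 2 ≤ n) (k : ZMod n) (s t : ℝ) (h : nPt n k s = nPt n k t) :
    s = t := by
  unfold nPt at h
  have h1 := corner_succ_ne hn k
  have h2 : ((s : ℂ) - t) * (corner n (k + 1) - corner n k) = 0 := by linear_combination h
  rcases mul_eq_zero.mp h2 with h3 | h3
  · have : (s : ℂ) = t := by linear_combination h3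
    exact_mod_cast this
  · exact absurd (sub_eq_zero.mp h3) h1

lemma nPt_ne_corner {n : ℕ} (hn : 3 ≤ n) (k j : ZMod n) (s : ℝ) (h0 : 0 < s) (h1 : s < 1) :
    nPt n k s ≠ corner n j := by
  intro h
  have h2 : lam n k (corner n j) = 0 := by
    rw [← h, lam_nPt, lam_corner_self, lam_corner_succ (by omega)]
    ring
  rcases lam_corner_eq hn k j h2 with h3 | h3
  · rw [h3, ← nPt_zero] at h
    have := nPt_eq_corner_imp (by omega) k s 0 h
    linarith
  · rw [h3, ← nPt_one] at h
    have := nPt_eq_corner_imp (by omega) k s 1 h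
    linarith

lemma nPt_inj {n : ℕ} (hn : 3 ≤ n) (k k' : ZMod n) (s s' : ℝ) (h0' : 0 < s') (h1' : s' < 1)
    (h : nPt n k s = nPt n k' s') : k' = k := by
  have : NeZero n := ⟨by omega⟩
  have h2 : lam n k (nPt n k' s') = 0 := by
    rw [← h, lam_nPt, lam_corner_self, lam_corner_succ (by omega)]
    ring
  rw [lam_nPt] at h2
  have h3 := lam_corner_nonneg hn k k'
  have h4 := lam_corner_nonneg hn k (k' + 1)
  have h5 : lam n k (corner n k') = 0 := by
    by_contra hne
    have : 0 < lam n k (corner n k') := lt_of_le_of_ne h3 (Ne.symm hne)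
    nlinarith [mul_pos (show (0:ℝ) < 1 - s' by linarith) this, mul_nonneg h0'.le h4]
  have h6 : lam n k (corner n (k' + 1)) = 0 := by
    by_contra hne
    have : 0 < lam n k (corner n (k' + 1)) := lt_of_le_of_ne h4 (Ne.symm hne)
    nlinarith [mul_pos h0' this, mul_nonneg (show (0:ℝ) ≤ 1 - s' by linarith) h3]
  rcases lam_corner_eq hn k k' h5 with h7 | h7
  · exact h7
  · rcases lam_corner_eq hn k (k' + 1) h6 with h8 | h8
    · exfalso
      rw [h7] at h8
      have h9 : (2 : ZMod n) = 0 := by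
        have : k + 1 + 1 = k + 2 := by ring
        rw [this] at h8
        exact left_eq_add.mp h8.symm
      have h10 : ((2 : ℕ) : ZMod n) = 0 := by exact_mod_cast h9
      rw [ZMod.natCast_eq_zero_iff] at h10
      have := Nat.le_of_dvd (by norm_num) h10
      omega
    · exact add_right_cancel h8

end Pool.Agent.H69.Unfold
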