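import Pool.Agent.H69.ClassC

set_option autoImplicit false

namespace Pool.Agent.H69.Unfold

open Complex

variable {M : ℕ} {P : ZMod M → ℂ}

lemma cubeGauge_hol : ζ (2 * 4) ^ cubeGauge.γ.val * cis (Real.pi / (2 : ℕ)) = 1 := by
  have h1 : cubeGauge.γ.val = 6 := by decide
  rw [h1, ζ_eq_cis _ (by norm_num), cis_pow, ← cis_add]
  have h2 : ((6 : ℕ) : ℝ) * (2 * (Real.pi / ((2 * 4 : ℕ) : ℝ))) + Real.pi / ((2 : ℕ) : ℝ) =
      2 * Real.pi := by
    push_cast
    ring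
  rw [h2]
  have h3 := cis_add Real.pi Real.pi
  rw [← two_mul, cis_pi] at h3
  rw [h3]
  norm_num

lemma dodecaGauge_hol : ζ (2 * 5) ^ dodecaGauge.γ.val * cis (Real.pi / (5 : ℕ)) = 1 := by
  have h1 : dodecaGauge.γ.val = 9 := by decide
  rw [h1, ζ_eq_cis _ (by norm_num), cis_pow, ← cis_add]
  have h2 : ((9 : ℕ) : ℝ) * (2 * (Real.pi / ((2 * 5 : ℕ) : ℝ))) + Real.pi / ((5 : ℕ) : ℝ) =
      2 * Real.pi := by
    push_cast
    ring
  rw [h2]
  have h3 := cis_add Real.pi Real.pi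
  rw [← two_mul, cis_pi] at h3
  rw [h3]
  norm_num

/-- No simple polygon folds both to the cube and to the regular octahedron. -/
theorem no_cube_octa [NeZero M] (hP : IsSimplePolygon P) (N₁ N₂ : Net P)
    (φ₁ : Folding N₁ cube) (hnc₁ : φ₁.NonCrossing) (hst₁ : φ₁.SideTiled)
    (φ₂ : Folding N₂ octa) (hnc₂ : φ₂.NonCrossing) : False :=
  no_gauge_octa hP (n := 4) (by norm_num) (by norm_num) cube_glue_ne
    (by rw [cube_card]; norm_num) (q := 2) (by norm_num) cubeGauge cubeGauge_hol 9 (by norm_num)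
    (by norm_num) (by norm_num) N₁ N₂ φ₁ hnc₁ hst₁ φ₂ hnc₂

/-- No simple polygon folds both to the regular dodecahedron and to the regular octahedron. -/
theorem no_dodeca_octa [NeZero M] (hP : IsSimplePolygon P) (N₁ N₂ : Net P)
    (φ₁ : Folding N₁ dodeca) (hnc₁ : φ₁.NonCrossing) (hst₁ : φ₁.SideTiled)
    (φ₂ : Folding N₂ octa) (hnc₂ : φ₂.NonCrossing) : False :=
  no_gauge_octa hP (n := 5) (by norm_num) (by norm_num) dodeca_glue_ne
    (by rw [dodeca_card]; norm_num) (q := 5) (by norm_num) dodecaGauge dodecaGauge_hol 21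
    (by norm_num) (by norm_num) (by norm_num) N₁ N₂ φ₁ hnc₁ hst₁ φ₂ hnc₂

end Pool.Agent.H69.Unfold
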