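import Mathlib

set_option autoImplicit false

namespace Pool.Agent.H69.Unfold

/-- `p` is a planar (non crossing) pairing without fixed points of the positions `0, ..., n-1`. -/
structure PWord (n : ℕ) (p : ℕ → ℕ) : Prop where
  lt : ∀ i < n, p i < n
  inv : ∀ i < n, p (p i) = i
  ne : ∀ i < n, p i ≠ i
  nc : ∀ a b c d, a < b → b < c → c < d → d < n → p a = c → p b = d → False

namespace PWord

variable {n : ℕ} {p : ℕ → ℕ}

lemma inj (h : PWord n p) {a b : ℕ} (ha : a < n) (hb : b < n) (hab : p a = p b) : a = b := by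
  rw [← h.inv a ha, ← h.inv b hb, hab]

/-- the positions strictly between two partners are paired among themselves -/
lemma inner (h : PWord n p) {m q : ℕ} (hm : m < n) (h1 : m < q) (h2 : q < p m) :
    m < p q ∧ p q < p m := by
  have hpm : p m < n := h.lt m hm
  have hq : q < n := lt_trans h2 hpm
  have hpq := h.lt q hq
  have hne1 : p q ≠ m := by
    intro h'
    have : q = p m := by rw [← h.inv q hq, h']
    omega
  have hne2 : p q ≠ p m := by
    intro h'
    have := h.inj hq hm h'
    omega
  constructor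
  · by_contra hcon
    have hlt : p q < m := lt_of_le_of_ne (not_lt.mp hcon) hne1
    exact h.nc (p q) m q (p m) hlt h1 h2 hpm (h.inv q hq) rfl
  · by_contra hcon
    have hlt : p m < p q := lt_of_le_of_ne (not_lt.mp hcon) (Ne.symm hne2)
    exact h.nc m q (p m) (p q) h1 h2 hlt hpq rfl rfl

/-- the recursion along a planar word -/
theorem block (h : PWord n p) (ε H F : ℕ → ℝ) (bad : ℕ → Prop)
    (hε : ∀ i < n, ε (p i) = ε i) (hε2 : ∀ i < n, ε i * ε i = 1) (hH : ∀ i, H i * H i = 1)
    (hbad : ∀ i < n, (bad i ↔ bad (p i + 1)))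
    (hgood : ∀ i < n, ¬ bad i → ε i = H i * H (p i + 1))
    (hF : ∀ i < n, F (p i + 1) - F (p i) = -(ε i * (F (i + 1) - F i)))
    (hzero : ∀ m < n, m < p m → bad (m + 1) → F (m + 1) = 0) :
    ∀ k a b : ℕ, b - a ≤ k → a ≤ b → b ≤ n → (∀ q, a ≤ q → q < b → a ≤ p q ∧ p q < b) →
      (bad a ↔ bad b) ∧ (¬ bad a → H b * F b = H a * F a) ∧ (bad a → F a = 0 → F b = 0) ∧
      ∀ q, a ≤ q → q < b → q < p q → F (p q) = ε q * F (q + 1) ∧ F (p q + 1) = ε q * F q := by
  intro k
  induction k with
  | zero =>
    intro a b hk hab hbn hcl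
    have : a = b := by omega
    subst this
    exact ⟨Iff.rfl, fun _ => rfl, fun _ h => h, fun q h1 h2 => by omega⟩
  | succ k ih =>
    intro a b hk hab hbn hcl
    rcases Nat.eq_or_lt_of_le hab with heq | hlt
    · subst heq
      exact ⟨Iff.rfl, fun _ => rfl, fun _ h => h, fun q h1 h2 => by omega⟩
    have han : a < n := lt_of_lt_of_le hlt hbn
    obtain ⟨h1, h2⟩ := hcl a le_rfl hlt
    have hne := h.ne a han
    have hapa : a < p a := lt_of_le_of_ne h1 (Ne.symm hne)
    -- inner block
    obtain ⟨i1, i2, i3, i4⟩ := ih (a + 1) (p a) (by omega) (by omega) (by omega) (by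
      intro q hq1 hq2
      obtain ⟨h3, h4⟩ := h.inner han (show a < q by omega) hq2
      exact ⟨by omega, h4⟩)
    -- rest
    obtain ⟨r1, r2, r3, r4⟩ := ih (p a + 1) b (by omega) (by omega) hbn (by
      intro q hq1 hq2
      obtain ⟨h3, h4⟩ := hcl q (by omega) hq2
      refine ⟨?_, h4⟩
      have hqn : q < n := by omega
      by_contra hcon
      have hle : p q ≤ p a := by omega
      have hne2 : p q ≠ p a := fun h' => by
        have := h.inj hqn han h'
        omega
      rcases Nat.eq_or_lt_of_le h3 with h5 | h5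
      · have : q = p a := by rw [← h.inv q hqn, ← h5]
        omega
      · obtain ⟨h6, h7⟩ := h.inner han h5 (lt_of_le_of_ne hle hne2)
        rw [h.inv q hqn] at h7
        omega)
    have hpan : p a < n := h.lt a han
    have key : F (p a) = ε a * F (a + 1) := by
      by_cases hb : bad (a + 1)
      · have h0 := hzero a han hapa hb
        rw [h0, i3 hb h0, mul_zero]
      · have h5 := i2 hb
        have hb' : ¬ bad (p a) := fun h' => hb (i1.mpr h')
        have h6 := hgood (p a) hpan hb'
        rw [h.inv a han, hε a han] at h6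
        rw [h6]
        have h7 := hH (p a)
        calc F (p a) = H (p a) * (H (p a) * F (p a)) := by rw [← mul_assoc, h7, one_mul]
          _ = H (p a) * H (a + 1) * F (a + 1) := by rw [h5]; ring
    have key2 : F (p a + 1) = ε a * F a := by
      have := hF a han
      rw [key] at this
      linarith
    refine ⟨(hbad a han).trans r1, ?_, ?_, ?_⟩
    · intro hb
      have hb' : ¬ bad (p a + 1) := fun h' => hb ((hbad a han).mpr h')
      rw [r2 hb', key2, hgood a han hb]
      have h7 := hH (p a + 1)
      calc H (p a + 1) * (H a * H (p a + 1) * F a) = (H (p a + 1) * H (p a + 1)) * (H a * F a) := by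
            ring
        _ = H a * F a := by rw [h7, one_mul]
    · intro hb h0
      apply r3 ((hbad a han).mp hb)
      rw [key2, h0, mul_zero]
    · intro q hq1 hq2 hq3
      rcases Nat.eq_or_lt_of_le hq1 with h5 | h5
      · rw [← h5]
        exact ⟨key, key2⟩
      · rcases Nat.lt_or_ge q (p a) with h6 | h6
        · exact i4 q h5 h6 hq3
        · rcases Nat.eq_or_lt_of_le h6 with h7 | h7
          · exfalso
            rw [← h7, h.inv a han] at hq3
            omega
          · exact r4 q h7 hq2 hq3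

/-- A function that is equivariant for all glueings. -/
theorem equivariant (h : PWord n p) (ε H F : ℕ → ℝ) (bad : ℕ → Prop)
    (hε : ∀ i < n, ε (p i) = ε i) (hε2 : ∀ i < n, ε i * ε i = 1) (hH : ∀ i, H i * H i = 1)
    (hbad : ∀ i < n, (bad i ↔ bad (p i + 1)))
    (hgood : ∀ i < n, ¬ bad i → ε i = H i * H (p i + 1))
    (hF : ∀ i < n, F (p i + 1) - F (p i) = -(ε i * (F (i + 1) - F i)))
    (hzero : ∀ m < n, m < p m → bad (m + 1) → F (m + 1) = 0) :
    ∀ q < n, F (p q) = ε q * F (q + 1) ∧ F (p q + 1) = ε q * F q := by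
  obtain ⟨-, -, -, h4⟩ := h.block ε H F bad hε hε2 hH hbad hgood hF hzero n 0 n (by omega)
    (by omega) le_rfl (fun q _ hq => ⟨Nat.zero_le _, h.lt q hq⟩)
  intro q hq
  rcases lt_or_gt_of_ne (h.ne q hq) with h5 | h5
  · have hpq := h.lt q hq
    obtain ⟨h6, h7⟩ := h4 (p q) (Nat.zero_le _) hpq (by rw [h.inv q hq]; exact h5)
    rw [h.inv q hq, hε q hq] at h6 h7
    constructor
    · rw [h7, ← mul_assoc, hε2 q hq, one_mul]
    · rw [h6, ← mul_assoc, hε2 q hq, one_mul]
  · exact h4 q (Nat.zero_le _) hq h5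

/-- The area form of an equivariant function with any other function vanishes. -/
theorem area_zero (h : PWord n p) (ε F G : ℕ → ℝ) (hε2 : ∀ i < n, ε i * ε i = 1)
    (hFeq : ∀ q < n, F (p q) = ε q * F (q + 1) ∧ F (p q + 1) = ε q * F q)
    (hG : ∀ i < n, G (p i + 1) - G (p i) = -(ε i * (G (i + 1) - G i)))
    (hF0 : F n = F 0) (hG0 : G n = G 0) :
    ∑ i ∈ Finset.range n, (F i * G (i + 1) - F (i + 1) * G i) = 0 := by
  have h1 : ∑ i ∈ Finset.range n, (F i * G (i + 1) - F (i + 1) * G i) =
      ∑ i ∈ Finset.range n, (F i + F (i + 1)) * (G (i + 1) - G i) := by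
    have h2 : ∀ i, (F i + F (i + 1)) * (G (i + 1) - G i) =
        (F i * G (i + 1) - F (i + 1) * G i) + (F (i + 1) * G (i + 1) - F i * G i) := by
      intro i
      ring
    simp_rw [h2]
    rw [Finset.sum_add_distrib, Finset.sum_range_sub (fun i => F i * G i), hF0, hG0, sub_self,
      add_zero]
  rw [h1]
  have h3 : ∑ i ∈ Finset.range n, (F i + F (i + 1)) * (G (i + 1) - G i) =
      ∑ i ∈ Finset.range n, (F (p i) + F (p i + 1)) * (G (p i + 1) - G (p i)) := by
    refine Finset.sum_nbij' p p ?_ ?_ ?_ ?_ ?_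
    · intro i hi
      rw [Finset.mem_range] at hi ⊢
      exact h.lt i hi
    · intro i hi
      rw [Finset.mem_range] at hi ⊢
      exact h.lt i hi
    · intro i hi
      rw [Finset.mem_range] at hi
      exact h.inv i hi
    · intro i hi
      rw [Finset.mem_range] at hi
      exact h.inv i hi
    · intro i hi
      rw [Finset.mem_range] at hi
      rw [h.inv i hi]
  have h4 : ∑ i ∈ Finset.range n, (F (p i) + F (p i + 1)) * (G (p i + 1) - G (p i)) =
      - ∑ i ∈ Finset.range n, (F i + F (i + 1)) * (G (i + 1) - G i) := by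
    rw [← Finset.sum_neg_distrib]
    apply Finset.sum_congr rfl
    intro i hi
    rw [Finset.mem_range] at hi
    obtain ⟨h5, h6⟩ := hFeq i hi
    rw [h5, h6, hG i hi]
    have := hε2 i hi
    linear_combination (-(F i + F (i + 1)) * (G (i + 1) - G i)) * this
  linarith

end PWord

end Pool.Agent.H69.Unfold
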