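import Pool.Agent.H69.Gauge

set_option autoImplicit false

namespace Pool.Agent.H69.Unfold

open Complex

/-! ### Surfaces given by the vertices of their faces -/

/-- The list of all sides of `F` faces with `n` sides each. -/
def allSides (F n : ℕ) [NeZero n] : List (Fin F × ZMod n) :=
  (List.finRange F).flatMap fun f => (List.range n).map fun k => (f, (k : ZMod n))

/-- The vertex at corner `j` of face `f`, for the given lists of the vertices of the faces. -/
def vertOf (faces : List (List ℕ)) {F n : ℕ} (f : Fin F) (j : ZMod n) : ℕ :=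
  (faces.getD f.val []).getD j.val 0

/-- The side with the same end points as the side `x` (from corner `k` to corner `k + 1` of its
face), in the opposite order. -/
def matchSide (faces : List (List ℕ)) {F n : ℕ} [NeZero n] (x : Fin F × ZMod n) :
    Fin F × ZMod n :=
  ((allSides F n).find? fun y => vertOf faces y.1 y.2 == vertOf faces x.1 (x.2 + 1) &&
    vertOf faces y.1 (y.2 + 1) == vertOf faces x.1 x.2).getD x

/-- The faces of the cube (vertices counterclockwise seen from outside); the vertex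
`4 x + 2 y + z` has the coordinates `x, y, z ∈ {0, 1}`. -/
def cubeFaces : List (List ℕ) :=
  [[0, 1, 3, 2],
   [0, 4, 5, 1],
   [0, 2, 6, 4],
   [1, 5, 7, 3],
   [2, 3, 7, 6],
   [4, 6, 7, 5]]

lemma cube_glue_glue : ∀ x : Fin 6 × ZMod 4,
    matchSide cubeFaces (matchSide cubeFaces x) = x := by decide +kernel

lemma cube_glue_ne' : ∀ x : Fin 6 × ZMod 4, matchSide cubeFaces x ≠ x := by decide +kernel

/-- Glued sides of the cube have the same end points. -/
lemma cube_glue_vert : ∀ x : Fin 6 × ZMod 4,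
    vertOf cubeFaces (matchSide cubeFaces x).1 (matchSide cubeFaces x).2 =
      vertOf cubeFaces x.1 (x.2 + 1) ∧
    vertOf cubeFaces (matchSide cubeFaces x).1 ((matchSide cubeFaces x).2 + 1) =
      vertOf cubeFaces x.1 x.2 := by decide +kernel

/-- The surface of the cube: 6 regular 4-gons, glued along the sides with the same end
points. -/
def cube : NGonSurface 4 where
  Face := Fin 6
  glue := matchSide cubeFaces
  glue_glue := cube_glue_glue

lemma cube_card : Fintype.card cube.Face = 6 := by decide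

lemma cube_glue_ne (x) : cube.glue x ≠ x := cube_glue_ne' x

/-- the frames at the sides of the faces of the cube -/
def cubeHs : List (List ℕ) :=
  [[0, 0, 0, 0],
   [0, 0, 0, 2],
   [6, 0, 0, 2],
   [0, 0, 0, 0],
   [0, 2, 0, 0],
   [0, 2, 6, 0]]

/-- the frames at the corners of the faces of the cube -/
def cubeHc : List (List ℕ) :=
  [[0, 0, 0, 0],
   [2, 0, 0, 0],
   [4, 6, 0, 0],
   [0, 0, 0, 6],
   [6, 0, 2, 6],
   [0, 0, 4, 6]]

/-- the exceptional crossings, for the vertices of the cube -/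
def cubeCan : List (List ℕ) :=
  [[2, 0],
   [1, 3],
   [4, 0],
   [3, 3],
   [2, 3],
   [5, 3],
   [4, 3],
   [5, 2]]

/-- the face and the side of an exceptional crossing -/
def cubeCanon (v : Fin (4 * 2)) : Fin 6 × ZMod 4 :=
  (Fin.ofNat 6 ((cubeCan.getD v.val []).getD 0 0), (((cubeCan.getD v.val []).getD 1 0 : ℕ) : ZMod 4))

lemma cube_corner_eq : ∀ x : Fin 6 × ZMod 4, (∀ v, cubeCanon v ≠ x) →
    sExp 4 x.2 (matchSide cubeFaces x).2 +
        ((vertOf cubeHc (F := 6) x.1 x.2 : ℕ) : ZMod (2 * 4)) =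
      ((vertOf cubeHc (F := 6) (matchSide cubeFaces x).1
        ((matchSide cubeFaces x).2 + 1) : ℕ) : ZMod (2 * 4)) := by
  decide +kernel

/-- the gauge of the cube -/
def cubeGauge : Gauge cube 2 where
  hc f j := ((vertOf cubeHc (F := 6) f j : ℕ) : ZMod (2 * 4))
  hs f j := ((vertOf cubeHs (F := 6) f j : ℕ) : ZMod (2 * 4))
  canon := cubeCanon
  lab f j := Fin.ofNat (4 * 2) (vertOf cubeFaces (F := 6) f j)
  γ := (6 : ℕ)
  side_eq := by
    change ∀ x : Fin 6 × ZMod 4, _
    decide +kernel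
  corner_eq := cube_corner_eq
  corner_bad := by
    change ∀ x : Fin (4 * 2), _
    decide +kernel
  lab_glue := by
    change ∀ x : Fin 6 × ZMod 4, _
    decide +kernel
  lab_canon := by
    change ∀ x : Fin (4 * 2), _
    decide +kernel

/-- The faces of the regular dodecahedron (vertices counterclockwise seen from outside). -/
def dodecaFaces : List (List ℕ) :=
  [[0, 9, 1, 16, 10],
   [0, 10, 2, 14, 8],
   [0, 8, 4, 15, 9],
   [1, 11, 17, 3, 16],
   [1, 9, 15, 5, 11],
   [2, 10, 16, 3, 12],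
   [2, 12, 18, 6, 14],
   [3, 17, 7, 18, 12],
   [4, 13, 19, 5, 15],
   [4, 8, 14, 6, 13],
   [5, 19, 7, 17, 11],
   [6, 18, 7, 19, 13]]

lemma dodeca_glue_glue : ∀ x : Fin 12 × ZMod 5,
    matchSide dodecaFaces (matchSide dodecaFaces x) = x := by decide +kernel

lemma dodeca_glue_ne' : ∀ x : Fin 12 × ZMod 5, matchSide dodecaFaces x ≠ x := by decide +kernel

/-- Glued sides of the dodecahedron have the same end points. -/
lemma dodeca_glue_vert : ∀ x : Fin 12 × ZMod 5,
    vertOf dodecaFaces (matchSide dodecaFaces x).1 (matchSide dodecaFaces x).2 =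
      vertOf dodecaFaces x.1 (x.2 + 1) ∧
    vertOf dodecaFaces (matchSide dodecaFaces x).1 ((matchSide dodecaFaces x).2 + 1) =
      vertOf dodecaFaces x.1 x.2 := by decide +kernel

/-- The surface of the dodecahedron: 12 regular 5-gons, glued along the sides with the same end
points. -/
def dodeca : NGonSurface 5 where
  Face := Fin 12
  glue := matchSide dodecaFaces
  glue_glue := dodeca_glue_glue

lemma dodeca_card : Fintype.card dodeca.Face = 12 := by decide

lemma dodeca_glue_ne (x) : dodeca.glue x ≠ x := dodeca_glue_ne' x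

/-- the frames at the sides of the faces of the dodecahedron -/
def dodecaHs : List (List ℕ) :=
  [[0, 0, 0, 0, 0],
   [7, 0, 0, 0, 0],
   [7, 0, 0, 0, 3],
   [0, 0, 0, 0, 9],
   [3, 1, 0, 0, 3],
   [3, 1, 3, 0, 0],
   [7, 0, 0, 0, 9],
   [1, 0, 0, 9, 7],
   [0, 0, 0, 7, 9],
   [3, 1, 3, 0, 3],
   [1, 0, 7, 9, 7],
   [1, 3, 7, 9, 7]]

/-- the frames at the corners of the faces of the dodecahedron -/
def dodecaHc : List (List ℕ) :=
  [[0, 0, 0, 0, 0],
   [6, 7, 0, 0, 0],
   [3, 7, 0, 0, 2],
   [9, 0, 0, 0, 8],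
   [2, 3, 1, 0, 2],
   [2, 0, 1, 3, 0],
   [9, 7, 0, 0, 8],
   [0, 1, 0, 8, 6],
   [9, 0, 0, 6, 8],
   [2, 0, 1, 3, 2],
   [7, 1, 6, 8, 9],
   [0, 1, 3, 8, 9]]

/-- the exceptional crossings, for the vertices of the dodecahedron -/
def dodecaCan : List (List ℕ) :=
  [[1, 0],
   [4, 0],
   [5, 0],
   [7, 0],
   [9, 0],
   [8, 3],
   [11, 0],
   [10, 2],
   [9, 1],
   [2, 4],
   [5, 1],
   [4, 4],
   [7, 4],
   [9, 4],
   [6, 4],
   [8, 4],
   [3, 4],
   [10, 3],
   [7, 3],
   [11, 3]]

/-- the face and the side of an exceptional crossing -/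
def dodecaCanon (v : Fin (4 * 5)) : Fin 12 × ZMod 5 :=
  (Fin.ofNat 12 ((dodecaCan.getD v.val []).getD 0 0), (((dodecaCan.getD v.val []).getD 1 0 : ℕ) : ZMod 5))

lemma dodeca_corner_eq : ∀ x : Fin 12 × ZMod 5, (∀ v, dodecaCanon v ≠ x) →
    sExp 5 x.2 (matchSide dodecaFaces x).2 +
        ((vertOf dodecaHc (F := 12) x.1 x.2 : ℕ) : ZMod (2 * 5)) =
      ((vertOf dodecaHc (F := 12) (matchSide dodecaFaces x).1
        ((matchSide dodecaFaces x).2 + 1) : ℕ) : ZMod (2 * 5)) := by
  decide +kernel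

/-- the gauge of the dodecahedron -/
def dodecaGauge : Gauge dodeca 5 where
  hc f j := ((vertOf dodecaHc (F := 12) f j : ℕ) : ZMod (2 * 5))
  hs f j := ((vertOf dodecaHs (F := 12) f j : ℕ) : ZMod (2 * 5))
  canon := dodecaCanon
  lab f j := Fin.ofNat (4 * 5) (vertOf dodecaFaces (F := 12) f j)
  γ := (9 : ℕ)
  side_eq := by
    change ∀ x : Fin 12 × ZMod 5, _
    decide +kernel
  corner_eq := dodeca_corner_eq
  corner_bad := by
    change ∀ x : Fin (4 * 5), _
    decide +kernel
  lab_glue := by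
    change ∀ x : Fin 12 × ZMod 5, _
    decide +kernel
  lab_canon := by
    change ∀ x : Fin (4 * 5), _
    decide +kernel

end Pool.Agent.H69.Unfold
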