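import Pool.Agent.H69.StarIndex

set_option autoImplicit false

namespace Pool.Agent.H69.Unfold

open Complex

/-- compatibility of the increments of `F` with a pairing `π` of the edges with phases `ε` -/
def CompatC {n : ℕ} (π : ZMod n → ZMod n) (ε F : ZMod n → ℂ) : Prop :=
  ∀ i, F (π i + 1) - F (π i) = -(ε i * (F (i + 1) - F i))

/-- twice the area of a closed polygon -/
noncomputable def polyArea {n : ℕ} [NeZero n] (F : ZMod n → ℂ) : ℝ :=
  ∑ i : ZMod n, cross (F i) (F (i + 1))

lemma cis_primitive (q : ℕ) (hq : 0 < q) : IsPrimitiveRoot (cis (Real.pi / q)) (2 * q) := by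
  have h := Complex.isPrimitiveRoot_exp (2 * q) (by omega)
  have h2 : cis (Real.pi / q) = Complex.exp (2 * Real.pi * Complex.I / ((2 * q : ℕ) : ℂ)) := by
    unfold cis
    congr 1
    have : (q : ℂ) ≠ 0 := by exact_mod_cast hq.ne'
    push_cast
    field_simp
  rw [h2]
  exact h

namespace CWord

variable {n : ℕ} [NeZero n] {π : ZMod n → ZMod n}

/-- The area of the compatible functions of a planar pairing whose holonomy is carried by at most
`4 q` vertex classes, with holonomy `cis (- π / q)` each, is bounded by the square of a linear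
functional. -/
theorem index_one (hw : CWord n π) (q : ℕ) (hq : 0 < q) (ε : ZMod n → ℂ)
    (lab : Fin (4 * q) → ZMod n → Prop) (hε : ∀ i, ε (π i) * ε i = 1)
    (hclass : ∀ v i j, lab v i → lab v j → ∃ k : ℕ, (fun x => π x + 1)^[k] i = j)
    (hhol : ∀ i, ∀ Q : ℕ, 0 < Q → (fun x => π x + 1)^[Q] i = i →
      (∀ j, 0 < j → j < Q → (fun x => π x + 1)^[j] i ≠ i) →
      ((∃ v, lab v i) → (∏ j ∈ Finset.range Q, ε ((fun x => π x + 1)^[j] i)) *
        cis (Real.pi / q) = 1) ∧
      (¬ (∃ v, lab v i) → ∏ j ∈ Finset.range Q, ε ((fun x => π x + 1)^[j] i) = 1)) :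
    ∃ ℓ : (ZMod n → ℂ) →ₗ[ℂ] ℂ, ∀ F, CompatC π ε F → polyArea F ≤ ‖ℓ F‖ ^ 2 := by
  classical
  set h := cis (Real.pi / q) with hh
  -- the root
  obtain ⟨r, hroot⟩ : ∃ (r : ZMod n), (∃ v₀, lab v₀ r) ∨ ∀ v i, ¬ lab v i := by
    by_cases h : ∃ v i, lab v i
    · obtain ⟨v, i, hi⟩ := h
      exact ⟨i, Or.inl ⟨v, hi⟩⟩
    · push Not at h
      exact ⟨0, Or.inr h⟩
  have hp := hw.pword r
  -- uniqueness of first vertices with a given label
  have huniq : ∀ v m m', m < n → m < shift π r m → m' < n → m' < shift π r m' →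
      lab v (r + ((m + 1 : ℕ) : ZMod n)) → lab v (r + ((m' + 1 : ℕ) : ZMod n)) → m ≤ m' := by
    intro v m m' h1 h2 h3 h4 h5 h6
    obtain ⟨k, hk⟩ := hclass v _ _ h5 h6
    obtain ⟨w, hw1, hw2, hw3, hw4⟩ := hw.inside r m h1 h2 k
    rw [hk] at hw1
    have h7 := hp.lt m h1
    have h8 := hp.lt m' h3
    have h9 := cast_inj (n := n) (show m' + 1 < n by omega) (show w < n by omega) r hw1
    omega
  have huniq2 : ∀ v m m', m < n → m < shift π r m → m' < n → m' < shift π r m' →
      lab v (r + ((m + 1 : ℕ) : ZMod n)) → lab v (r + ((m' + 1 : ℕ) : ZMod n)) → m = m' :=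
    fun v m m' h1 h2 h3 h4 h5 h6 => le_antisymm (huniq v m m' h1 h2 h3 h4 h5 h6)
      (huniq v m' m h3 h4 h1 h2 h6 h5)
  have hv₀ : ∀ v₀, lab v₀ r → ∀ m, m < n → m < shift π r m →
      ¬ lab v₀ (r + ((m + 1 : ℕ) : ZMod n)) := by
    intro v₀ hroot m h1 h2 h3
    obtain ⟨k, hk⟩ := hclass v₀ _ _ h3 hroot
    obtain ⟨w, hw1, hw2, hw3, hw4⟩ := hw.inside r m h1 h2 k
    have h7 := hp.lt m h1
    have h9 := cast_inj (n := n) (show 0 < n by omega) (show w < n by omega) r
      (by rw [← hw1, hk]; simp)
    omega
  have hcast : ∀ m : ℕ, r + ((m : ZMod n)) + 1 = r + ((m + 1 : ℕ) : ZMod n) := by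
    intro m
    push_cast
    ring
  -- iterates
  have hiter : ∀ (j a : ℕ), (fun x => π x + 1)^[j] (r + (a : ZMod n)) =
      r + (((fun x => shift π r x + 1)^[j] a : ℕ) : ZMod n) := by
    intro j
    induction j with
    | zero => intro a; rfl
    | succ j ih =>
      intro a
      rw [Function.iterate_succ_apply, Function.iterate_succ_apply, ← ih]
      congr 1
      rw [← hcast, add_shift (π := π)]
  have hmono : ∀ (a Q : ℕ), (∀ j < Q, (fun x => shift π r x + 1)^[j] a <
      (fun x => shift π r x + 1)^[j + 1] a) → ∀ j ≤ Q, ∀ i < j,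
      (fun x => shift π r x + 1)^[i] a < (fun x => shift π r x + 1)^[j] a := by
    intro a Q hQ j
    induction j with
    | zero => intro _ i hi; omega
    | succ j ih =>
      intro hj i hi
      rcases Nat.eq_or_lt_of_le (show i ≤ j by omega) with h1 | h1
      · rw [h1]
        exact hQ j (by omega)
      · exact lt_trans (ih (by omega) i h1) (hQ j (by omega))
  obtain ⟨J, hJ1, hJ2, ⟨Q, hQ1, hQ2, hQ3⟩, hJ4⟩ := hp.cblock (fun m => ε (r + m))
    (fun m => ∃ v, lab v (r + m)) h (norm_cis _)
    (by
      intro i hi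
      change ε (r + (shift π r i : ZMod n)) * ε (r + (i : ZMod n)) = 1
      rw [add_shift (π := π)]
      exact hε _)
    (by
      intro a ha1 ha2 Q hQ1 hQ2
      have hpa := hp.lt a ha1
      have h1 := hhol (r + ((a + 1 : ℕ) : ZMod n)) (Q + 1) (Nat.succ_pos _) (by
        rw [hiter, Function.iterate_succ_apply', hQ1]
        change r + ((shift π r (shift π r a) + 1 : ℕ) : ZMod n) = _
        rw [hp.inv a ha1]) (by
        intro j hj0 hjQ hj
        rw [hiter] at hj
        have h2 := hmono (a + 1) Q hQ2 j (by omega) 0 hj0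
        have h3 : (fun x => shift π r x + 1)^[j] (a + 1) ≤ shift π r a := by
          rcases Nat.eq_or_lt_of_le (show j ≤ Q by omega) with h4 | h4
          · rw [h4, hQ1]
          · have := hmono (a + 1) Q hQ2 Q le_rfl j h4
            rw [hQ1] at this
            exact this.le
        have h5 := cast_inj (n := n) (by omega) (by omega) r hj
        simp only [Function.iterate_zero, id_eq] at h2
        omega)
      rw [Finset.prod_range_succ] at h1
      simp_rw [hiter] at h1
      rw [hQ1] at h1
      exact h1)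
    n 0 n (by omega) (by omega) le_rfl (fun q _ hq => ⟨Nat.zero_le _, hp.lt q hq⟩)
  -- holonomy of the root
  have hlen : (∃ v, lab v r) → h ^ (J.length + 1) = 1 := by
    intro hb
    have hn0 : 0 < n := Nat.pos_of_ne_zero (NeZero.ne n)
    have hQ0 : 0 < Q := by
      by_contra hcon
      have : Q = 0 := by omega
      subst this
      simp only [Function.iterate_zero, id_eq] at hQ1
      omega
    have h1 := hhol r Q hQ0 (by
        have := hiter Q 0
        rw [Nat.cast_zero, add_zero, hQ1, ZMod.natCast_self, add_zero] at this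
        exact this) (by
        intro j hj0 hjQ hj
        have h6 := hiter j 0
        rw [Nat.cast_zero, add_zero, hj] at h6
        have h2 := hmono 0 Q hQ2 j (by omega) 0 hj0
        have h3 := hmono 0 Q hQ2 Q le_rfl j hjQ
        rw [hQ1] at h3
        have h5 := cast_inj (n := n) hn0 h3 r (by rw [Nat.cast_zero, add_zero]; exact h6)
        simp only [Function.iterate_zero, id_eq] at h2
        omega)
    have h2 := h1.1 hb
    have h3 : ∀ j, (fun x => π x + 1)^[j] r =
        r + (((fun x => shift π r x + 1)^[j] 0 : ℕ) : ZMod n) := by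
      intro j
      have := hiter j 0
      rw [Nat.cast_zero, add_zero] at this
      exact this
    simp_rw [h3] at h2
    rw [hQ3, ← pow_succ] at h2
    exact h2
  -- the centers
  let c : ℕ → ((ZMod n → ℂ) →ₗ[ℂ] ℂ) := fun i => LinearMap.proj (r + (i : ZMod n))
  have hc : ∀ i F, c i F = F (r + (i : ZMod n)) := fun _ _ => rfl
  let l : List ((ZMod n → ℂ) →ₗ[ℂ] ℂ) :=
    if ∃ v, lab v r then J.map c ++ [c 0] else []
  obtain ⟨ℓ, hℓ⟩ := star_index q hq l (by
      by_cases hb : ∃ v, lab v r
      · obtain ⟨v₀, hv⟩ := hb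
        have hl : l = J.map c ++ [c 0] := if_pos ⟨v₀, hv⟩
        rw [hl, List.length_append, List.length_map, List.length_singleton]
        have hex : ∀ i ∈ J, ∃ v, lab v (r + (i : ZMod n)) := by
          intro i hi
          obtain ⟨m, _, _, _, _, h5⟩ := hJ1 i hi
          exact h5
        let f : ℕ → Fin (4 * q) := fun i =>
          if hi : ∃ v, lab v (r + (i : ZMod n)) then hi.choose else v₀
        have hf : ∀ i ∈ J, lab (f i) (r + (i : ZMod n)) := by
          intro i hi
          have h5 : f i = (hex i hi).choose := dif_pos (hex i hi)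
          rw [h5]
          exact (hex i hi).choose_spec
        have hnd : (v₀ :: J.map f).Nodup := by
          rw [List.nodup_cons]
          constructor
          · intro hmem
            obtain ⟨i, hi, hfi⟩ := List.mem_map.mp hmem
            obtain ⟨m, _, h2, h3, h4, _⟩ := hJ1 i hi
            have h5 := hf i hi
            rw [hfi, h4] at h5
            exact hv₀ v₀ hv m h2 h3 h5
          · refine List.Nodup.map_on ?_ (hJ2.imp (fun hab => ne_of_lt hab))
            intro i hi j hj hij
            obtain ⟨m, _, h2, h3, h4, _⟩ := hJ1 i hi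
            obtain ⟨m', _, h2', h3', h4', _⟩ := hJ1 j hj
            have h5 := hf i hi
            have h6 := hf j hj
            rw [hij, h4] at h5
            have h6' : lab (f j) (r + ((m' + 1 : ℕ) : ZMod n)) := by
              rw [← h4']
              exact h6
            have := huniq2 (f j) m m' h2 h3 h2' h3' h5 h6'
            omega
        have h7 := hnd.length_le_card
        rw [Fintype.card_fin, List.length_cons, List.length_map] at h7
        exact h7
      · have hl : l = [] := if_neg hb
        rw [hl]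
        simp) (by
      by_cases hb : ∃ v, lab v r
      · have hl : l = J.map c ++ [c 0] := if_pos hb
        rw [hl, List.length_append, List.length_map, List.length_singleton]
        exact (cis_primitive q hq).dvd_of_pow_eq_one _ (hlen hb)
      · have hl : l = [] := if_neg hb
        rw [hl]
        simp)
  refine ⟨ℓ, fun F hF => ?_⟩
  have hF' : ∀ i < n, F (r + ((shift π r i + 1 : ℕ) : ZMod n)) - F (r + (shift π r i : ZMod n)) =
      -(ε (r + (i : ZMod n)) * (F (r + ((i + 1 : ℕ) : ZMod n)) - F (r + (i : ZMod n)))) := by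
    intro i _
    rw [← hcast, ← hcast, add_shift (π := π)]
    exact hF (r + i)
  obtain ⟨f1, f2⟩ := hJ4 (fun m => F (r + (m : ZMod n))) hF'
  have hsum : polyArea F = ∑ i ∈ Finset.Ico 0 n,
      cross (F (r + (i : ZMod n))) (F (r + ((i + 1 : ℕ) : ZMod n))) := by
    unfold polyArea
    rw [sum_zmod r, Finset.range_eq_Ico]
    simp only [hcast]
  rw [hsum, f2]
  simp only [Nat.cast_zero, add_zero, ZMod.natCast_self] at f1 ⊢
  have hz := hℓ F (F r)
  by_cases hb : ∃ v, lab v r
  · have hl : l = J.map c ++ [c 0] := if_pos hb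
    rw [hl, List.map_append, List.map_map, endPt_append, starPath_append] at hz
    have h1 : (J.map ((fun c => (c F, h)) ∘ c)) =
        J.map fun i : ℕ => (F (r + (i : ZMod n)), h) := rfl
    have h2 : ([c 0].map fun c => (c F, h)) = [(F r, h)] := by
      simp [hc]
    rw [h1, h2, ← f1] at hz
    simp only [endPt_cons, endPt_nil, starPath_cons, starPath_nil, sub_self, mul_zero, add_zero,
      cross_self] at hz
    exact hz trivial
  · have hJ : J = [] := by
      rcases hroot with h1 | h1
      · exact absurd h1 hb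
      · rcases J with _ | ⟨i, J⟩
        · rfl
        · obtain ⟨m, _, _, _, _, ⟨v, h5⟩⟩ := hJ1 i List.mem_cons_self
          exact absurd h5 (h1 v _)
    rw [hJ]
    simp only [List.map_nil, starPath_nil]
    positivity

end CWord

end Pool.Agent.H69.Unfold
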