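import Pool.Agent.H69.StarWord

set_option autoImplicit false

namespace Pool.Agent.H69.Unfold

open Complex

/-- the unit complex number with argument `κ` -/
noncomputable def cis (κ : ℝ) : ℂ := Complex.exp (κ * Complex.I)

lemma cis_add (a b : ℝ) : cis (a + b) = cis a * cis b := by
  unfold cis
  rw [← Complex.exp_add]
  congr 1
  push_cast
  ring

lemma norm_cis (κ : ℝ) : ‖cis κ‖ = 1 := Complex.norm_exp_ofReal_mul_I κ

lemma cis_re (κ : ℝ) : (cis κ).re = Real.cos κ := Complex.exp_ofReal_mul_I_re κ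

lemma cis_im (κ : ℝ) : (cis κ).im = Real.sin κ := Complex.exp_ofReal_mul_I_im κ

lemma cis_pi : cis Real.pi = -1 := Complex.exp_pi_mul_I

lemma tri_rot (x c : ℂ) (κ : ℝ) :
    cross x c + cross c (c + cis κ * (x - c)) + cross (c + cis κ * (x - c)) x =
      -(Real.sin κ * ‖x - c‖ ^ 2) := by
  obtain ⟨u, rfl⟩ : ∃ u, x = c + u := ⟨x - c, by ring⟩
  rw [add_sub_cancel_left, ← Complex.normSq_eq_norm_sq, Complex.normSq_apply]
  unfold cross
  simp only [Complex.add_re, Complex.add_im, Complex.mul_re, Complex.mul_im, Complex.conj_re,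
    Complex.conj_im, cis_re, cis_im]
  ring

lemma norm_one_sub_cis (κ : ℝ) : ‖1 - cis κ‖ ^ 2 = 4 * Real.sin (κ / 2) ^ 2 := by
  rw [← Complex.normSq_eq_norm_sq, Complex.normSq_apply]
  simp only [Complex.sub_re, Complex.sub_im, Complex.one_re, Complex.one_im, cis_re, cis_im]
  have h1 := Real.sin_sq_add_cos_sq κ
  have h2 : Real.cos κ = 1 - 2 * Real.sin (κ / 2) ^ 2 := by
    have h3 := Real.cos_two_mul (κ / 2)
    have h4 := Real.sin_sq_add_cos_sq (κ / 2)
    have h5 : 2 * (κ / 2) = κ := by ring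
    rw [h5] at h3
    linarith
  have h3 : (1 - Real.cos κ) * (1 - Real.cos κ) + (0 - Real.sin κ) * (0 - Real.sin κ) =
      2 - 2 * Real.cos κ := by linear_combination h1
  rw [h3, h2]
  ring

lemma cis_ne_one {κ : ℝ} (h0 : 0 < κ) (h1 : κ < 2 * Real.pi) : 1 - cis κ ≠ 0 := by
  intro h
  have h2 := norm_one_sub_cis κ
  rw [h, norm_zero] at h2
  have h3 : 0 < Real.sin (κ / 2) := Real.sin_pos_of_pos_of_lt_pi (by linarith) (by linarith)
  have : 0 < 4 * Real.sin (κ / 2) ^ 2 := by positivity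
  linarith

/-- Merging two centers. -/
lemma merge (κ₁ κ₂ : ℝ) (h1 : 0 < κ₁) (h2 : 0 < κ₂) (h3 : κ₁ + κ₂ < 2 * Real.pi) (c₁ c₂ z : ℂ) :
    endPt z [(c₁, cis κ₁), (c₂, cis κ₂)] =
      endPt z [((((1 - cis κ₁) * cis κ₂) / (1 - cis (κ₁ + κ₂))) * c₁ +
        ((1 - cis κ₂) / (1 - cis (κ₁ + κ₂))) * c₂, cis (κ₁ + κ₂))] ∧
    starPath z [(c₁, cis κ₁), (c₂, cis κ₂)] ≤
      starPath z [((((1 - cis κ₁) * cis κ₂) / (1 - cis (κ₁ + κ₂))) * c₁ +
        ((1 - cis κ₂) / (1 - cis (κ₁ + κ₂))) * c₂, cis (κ₁ + κ₂))] := by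
  have hne := cis_ne_one (show 0 < κ₁ + κ₂ by linarith) h3
  set C := (((1 - cis κ₁) * cis κ₂) / (1 - cis (κ₁ + κ₂))) * c₁ +
        ((1 - cis κ₂) / (1 - cis (κ₁ + κ₂))) * c₂ with hC
  have hCeq : (1 - cis (κ₁ + κ₂)) * C = (1 - cis κ₁) * cis κ₂ * c₁ + (1 - cis κ₂) * c₂ := by
    rw [hC]
    field_simp
  have hadd := cis_add κ₁ κ₂
  have hend : ∀ z, endPt z [(c₁, cis κ₁), (c₂, cis κ₂)] = endPt z [(C, cis (κ₁ + κ₂))] := by
    intro z
    simp only [endPt_cons, endPt_nil]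
    rw [hadd] at hCeq ⊢
    linear_combination -hCeq
  refine ⟨hend z, ?_⟩
  have hn1 : ∀ x ∈ [(c₁, cis κ₁), (c₂, cis κ₂)], ‖x.2‖ = 1 := by
    intro x hx
    simp only [List.mem_cons, List.not_mem_nil, or_false] at hx
    rcases hx with rfl | rfl
    · exact norm_cis _
    · exact norm_cis _
  have hn2 : ∀ x ∈ [(C, cis (κ₁ + κ₂))], ‖x.2‖ = 1 := by
    intro x hx
    simp only [List.mem_cons, List.not_mem_nil, or_false] at hx
    subst hx
    exact norm_cis _
  rw [starPath_move C z _ hn1, starPath_move C z _ hn2, hend, hend]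
  have h4 : starPath C [(C, cis (κ₁ + κ₂))] = 0 := by
    simp only [starPath_cons, starPath_nil, sub_self, mul_zero, add_zero, cross_self]
  have h5 : starPath C [(c₁, cis κ₁), (c₂, cis κ₂)] ≤ 0 := by
    have h6 : endPt C [(c₁, cis κ₁), (c₂, cis κ₂)] = C := by
      rw [hend]
      simp only [endPt_cons, endPt_nil, sub_self, mul_zero, add_zero]
    simp only [starPath_cons, starPath_nil, add_zero]
    simp only [endPt_cons, endPt_nil] at h6
    set z₁ := c₁ + cis κ₁ * (C - c₁) with hz₁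
    have t1 := tri_rot C c₁ κ₁
    have t2 := tri_rot z₁ c₂ κ₂
    rw [← hz₁] at t1
    rw [h6] at t2 ⊢
    have h7 : cross C c₁ + cross c₁ z₁ + (cross z₁ c₂ + cross c₂ C) =
        -(Real.sin κ₁ * ‖C - c₁‖ ^ 2) - Real.sin κ₂ * ‖z₁ - c₂‖ ^ 2 := by
      have := cross_comm C z₁
      linarith
    rw [h7]
    have h8 : ‖z₁ - c₂‖ = ‖C - c₂‖ := by
      have : C - c₂ = cis κ₂ * (z₁ - c₂) := by linear_combination -h6
      rw [this, norm_mul, norm_cis, one_mul]
    have h9 : (1 - cis (κ₁ + κ₂)) * (C - c₁) = (1 - cis κ₂) * (c₂ - c₁) := by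
      rw [hadd] at hCeq ⊢
      linear_combination hCeq
    have h10 : (1 - cis (κ₁ + κ₂)) * (C - c₂) = (1 - cis κ₁) * cis κ₂ * (c₁ - c₂) := by
      rw [hadd] at hCeq ⊢
      linear_combination hCeq
    have h11 := congrArg (fun x => ‖x‖ ^ 2) h9
    have h12 := congrArg (fun x => ‖x‖ ^ 2) h10
    simp only [norm_mul, mul_pow, norm_cis, one_pow, mul_one, norm_one_sub_cis] at h11 h12
    rw [norm_sub_rev c₂ c₁] at h11
    rw [h8]
    set S := Real.sin ((κ₁ + κ₂) / 2) with hS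
    have hSpos : 0 < S := Real.sin_pos_of_pos_of_lt_pi (by linarith) (by linarith)
    set s₁ := Real.sin (κ₁ / 2) with hs₁
    set s₂ := Real.sin (κ₂ / 2) with hs₂
    have hs₁pos : 0 < s₁ := Real.sin_pos_of_pos_of_lt_pi (by linarith) (by linarith)
    have hs₂pos : 0 < s₂ := Real.sin_pos_of_pos_of_lt_pi (by linarith) (by linarith)
    have e1 : Real.sin κ₁ = 2 * s₁ * Real.cos (κ₁ / 2) := by
      rw [hs₁, ← Real.sin_two_mul]
      congr 1
      ring
    have e2 : Real.sin κ₂ = 2 * s₂ * Real.cos (κ₂ / 2) := by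
      rw [hs₂, ← Real.sin_two_mul]
      congr 1
      ring
    have e3 : S = s₁ * Real.cos (κ₂ / 2) + Real.cos (κ₁ / 2) * s₂ := by
      rw [hS, hs₁, hs₂, ← Real.sin_add]
      congr 1
      ring
    have h13 : 4 * S ^ 2 * (Real.sin κ₁ * ‖C - c₁‖ ^ 2 + Real.sin κ₂ * ‖C - c₂‖ ^ 2) =
        8 * s₁ * s₂ * S * ‖c₁ - c₂‖ ^ 2 := by
      rw [e1, e2]
      calc 4 * S ^ 2 * (2 * s₁ * Real.cos (κ₁ / 2) * ‖C - c₁‖ ^ 2 +
            2 * s₂ * Real.cos (κ₂ / 2) * ‖C - c₂‖ ^ 2) =
          2 * s₁ * Real.cos (κ₁ / 2) * (4 * S ^ 2 * ‖C - c₁‖ ^ 2) +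
            2 * s₂ * Real.cos (κ₂ / 2) * (4 * S ^ 2 * ‖C - c₂‖ ^ 2) := by ring
        _ = 8 * s₁ * s₂ * (s₁ * Real.cos (κ₂ / 2) + Real.cos (κ₁ / 2) * s₂) *
              ‖c₁ - c₂‖ ^ 2 := by
            rw [h11, h12]
            ring
        _ = _ := by rw [← e3]
    have h14 : 0 ≤ 4 * S ^ 2 * (Real.sin κ₁ * ‖C - c₁‖ ^ 2 + Real.sin κ₂ * ‖C - c₂‖ ^ 2) := by
      rw [h13]
      positivity
    have h15 : 0 ≤ Real.sin κ₁ * ‖C - c₁‖ ^ 2 + Real.sin κ₂ * ‖C - c₂‖ ^ 2 := by
      by_contra hcon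
      push Not at hcon
      have : 4 * S ^ 2 * (Real.sin κ₁ * ‖C - c₁‖ ^ 2 + Real.sin κ₂ * ‖C - c₂‖ ^ 2) < 0 :=
        mul_neg_of_pos_of_neg (by positivity) hcon
      linarith
    linarith
  rw [h4]
  linarith

section lists

variable {W : Type*} [AddCommGroup W] [Module ℂ W]

/-- Merging a list of centers with small total angle. -/
lemma merge_list (κ : ℝ) (h0 : 0 < κ) (l : List (W →ₗ[ℂ] ℂ)) (hne : l ≠ [])
    (hl : l.length * κ < 2 * Real.pi) :
    ∃ C : W →ₗ[ℂ] ℂ, ∀ (F : W) (z : ℂ),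
      endPt z (l.map fun c => (c F, cis κ)) = endPt z [(C F, cis (l.length * κ))] ∧
      starPath z (l.map fun c => (c F, cis κ)) ≤ starPath z [(C F, cis (l.length * κ))] := by
  induction l using List.reverseRecOn with
  | nil => exact absurd rfl hne
  | append_singleton l c ih =>
    by_cases hl0 : l = []
    · subst hl0
      refine ⟨c, fun F z => ?_⟩
      simp
    · have hlen : (l ++ [c]).length = l.length + 1 := by simp
      rw [hlen] at hl ⊢
      push_cast at hl ⊢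
      obtain ⟨C, hC⟩ := ih hl0 (by nlinarith)
      have hpos : (0 : ℝ) < l.length := by
        have := List.length_pos_of_ne_nil hl0
        exact_mod_cast this
      set κ₁ := (l.length : ℝ) * κ with hκ₁
      have hsum : ((l.length : ℝ) + 1) * κ = κ₁ + κ := by rw [hκ₁]; ring
      rw [hsum] at hl ⊢
      have hκ₁pos : 0 < κ₁ := by positivity
      refine ⟨(((1 - cis κ₁) * cis κ) / (1 - cis (κ₁ + κ))) • C +
        ((1 - cis κ) / (1 - cis (κ₁ + κ))) • c, fun F z => ?_⟩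
      obtain ⟨h1, h2⟩ := hC F z
      obtain ⟨h3, h4⟩ := merge κ₁ κ hκ₁pos h0 hl (C F) (c F) z
      simp only [LinearMap.add_apply, LinearMap.smul_apply, smul_eq_mul]
      rw [List.map_append, List.map_singleton, ← h3]
      constructor
      · rw [endPt_append, h1, ← endPt_append]
        rfl
      · refine le_trans ?_ h4
        rw [starPath_append, h1]
        have h5 : starPath z [(C F, cis κ₁), (c F, cis κ)] =
            starPath z [(C F, cis κ₁)] + starPath (endPt z [(C F, cis κ₁)]) [(c F, cis κ)] := by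
          rw [← starPath_append]
          rfl
        rw [h5]
        linarith

lemma two_centers (z C₁ C₂ : ℂ) (h : endPt z [(C₁, -1), (C₂, -1)] = z) :
    starPath z [(C₁, -1), (C₂, -1)] = 0 := by
  simp only [endPt_cons, endPt_nil] at h
  have hC : C₂ = C₁ := by linear_combination h / 2
  subst hC
  simp only [starPath_cons, starPath_nil]
  unfold cross
  simp only [Complex.add_re, Complex.add_im, Complex.mul_re, Complex.mul_im, Complex.conj_re,
    Complex.conj_im, Complex.sub_re, Complex.sub_im, Complex.neg_re, Complex.neg_im,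
    Complex.one_re, Complex.one_im]
  ring

lemma four_centers (z C₁ C₂ C₃ C₄ : ℂ)
    (h : endPt z [(C₁, -1), (C₂, -1), (C₃, -1), (C₄, -1)] = z) :
    starPath z [(C₁, -1), (C₂, -1), (C₃, -1), (C₄, -1)] ≤
      ‖(C₂ - C₁) - Complex.I * (C₃ - C₁)‖ ^ 2 := by
  simp only [endPt_cons, endPt_nil] at h
  have hC : C₄ = C₃ - C₂ + C₁ := by linear_combination h / 2
  subst hC
  have h1 : starPath z [(C₁, -1), (C₂, -1), (C₃, -1), (C₃ - C₂ + C₁, -1)] =
      ‖(C₂ - C₁) - Complex.I * (C₃ - C₁)‖ ^ 2 - ‖(C₂ - C₁) + Complex.I * (C₃ - C₁)‖ ^ 2 := by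
    rw [← Complex.normSq_eq_norm_sq, ← Complex.normSq_eq_norm_sq, Complex.normSq_apply,
      Complex.normSq_apply]
    simp only [starPath_cons, starPath_nil]
    unfold cross
    simp only [Complex.add_re, Complex.add_im, Complex.mul_re, Complex.mul_im, Complex.conj_re,
      Complex.conj_im, Complex.sub_re, Complex.sub_im, Complex.neg_re, Complex.neg_im,
      Complex.one_re, Complex.one_im, Complex.I_re, Complex.I_im]
    ring
  rw [h1]
  have : 0 ≤ ‖(C₂ - C₁) + Complex.I * (C₃ - C₁)‖ ^ 2 := by positivity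
  linarith

/-- The area of a closed star path with `2q` or `4q` centers of angle `π / q` is bounded by the
square of a linear functional. -/
theorem star_index (q : ℕ) (hq : 0 < q) (l : List (W →ₗ[ℂ] ℂ)) (hlen : l.length ≤ 4 * q)
    (hdiv : 2 * q ∣ l.length) :
    ∃ ℓ : W →ₗ[ℂ] ℂ, ∀ (F : W) (z : ℂ),
      endPt z (l.map fun c => (c F, cis (Real.pi / q))) = z →
      starPath z (l.map fun c => (c F, cis (Real.pi / q))) ≤ ‖ℓ F‖ ^ 2 := by
  have hqr : (0 : ℝ) < q := by exact_mod_cast hq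
  have hpi := Real.pi_pos
  have hκ : 0 < Real.pi / q := by positivity
  have hqκ : (q : ℝ) * (Real.pi / q) = Real.pi := by field_simp
  have hgroup : ∀ l : List (W →ₗ[ℂ] ℂ), l.length = q → ∃ C : W →ₗ[ℂ] ℂ, ∀ (F : W) (z : ℂ),
      endPt z (l.map fun c => (c F, cis (Real.pi / q))) = endPt z [(C F, -1)] ∧
      starPath z (l.map fun c => (c F, cis (Real.pi / q))) ≤ starPath z [(C F, -1)] := by
    intro l hl
    obtain ⟨C, hC⟩ := merge_list (Real.pi / q) hκ l (by
      intro h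
      rw [h] at hl
      simp at hl
      omega) (by rw [hl, hqκ]; linarith)
    rw [hl, hqκ, cis_pi] at hC
    exact ⟨C, hC⟩
  have happend : ∀ (l₁ l₂ : List (W →ₗ[ℂ] ℂ)) (m₁ m₂ : W → List (ℂ × ℂ)),
      (∀ (F : W) (z : ℂ), endPt z (l₁.map fun c => (c F, cis (Real.pi / q))) = endPt z (m₁ F) ∧
        starPath z (l₁.map fun c => (c F, cis (Real.pi / q))) ≤ starPath z (m₁ F)) →
      (∀ (F : W) (z : ℂ), endPt z (l₂.map fun c => (c F, cis (Real.pi / q))) = endPt z (m₂ F) ∧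
        starPath z (l₂.map fun c => (c F, cis (Real.pi / q))) ≤ starPath z (m₂ F)) →
      (∀ (F : W) (z : ℂ), endPt z ((l₁ ++ l₂).map fun c => (c F, cis (Real.pi / q))) =
          endPt z (m₁ F ++ m₂ F) ∧
        starPath z ((l₁ ++ l₂).map fun c => (c F, cis (Real.pi / q))) ≤
          starPath z (m₁ F ++ m₂ F)) := by
    intro l₁ l₂ m₁ m₂ h1 h2 F z
    obtain ⟨a1, a2⟩ := h1 F z
    obtain ⟨b1, b2⟩ := h2 F (endPt z (m₁ F))
    rw [List.map_append, endPt_append, endPt_append, starPath_append, starPath_append, a1, b1]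
    exact ⟨rfl, by linarith⟩
  obtain ⟨t, ht⟩ := hdiv
  have ht2 : t = 0 ∨ t = 1 ∨ t = 2 := by
    rw [ht] at hlen
    have : t ≤ 2 := by
      by_contra hcon
      push Not at hcon
      have : 2 * q * 3 ≤ 2 * q * t := Nat.mul_le_mul_left _ hcon
      omega
    omega
  rcases ht2 with rfl | rfl | rfl
  · refine ⟨0, fun F z _ => ?_⟩
    have : l = [] := List.eq_nil_of_length_eq_zero (by omega)
    subst this
    simp [starPath_nil]
  · refine ⟨0, fun F z hz => ?_⟩
    obtain ⟨C₁, h1⟩ := hgroup (l.take q) (by rw [List.length_take]; omega)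
    obtain ⟨C₂, h2⟩ := hgroup (l.drop q) (by rw [List.length_drop]; omega)
    have h3 := happend _ _ (fun F => [(C₁ F, -1)]) (fun F => [(C₂ F, -1)]) h1 h2 F z
    rw [List.take_append_drop] at h3
    obtain ⟨h4, h5⟩ := h3
    rw [hz] at h4
    have h6 := two_centers z (C₁ F) (C₂ F) h4.symm
    refine le_trans h5 ?_
    change starPath z [(C₁ F, -1), (C₂ F, -1)] ≤ _
    rw [h6]
    positivity
  · obtain ⟨C₁, h1⟩ := hgroup (l.take q) (by rw [List.length_take]; omega)
    obtain ⟨C₂, h2⟩ := hgroup ((l.drop q).take q) (by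
      rw [List.length_take, List.length_drop]; omega)
    obtain ⟨C₃, h3⟩ := hgroup (((l.drop q).drop q).take q) (by
      rw [List.length_take, List.length_drop, List.length_drop]; omega)
    obtain ⟨C₄, h4⟩ := hgroup (((l.drop q).drop q).drop q) (by
      rw [List.length_drop, List.length_drop, List.length_drop]; omega)
    refine ⟨(C₂ - C₁) - Complex.I • (C₃ - C₁), fun F z hz => ?_⟩
    have h5 := happend _ _ (fun F => [(C₃ F, -1)]) (fun F => [(C₄ F, -1)]) h3 h4
    rw [List.take_append_drop] at h5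
    have h6 := happend _ _ (fun F => [(C₂ F, -1)]) (fun F => [(C₃ F, -1)] ++ [(C₄ F, -1)]) h2 h5
    rw [List.take_append_drop] at h6
    have h7 := happend _ _ (fun F => [(C₁ F, -1)])
      (fun F => [(C₂ F, -1)] ++ ([(C₃ F, -1)] ++ [(C₄ F, -1)])) h1 h6 F z
    rw [List.take_append_drop] at h7
    obtain ⟨h8, h9⟩ := h7
    rw [hz] at h8
    have h10 := four_centers z (C₁ F) (C₂ F) (C₃ F) (C₄ F) h8.symm
    exact le_trans h9 h10

end lists

end Pool.Agent.H69.Unfold
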