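import Pool.Agent.H69.UnfoldDefs

set_option autoImplicit false

namespace Pool.Agent.H69.Unfold

open Complex

/-! ### The cross product -/

lemma cross_add_left (x y z : ℂ) : cross (x + y) z = cross x z + cross y z := by
  simp [cross]; ring

lemma cross_add_right (x y z : ℂ) : cross x (y + z) = cross x y + cross x z := by
  simp [cross]; ring

lemma cross_sub_right (x y z : ℂ) : cross x (y - z) = cross x y - cross x z := by
  simp [cross]; ring

lemma cross_sub_left (x y z : ℂ) : cross (x - y) z = cross x z - cross y z := by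
  simp [cross]; ring

lemma cross_neg_left (x y : ℂ) : cross (-x) y = - cross x y := by
  simp [cross]

lemma cross_neg_right (x y : ℂ) : cross x (-y) = - cross x y := by
  simp [cross]

lemma cross_self (x : ℂ) : cross x x = 0 := by
  simp [cross]; ring

lemma cross_comm (x y : ℂ) : cross y x = - cross x y := by
  simp [cross]; ring

lemma cross_zero_right (x : ℂ) : cross x 0 = 0 := by simp [cross]

lemma cross_mul_mul (r x y : ℂ) : cross (r * x) (r * y) = ‖r‖ ^ 2 * cross x y := by
  rw [← Complex.normSq_eq_norm_sq, Complex.normSq_apply]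
  simp [cross]; ring

lemma cross_mul_right_mul (x y r : ℂ) : cross (x * r) (y * r) = ‖r‖ ^ 2 * cross x y := by
  rw [mul_comm x, mul_comm y, cross_mul_mul]

/-- `cross x` as an additive map. -/
noncomputable def crossHom (x : ℂ) : ℂ →+ ℝ where
  toFun := cross x
  map_zero' := cross_zero_right x
  map_add' := cross_add_right x

/-! ### Roots of unity and corners -/

lemma ζ_primitive {n : ℕ} (hn : n ≠ 0) : IsPrimitiveRoot (ζ n) n :=
  Complex.isPrimitiveRoot_exp n hn

lemma ζ_pow_eq {n : ℕ} (hn : n ≠ 0) {a b : ℕ} (h : a ≡ b [MOD n]) : ζ n ^ a = ζ n ^ b :=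
  pow_eq_pow_of_modEq h (ζ_primitive hn).pow_eq_one

lemma ζ_pow_val_add {n : ℕ} [NeZero n] (a b : ZMod n) :
    ζ n ^ (a + b).val = ζ n ^ a.val * ζ n ^ b.val := by
  rw [← pow_add]
  apply ζ_pow_eq (NeZero.ne n)
  rw [ZMod.val_add]
  exact Nat.mod_modEq _ _

lemma ζ_ne_one {n : ℕ} (hn : 2 ≤ n) : ζ n ≠ 1 := (ζ_primitive (by omega)).ne_one (by omega)

lemma norm_ζ_pow {n : ℕ} (hn : n ≠ 0) (a : ℕ) : ‖ζ n ^ a‖ = 1 := by
  rw [norm_pow]
  have h : ‖ζ n‖ = 1 := (ζ_primitive hn).norm'_eq_one hn
  rw [h, one_pow]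

lemma corner_succ_sub {n : ℕ} (hn : 2 ≤ n) (k : ZMod n) :
    corner n (k + 1) - corner n k = ζ n ^ k.val := by
  have : NeZero n := ⟨by omega⟩
  have : Fact (1 < n) := ⟨by omega⟩
  unfold corner
  rw [ζ_pow_val_add, ZMod.val_one, pow_one]
  have h : ζ n - 1 ≠ 0 := sub_ne_zero.mpr (ζ_ne_one hn)
  field_simp

lemma motion_eq {n : ℕ} (k k' : ZMod n) (z : ℂ) :
    motion n k k' z = -(ζ n ^ (k' - k).val) * z + motion n k k' 0 := by
  unfold motion
  ring

lemma motion_corner {n : ℕ} (k k' : ZMod n) :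
    motion n k k' (corner n k) = corner n (k' + 1) := by
  unfold motion
  ring

lemma motion_corner_succ {n : ℕ} (hn : 2 ≤ n) (k k' : ZMod n) :
    motion n k k' (corner n (k + 1)) = corner n k' := by
  have : NeZero n := ⟨by omega⟩
  unfold motion
  rw [corner_succ_sub hn]
  have h1 : ζ n ^ (k' - k).val * ζ n ^ k.val = ζ n ^ k'.val := by
    rw [← ζ_pow_val_add]
    congr 2
    ring
  rw [h1, ← corner_succ_sub hn k']
  ring

/-! ### The generalised area of a folding -/

/-- The additive maps `ℂ → ℂ` used as coordinates: linear over the subfield `K`. -/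
def KLin (K : Subfield ℂ) (Φ : ℂ →+ ℂ) : Prop := ∀ κ ∈ K, ∀ z, Φ (κ * z) = κ * Φ z

section folding

variable {M : ℕ} [NeZero M] {P : ZMod M → ℂ} {N : Net P} {n : ℕ} {S : NGonSurface n}

/-- First coordinate computation: the generalised area of the triangles of a net is the
generalised area of its boundary. -/
lemma net_sum (N : Net P) (Φ : ℂ →+ ℂ) :
    ∑ e : N.Tri × ZMod 3, cross (Φ (N.pos e.1 e.2)) (Φ (N.pos e.1 (e.2 + 1))) =
      ∑ k : ZMod M, ∑ j : Fin (N.m k),
        cross (Φ (P k + N.cut k j * (P (k + 1) - P k)))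
          (Φ (P k + N.cut k (j + 1) * (P (k + 1) - P k))) := by
  classical
  set f : N.Tri × ZMod 3 → ℝ :=
    fun e => cross (Φ (N.pos e.1 e.2)) (Φ (N.pos e.1 (e.2 + 1))) with hf
  have h1 : ∑ e : N.Tri × ZMod 3, f e = ∑ e ∈ Finset.univ.filter (fun e => N.adj e = e), f e := by
    rw [← Finset.sum_filter_add_sum_filter_not Finset.univ (fun e => N.adj e = e) f]
    have h2 : ∑ e ∈ Finset.univ.filter (fun e => ¬ N.adj e = e), f e = 0 := by
      refine Finset.sum_involution (fun e _ => N.adj e) ?_ ?_ ?_ ?_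
      · intro e he
        obtain ⟨ha, hb⟩ := N.adj_pos e (by simpa using he)
        simp only [hf, ha, hb]
        rw [cross_comm]
        ring
      · intro e he _
        simpa using he
      · intro e he
        simp only [Finset.mem_filter, Finset.mem_univ, true_and] at he ⊢
        intro h
        rw [N.adj_adj] at h
        exact he h.symm
      · intro e _
        exact N.adj_adj e
    rw [h2, add_zero]
  rw [h1]
  have h3 : Finset.univ.filter (fun e => N.adj e = e) =
      Finset.univ.image N.bdry := by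
    ext e
    simp only [Finset.mem_filter, Finset.mem_univ, true_and, Finset.mem_image]
    have : e ∈ Set.range N.bdry ↔ e ∈ {e | N.adj e = e} := by rw [N.bdry_range]
    simpa using this.symm
  rw [h3, Finset.sum_image (fun a _ b _ h => N.bdry_inj h)]
  rw [Fintype.sum_sigma]
  apply Finset.sum_congr rfl
  intro k _
  apply Finset.sum_congr rfl
  intro j _
  simp only [hf, N.bdry_start, N.bdry_stop]

omit [NeZero M] in
/-- Second coordinate computation: the generalised area of the images of the triangles in the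
faces of the surface is the generalised area of the faces. -/
lemma loc_sum (hn : 2 ≤ n) [NeZero n] (φ : Folding N S) (K : Subfield ℂ) (hK : ζ n ∈ K)
    (Ψ : ℂ →+ ℂ) (hΨ : KLin K Ψ) :
    ∑ e : N.Tri × ZMod 3, cross (Ψ (φ.loc e.1 e.2)) (Ψ (φ.loc e.1 (e.2 + 1))) =
      ∑ x : S.Face × ZMod n, cross (Ψ (corner n x.2)) (Ψ (corner n (x.2 + 1))) := by
  classical
  -- the defect of a pair of glued segments
  let Q : ZMod n → ZMod n → ℂ →+ ℝ := fun k k' =>
    (crossHom (Ψ (motion n k k' 0))).comp
      ((AddMonoidHom.mulLeft (ζ n ^ (k' - k).val)).comp Ψ)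
  have hQ : ∀ k k' v, Q k k' v = cross (Ψ (motion n k k' 0)) (ζ n ^ (k' - k).val * Ψ v) :=
    fun _ _ _ => rfl
  have hmot : ∀ k k' z, Ψ (motion n k k' z) =
      -(ζ n ^ (k' - k).val * Ψ z) + Ψ (motion n k k' 0) := by
    intro k k' z
    rw [motion_eq, map_add]
    congr 1
    have : -(ζ n ^ (k' - k).val) ∈ K := K.neg_mem (K.pow_mem hK _)
    rw [hΨ _ this, neg_mul]
  have hpairQ : ∀ k k' x y,
      cross (Ψ x) (Ψ y) + cross (Ψ (motion n k k' y)) (Ψ (motion n k k' x)) =
        Q k k' (y - x) := by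
    intro k k' x y
    rw [hQ, hmot, hmot k k' x, map_sub, mul_sub, cross_sub_right]
    set ρ := ζ n ^ (k' - k).val
    set β := Ψ (motion n k k' 0)
    rw [cross_add_left, cross_add_right, cross_add_right, cross_self, cross_neg_left,
      cross_neg_right, cross_neg_left, cross_neg_right, cross_mul_mul,
      norm_ζ_pow (NeZero.ne n), cross_comm (Ψ x) (Ψ y), cross_comm (ρ * Ψ y) β]
    ring
  -- the sum over the edges
  set f : N.Tri × ZMod 3 → ℝ :=
    fun e => cross (Ψ (φ.loc e.1 e.2)) (Ψ (φ.loc e.1 (e.2 + 1))) with hf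
  let w : N.Tri × ZMod 3 → ℂ := fun e => φ.loc e.1 (e.2 + 1) - φ.loc e.1 e.2
  have hf2 : ∀ e, f e + f (φ.pair e) =
      ∑ x : S.Face × ZMod n, if φ.face e.1 = x.1 ∧ φ.side e = some x.2 then
        Q x.2 (S.glue x).2 (w e) else 0 := by
    intro e
    rcases hs : φ.side e with _ | k
    · obtain ⟨_, _, h3, h4⟩ := φ.inner e hs
      simp only [hf, h3, h4]
      rw [cross_comm]
      simp
    · obtain ⟨_, _, h3, h4⟩ := φ.outer e k hs
      simp only [hf, h3, h4]
      rw [hpairQ]
      rw [Finset.sum_eq_single (φ.face e.1, k)]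
      · simp [w]
      · intro x _ hx
        rw [if_neg]
        rintro ⟨ha, hb⟩
        apply hx
        have hb' : k = x.2 := by simpa using hb
        ext <;> simp [ha, hb']
      · simp
  have hsumf : 2 * ∑ e, f e = ∑ x : S.Face × ZMod n,
      Q x.2 (S.glue x).2 (corner n (x.2 + 1) - corner n x.2) := by
    have h1 : ∑ e, f (φ.pair e) = ∑ e, f e :=
      Equiv.sum_comp (Function.Involutive.toPerm φ.pair φ.pair_pair) f
    have h2 : 2 * ∑ e, f e = ∑ e, (f e + f (φ.pair e)) := by
      rw [Finset.sum_add_distrib, h1]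
      ring
    rw [h2]
    simp_rw [hf2]
    rw [Finset.sum_comm]
    apply Finset.sum_congr rfl
    intro x _
    rw [← φ.side_cover x.1 x.2]
    rw [finsum_mem_eq_finite_toFinset_sum _ (Set.toFinite _), map_sum]
    rw [← Finset.sum_filter]
    apply Finset.sum_congr
    · ext e
      simp
    · intro e _
      rfl
  have hsumg : 2 * ∑ x : S.Face × ZMod n, cross (Ψ (corner n x.2)) (Ψ (corner n (x.2 + 1))) =
      ∑ x : S.Face × ZMod n, Q x.2 (S.glue x).2 (corner n (x.2 + 1) - corner n x.2) := by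
    set g : S.Face × ZMod n → ℝ :=
      fun x => cross (Ψ (corner n x.2)) (Ψ (corner n (x.2 + 1))) with hg
    have h1 : ∑ x, g (S.glue x) = ∑ x, g x :=
      Equiv.sum_comp (Function.Involutive.toPerm S.glue S.glue_glue) g
    have h2 : 2 * ∑ x, g x = ∑ x, (g x + g (S.glue x)) := by
      rw [Finset.sum_add_distrib, h1]
      ring
    rw [h2]
    apply Finset.sum_congr rfl
    intro x _
    rw [← hpairQ, motion_corner, motion_corner_succ hn]
  have := hsumf.trans hsumg.symm
  linarith

end folding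

end Pool.Agent.H69.Unfold
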