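import Pool.Agent.H69.CyclicWord
import Pool.Agent.H69.UnfoldLemmas

set_option autoImplicit false

namespace Pool.Agent.H69.Unfold

open Complex

/-! ### Star polygons -/

/-- The end point of the star path that starts at `z` and turns around the centers `c` with the
factors `h`, for all `(c, h)` in the list. -/
noncomputable def endPt : ℂ → List (ℂ × ℂ) → ℂ
  | z, [] => z
  | z, x :: l => endPt (x.1 + x.2 * (z - x.1)) l

/-- Twice the area swept by the star path
`z, c₁, z₁ = c₁ + h₁ (z - c₁), c₂, z₂ = c₂ + h₂ (z₁ - c₂), ...`. -/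
noncomputable def starPath : ℂ → List (ℂ × ℂ) → ℝ
  | _, [] => 0
  | z, x :: l => cross z x.1 + cross x.1 (x.1 + x.2 * (z - x.1)) +
      starPath (x.1 + x.2 * (z - x.1)) l

lemma endPt_nil (z : ℂ) : endPt z [] = z := rfl

lemma endPt_cons (z : ℂ) (x : ℂ × ℂ) (l : List (ℂ × ℂ)) :
    endPt z (x :: l) = endPt (x.1 + x.2 * (z - x.1)) l := rfl

lemma starPath_nil (z : ℂ) : starPath z [] = 0 := rfl

lemma starPath_cons (z : ℂ) (x : ℂ × ℂ) (l : List (ℂ × ℂ)) :
    starPath z (x :: l) = cross z x.1 + cross x.1 (x.1 + x.2 * (z - x.1)) +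
      starPath (x.1 + x.2 * (z - x.1)) l := rfl

lemma endPt_append (z : ℂ) (l l' : List (ℂ × ℂ)) :
    endPt z (l ++ l') = endPt (endPt z l) l' := by
  induction l generalizing z with
  | nil => rfl
  | cons x l ih => exact ih _

lemma starPath_append (z : ℂ) (l l' : List (ℂ × ℂ)) :
    starPath z (l ++ l') = starPath z l + starPath (endPt z l) l' := by
  induction l generalizing z with
  | nil => simp [starPath_nil, endPt_nil]
  | cons x l ih =>
    rw [List.cons_append, starPath_cons, ih, starPath_cons, endPt_cons]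
    ring

lemma endPt_sub (z z' : ℂ) (l : List (ℂ × ℂ)) :
    endPt z l - endPt z' l = (l.map Prod.snd).prod * (z - z') := by
  induction l generalizing z z' with
  | nil => simp [endPt_nil]
  | cons x l ih =>
    rw [endPt_cons, endPt_cons, ih, List.map_cons, List.prod_cons]
    ring

/-- Moving the base point of a star path. -/
lemma starPath_move (z z' : ℂ) (l : List (ℂ × ℂ)) (hl : ∀ x ∈ l, ‖x.2‖ = 1) :
    starPath z' l = cross z' z + starPath z l + cross (endPt z l) (endPt z' l) := by
  induction l generalizing z z' with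
  | nil =>
    rw [starPath_nil, starPath_nil, endPt_nil, endPt_nil, cross_comm z z']
    ring
  | cons x l ih =>
    obtain ⟨c, h⟩ := x
    have hh : ‖h‖ = 1 := hl (c, h) List.mem_cons_self
    rw [starPath_cons, starPath_cons, endPt_cons, endPt_cons,
      ih (c + h * (z - c)) (c + h * (z' - c)) (fun y hy => hl y (List.mem_cons_of_mem _ hy))]
    have h1 : cross (c + h * (z' - c)) (c + h * (z - c)) =
        cross c (h * (z - c)) - cross c (h * (z' - c)) + cross (z' - c) (z - c) := by
      rw [cross_add_left, cross_add_right, cross_add_right, cross_self, cross_mul_mul, hh,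
        cross_comm c (h * (z' - c))]
      ring
    have h2 : cross (z' - c) (z - c) = cross z' z - cross z' c + cross z c := by
      rw [cross_sub_left, cross_sub_right, cross_sub_right, cross_self, cross_comm z c]
      ring
    rw [h1, h2, cross_add_right, cross_add_right, cross_self]
    ring

/-! ### Planar words with phases -/

namespace PWord

variable {n : ℕ} {p : ℕ → ℕ}

/-- a planar word seen as a star path -/
theorem cblock (hp : PWord n p) (ε : ℕ → ℂ) (bad : ℕ → Prop) (h : ℂ) (hh : ‖h‖ = 1)
    (hε : ∀ i < n, ε (p i) * ε i = 1)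
    (hhol : ∀ a < n, a < p a → ∀ q, (fun x => p x + 1)^[q] (a + 1) = p a →
      (∀ j < q, (fun x => p x + 1)^[j] (a + 1) < (fun x => p x + 1)^[j + 1] (a + 1)) →
      (bad (a + 1) → (∏ j ∈ Finset.range q, ε ((fun x => p x + 1)^[j] (a + 1))) * ε (p a) * h = 1) ∧
      (¬ bad (a + 1) → (∏ j ∈ Finset.range q, ε ((fun x => p x + 1)^[j] (a + 1))) * ε (p a) = 1)) :
    ∀ k a b : ℕ, b - a ≤ k → a ≤ b → b ≤ n → (∀ q, a ≤ q → q < b → a ≤ p q ∧ p q < b) →
      ∃ J : List ℕ, (∀ i ∈ J, ∃ m, a ≤ m ∧ m < b ∧ m < p m ∧ i = m + 1 ∧ bad i) ∧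
        J.Pairwise (· < ·) ∧
        (∃ q, (fun x => p x + 1)^[q] a = b ∧
          (∀ j < q, (fun x => p x + 1)^[j] a < (fun x => p x + 1)^[j + 1] a) ∧
          ∏ j ∈ Finset.range q, ε ((fun x => p x + 1)^[j] a) = h ^ J.length) ∧
        ∀ F : ℕ → ℂ, (∀ i < n, F (p i + 1) - F (p i) = -(ε i * (F (i + 1) - F i))) →
          F b = endPt (F a) (J.map fun i => (F i, h)) ∧
          ∑ i ∈ Finset.Ico a b, cross (F i) (F (i + 1)) =
            starPath (F a) (J.map fun i => (F i, h)) := by
  classical
  intro k
  induction k with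
  | zero =>
    intro a b hk hab hbn hcl
    have : a = b := by omega
    subst this
    refine ⟨[], by simp, List.Pairwise.nil, ⟨0, rfl, by simp, by simp⟩, ?_⟩
    intro F _
    simp [endPt_nil, starPath_nil]
  | succ k ih =>
    intro a b hk hab hbn hcl
    rcases Nat.eq_or_lt_of_le hab with heq | hlt
    · subst heq
      refine ⟨[], by simp, List.Pairwise.nil, ⟨0, rfl, by simp, by simp⟩, ?_⟩
      intro F _
      simp [endPt_nil, starPath_nil]
    have han : a < n := lt_of_lt_of_le hlt hbn
    obtain ⟨h1, h2⟩ := hcl a le_rfl hlt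
    have hne := hp.ne a han
    have hapa : a < p a := lt_of_le_of_ne h1 (Ne.symm hne)
    have hpan : p a < n := hp.lt a han
    -- inner block
    obtain ⟨J₁, i1, i2, ⟨q₁, i3, i4, i5⟩, i6⟩ := ih (a + 1) (p a) (by omega) (by omega) (by omega)
      (by
        intro q hq1 hq2
        obtain ⟨h3, h4⟩ := hp.inner han (show a < q by omega) hq2
        exact ⟨by omega, h4⟩)
    -- rest
    obtain ⟨J₂, r1, r2, ⟨q₂, r3, r4, r5⟩, r6⟩ := ih (p a + 1) b (by omega) (by omega) hbn (by
      intro q hq1 hq2
      obtain ⟨h3, h4⟩ := hcl q (by omega) hq2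
      refine ⟨?_, h4⟩
      have hqn : q < n := by omega
      by_contra hcon
      have hle : p q ≤ p a := by omega
      have hne2 : p q ≠ p a := fun h' => by
        have := hp.inj hqn han h'
        omega
      rcases Nat.eq_or_lt_of_le h3 with h5 | h5
      · have : q = p a := by rw [← hp.inv q hqn, ← h5]
        omega
      · obtain ⟨h6, h7⟩ := hp.inner han h5 (lt_of_le_of_ne hle hne2)
        rw [hp.inv q hqn] at h7
        omega)
    obtain ⟨hb1, hb2⟩ := hhol a han hapa q₁ i3 i4
    rw [i5] at hb1 hb2
    have hεa := hε a han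
    have hnorm : ∀ (J : List ℕ) (F : ℕ → ℂ), ∀ x ∈ J.map (fun i => (F i, h)), ‖x.2‖ = 1 := by
      intro J F x hx
      obtain ⟨i, _, rfl⟩ := List.mem_map.mp hx
      exact hh
    have hprod : ∀ (J : List ℕ) (F : ℕ → ℂ),
        ((J.map (fun i => (F i, h))).map Prod.snd).prod = h ^ J.length := by
      intro J F
      rw [List.map_map]
      have : (Prod.snd ∘ fun i => (F i, h)) = fun _ : ℕ => h := rfl
      rw [this]
      simp
    have hsum : ∀ F : ℕ → ℂ, ∑ i ∈ Finset.Ico a b, cross (F i) (F (i + 1)) =
        cross (F a) (F (a + 1)) + (∑ i ∈ Finset.Ico (a + 1) (p a), cross (F i) (F (i + 1))) +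
          cross (F (p a)) (F (p a + 1)) +
          ∑ i ∈ Finset.Ico (p a + 1) b, cross (F i) (F (i + 1)) := by
      intro F
      rw [← Finset.sum_Ico_consecutive _ (show a ≤ p a + 1 by omega) (show p a + 1 ≤ b by omega),
        Finset.sum_Ico_succ_top (show a ≤ p a by omega),
        Finset.sum_eq_sum_Ico_succ_bot hapa]
    -- the path of the class of a
    have hiter : ∀ j, (fun x => p x + 1)^[j + 1] a = (fun x => p x + 1)^[j] (p a + 1) := by
      intro j
      rw [Function.iterate_succ_apply]
    have hlt' : ∀ j < q₂ + 1, (fun x => p x + 1)^[j] a < (fun x => p x + 1)^[j + 1] a := by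
      intro j hj
      rcases Nat.eq_zero_or_pos j with h0 | h0
      · subst h0
        change a < p a + 1
        omega
      · obtain ⟨j', rfl⟩ : ∃ j', j = j' + 1 := ⟨j - 1, by omega⟩
        rw [hiter, hiter]
        exact r4 j' (by omega)
    by_cases hbad : bad (a + 1)
    · have hb := hb1 hbad
      have hεa2 : ε a = h ^ (J₁.length + 1) := by
        calc ε a = (h ^ J₁.length * ε (p a) * h) * ε a := by rw [hb, one_mul]
          _ = h ^ J₁.length * h * (ε (p a) * ε a) := by ring
          _ = h ^ (J₁.length + 1) := by rw [hεa, mul_one, pow_succ]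
      refine ⟨(a + 1) :: (J₁ ++ J₂), ?_, ?_, ⟨q₂ + 1, ?_, hlt', ?_⟩, ?_⟩
      · intro i hi
        rcases List.mem_cons.mp hi with rfl | hi
        · exact ⟨a, le_rfl, hlt, hapa, rfl, hbad⟩
        · rcases List.mem_append.mp hi with hi | hi
          · obtain ⟨m, h5, h6, h7, h8, h9⟩ := i1 i hi
            exact ⟨m, by omega, by omega, h7, h8, h9⟩
          · obtain ⟨m, h5, h6, h7, h8, h9⟩ := r1 i hi
            exact ⟨m, by omega, by omega, h7, h8, h9⟩
      · rw [List.pairwise_cons, List.pairwise_append]
        refine ⟨?_, i2, r2, ?_⟩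
        · intro i hi
          rcases List.mem_append.mp hi with hi | hi
          · obtain ⟨m, h5, h6, h7, h8, h9⟩ := i1 i hi
            omega
          · obtain ⟨m, h5, h6, h7, h8, h9⟩ := r1 i hi
            omega
        · intro i hi j hj
          obtain ⟨m, h5, h6, h7, h8, h9⟩ := i1 i hi
          obtain ⟨m', h5', h6', h7', h8', h9'⟩ := r1 j hj
          omega
      · rw [hiter]
        exact r3
      · rw [Finset.prod_range_succ']
        simp_rw [hiter]
        rw [r5]
        change h ^ J₂.length * ε a = _
        rw [hεa2]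
        simp only [List.length_cons, List.length_append]
        ring
      · intro F hF
        obtain ⟨f1, f2⟩ := i6 F hF
        obtain ⟨f3, f4⟩ := r6 F hF
        have hFa := hF a han
        have hz : F (p a + 1) = endPt (F (a + 1) + h * (F a - F (a + 1)))
            (J₁.map fun i => (F i, h)) := by
          have h5 := endPt_sub (F (a + 1) + h * (F a - F (a + 1))) (F (a + 1))
            (J₁.map fun i => (F i, h))
          rw [hprod, ← f1] at h5
          rw [hεa2] at hFa
          linear_combination hFa - h5
        have hmv := starPath_move (F (a + 1)) (F (a + 1) + h * (F a - F (a + 1)))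
          (J₁.map fun i => (F i, h)) (hnorm _ _)
        rw [← f1, ← hz] at hmv
        rw [List.map_cons, List.map_append]
        constructor
        · rw [endPt_cons, endPt_append, ← hz]
          exact f3
        · rw [starPath_cons, starPath_append, ← hz, ← f4, hsum, f2]
          simp only
          rw [hmv, cross_comm (F (a + 1)) (F (a + 1) + h * (F a - F (a + 1)))]
          ring
    · have hb := hb2 hbad
      have hεa2 : ε a = h ^ J₁.length := by
        calc ε a = (h ^ J₁.length * ε (p a)) * ε a := by rw [hb, one_mul]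
          _ = h ^ J₁.length * (ε (p a) * ε a) := by ring
          _ = h ^ J₁.length := by rw [hεa, mul_one]
      refine ⟨J₁ ++ J₂, ?_, ?_, ⟨q₂ + 1, ?_, hlt', ?_⟩, ?_⟩
      · intro i hi
        rcases List.mem_append.mp hi with hi | hi
        · obtain ⟨m, h5, h6, h7, h8, h9⟩ := i1 i hi
          exact ⟨m, by omega, by omega, h7, h8, h9⟩
        · obtain ⟨m, h5, h6, h7, h8, h9⟩ := r1 i hi
          exact ⟨m, by omega, by omega, h7, h8, h9⟩
      · rw [List.pairwise_append]
        refine ⟨i2, r2, ?_⟩
        intro i hi j hj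
        obtain ⟨m, h5, h6, h7, h8, h9⟩ := i1 i hi
        obtain ⟨m', h5', h6', h7', h8', h9'⟩ := r1 j hj
        omega
      · rw [hiter]
        exact r3
      · rw [Finset.prod_range_succ']
        simp_rw [hiter]
        rw [r5]
        change h ^ J₂.length * ε a = _
        rw [hεa2]
        simp only [List.length_append]
        ring
      · intro F hF
        obtain ⟨f1, f2⟩ := i6 F hF
        obtain ⟨f3, f4⟩ := r6 F hF
        have hFa := hF a han
        have hz : F (p a + 1) = endPt (F a) (J₁.map fun i => (F i, h)) := by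
          have h5 := endPt_sub (F a) (F (a + 1)) (J₁.map fun i => (F i, h))
          rw [hprod, ← f1] at h5
          rw [hεa2] at hFa
          linear_combination hFa - h5
        have hmv := starPath_move (F (a + 1)) (F a) (J₁.map fun i => (F i, h)) (hnorm _ _)
        rw [← f1, ← hz] at hmv
        rw [List.map_append]
        constructor
        · rw [endPt_append, ← hz]
          exact f3
        · rw [starPath_append, ← hz, ← f4, hsum, f2, hmv]

end PWord

end Pool.Agent.H69.Unfold
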