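import Pool.Agent.H69.UnfoldLemmas

set_option autoImplicit false

namespace Pool.Agent.H69.Unfold

open Complex

section folding

variable {M : ℕ} {P : ZMod M → ℂ} {N : Net P} {n : ℕ} {S : NGonSurface n}

lemma Net.edge_ne (N : Net P) (t : N.Tri) (i : ZMod 3) : N.pos t (i + 1) ≠ N.pos t i := by
  have h := N.ccw t
  have h01 : N.pos t 1 ≠ N.pos t 0 := by
    intro h'
    rw [h', sub_self] at h
    simp [cross] at h
  have h02 : N.pos t 2 ≠ N.pos t 0 := by
    intro h'
    rw [h', sub_self] at h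
    simp [cross] at h
  have h12 : N.pos t 2 ≠ N.pos t 1 := by
    intro h'
    rw [h', cross_self] at h
    exact lt_irrefl _ h
  fin_cases i
  · exact h01
  · exact h12
  · exact h02.symm

/-- All linear parts of a folding agree up to a factor in `K` of norm one. -/
lemma rot_rel (φ : Folding N S) (K : Subfield ℂ) (hK : ζ n ∈ K) [NeZero n] (s t : N.Tri) :
    ∃ ρ ∈ K, ‖ρ‖ = 1 ∧ φ.rot t = ρ * φ.rot s := by
  induction N.conn s t with
  | refl => exact ⟨1, K.one_mem, by simp, by simp⟩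
  | @tail a b _ hab ih =>
    obtain ⟨ρ, hρK, hρ1, hρ⟩ := ih
    obtain ⟨i, j, hij⟩ := hab
    by_cases hfix : N.adj (a, i) = (a, i)
    · have : b = a := by
        rw [hij] at hfix
        exact congrArg Prod.fst hfix
      subst this
      exact ⟨ρ, hρK, hρ1, hρ⟩
    obtain ⟨hp1, hp2⟩ := N.adj_pos (a, i) hfix
    have hpair := φ.pair_adj (a, i) hfix
    rw [hij] at hp1 hp2 hpair
    simp only at hp1 hp2
    -- the edge vectors
    have hne := N.edge_ne a i
    rw [φ.pos_eq, φ.pos_eq] at hne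
    have hΔ : φ.loc a (i + 1) - φ.loc a i ≠ 0 := by
      intro h0
      apply hne
      rw [sub_eq_zero.mp h0]
    rw [φ.pos_eq, φ.pos_eq] at hp1 hp2
    rcases hs : φ.side (a, i) with _ | k
    · obtain ⟨_, _, h3, h4⟩ := φ.inner (a, i) hs
      rw [hpair] at h3 h4
      simp only at h3 h4
      rw [h3] at hp1
      rw [h4] at hp2
      have h5 : (φ.rot b - φ.rot a) * (φ.loc a (i + 1) - φ.loc a i) = 0 := by
        linear_combination hp1 - hp2
      have h6 : φ.rot b = φ.rot a := by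
        rcases mul_eq_zero.mp h5 with h | h
        · exact sub_eq_zero.mp h
        · exact absurd h hΔ
      exact ⟨ρ, hρK, hρ1, by rw [h6, hρ]⟩
    · obtain ⟨_, _, h3, h4⟩ := φ.outer (a, i) k hs
      rw [hpair] at h3 h4
      simp only at h3 h4
      set k' := (S.glue (φ.face a, k)).2
      rw [h3, motion_eq] at hp1
      rw [h4, motion_eq] at hp2
      set r := ζ n ^ (k' - k).val with hr
      have hr1 : ‖r‖ = 1 := norm_ζ_pow (NeZero.ne n) _
      have hr0 : r ≠ 0 := by
        intro h0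
        rw [h0] at hr1
        simp at hr1
      have h5 : (φ.rot a + φ.rot b * r) * (φ.loc a (i + 1) - φ.loc a i) = 0 := by
        linear_combination hp2 - hp1
      have h6 : φ.rot a + φ.rot b * r = 0 := by
        rcases mul_eq_zero.mp h5 with h | h
        · exact h
        · exact absurd h hΔ
      refine ⟨-(r⁻¹ * ρ), K.neg_mem (K.mul_mem (K.inv_mem (K.pow_mem hK _)) hρK), ?_, ?_⟩
      · rw [norm_neg, norm_mul, norm_inv, hr1, hρ1]
        norm_num
      · have h7 : φ.rot b = -(r⁻¹ * φ.rot a) := by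
          field_simp
          linear_combination h6
        rw [h7, hρ]
        ring

/-- Twice the area of the regular `n`-gon with unit sides. -/
noncomputable def area2 (n : ℕ) [NeZero n] : ℝ :=
  ∑ k : ZMod n, cross (corner n k) (corner n (k + 1))

lemma corner_mem (K : Subfield ℂ) (hK : ζ n ∈ K) (k : ZMod n) : corner n k ∈ K :=
  K.div_mem (K.pow_mem hK _) (K.sub_mem hK K.one_mem)

/-- The main formula: the generalised area of the boundary of a polygon that folds to a surface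
of regular `n`-gons. -/
theorem main_formula [NeZero M] (hn : 2 ≤ n) [NeZero n] (φ : Folding N S) (K : Subfield ℂ)
    (hK : ζ n ∈ K) (Φ : ℂ →+ ℂ) (hΦ : KLin K Φ) (t₀ : N.Tri) :
    ∑ k : ZMod M, ∑ j : Fin (N.m k),
        cross (Φ (P k + N.cut k j * (P (k + 1) - P k)))
          (Φ (P k + N.cut k (j + 1) * (P (k + 1) - P k))) =
      Fintype.card S.Face * area2 n * ‖Φ (φ.rot t₀)‖ ^ 2 := by
  classical
  rw [← net_sum N Φ]
  let Ψ : ℂ →+ ℂ := Φ.comp (AddMonoidHom.mulLeft (φ.rot t₀))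
  have hΨ : KLin K Ψ := by
    intro κ hκ z
    change Φ (φ.rot t₀ * (κ * z)) = κ * Φ (φ.rot t₀ * z)
    rw [← hΦ κ hκ]
    congr 1
    ring
  have hΨval : ∀ κ ∈ K, Ψ κ = κ * Φ (φ.rot t₀) := by
    intro κ hκ
    change Φ (φ.rot t₀ * κ) = κ * Φ (φ.rot t₀)
    rw [mul_comm, hΦ κ hκ]
  have h1 : ∑ e : N.Tri × ZMod 3, cross (Φ (N.pos e.1 e.2)) (Φ (N.pos e.1 (e.2 + 1))) =
      ∑ e : N.Tri × ZMod 3, cross (Ψ (φ.loc e.1 e.2)) (Ψ (φ.loc e.1 (e.2 + 1))) := by
    rw [Fintype.sum_prod_type, Fintype.sum_prod_type]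
    apply Finset.sum_congr rfl
    intro t _
    obtain ⟨ρ, hρK, hρ1, hρ⟩ := rot_rel φ K hK t₀ t
    have hpos : ∀ j, Φ (N.pos t j) = ρ * Ψ (φ.loc t j) + Φ (φ.shift t) := by
      intro j
      rw [φ.pos_eq, map_add, hρ, mul_assoc, hΦ ρ hρK]
      rfl
    simp only [hpos]
    set c := Φ (φ.shift t)
    have h2 : ∀ j : ZMod 3, cross (ρ * Ψ (φ.loc t j) + c) (ρ * Ψ (φ.loc t (j + 1)) + c) =
        cross (Ψ (φ.loc t j)) (Ψ (φ.loc t (j + 1))) +
          (cross c (ρ * Ψ (φ.loc t (j + 1))) - cross c (ρ * Ψ (φ.loc t j))) := by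
      intro j
      rw [cross_add_left, cross_add_right, cross_add_right, cross_self, cross_mul_mul, hρ1,
        cross_comm c (ρ * Ψ (φ.loc t j))]
      ring
    simp_rw [h2]
    rw [Finset.sum_add_distrib, Finset.sum_sub_distrib]
    have h3 : ∑ j : ZMod 3, cross c (ρ * Ψ (φ.loc t (j + 1))) =
        ∑ j : ZMod 3, cross c (ρ * Ψ (φ.loc t j)) :=
      Equiv.sum_comp (Equiv.addRight (1 : ZMod 3)) (fun j => cross c (ρ * Ψ (φ.loc t j)))
    rw [h3]
    ring
  rw [h1, loc_sum hn φ K hK Ψ hΨ, Fintype.sum_prod_type]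
  simp only [Finset.sum_const, Finset.card_univ, nsmul_eq_mul]
  rw [mul_assoc]
  congr 1
  unfold area2
  rw [Finset.sum_mul]
  apply Finset.sum_congr rfl
  intro k _
  rw [hΨval _ (corner_mem K hK k), hΨval _ (corner_mem K hK (k + 1)), cross_mul_right_mul]
  ring

/-- Along a side whose points are mapped by `Φ` to a line, the generalised area does not depend
on the cuts. -/
lemma side_sum (Φ : ℂ →+ ℂ) (p v : ℂ) (m : ℕ) (cut : ℕ → ℝ) (h0 : cut 0 = 0) (h1 : cut m = 1)
    (D : ℂ) (hD : ∀ s : ℝ, ∃ l : ℝ, Φ (s * v) = l * D) :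
    ∑ j : Fin m, cross (Φ (p + cut j * v)) (Φ (p + cut (j + 1) * v)) =
      cross (Φ p) (Φ (p + v)) := by
  choose l hl using hD
  have h2 : ∀ j : ℕ, cross (Φ (p + cut j * v)) (Φ (p + cut (j + 1) * v)) =
      l (cut (j + 1)) * cross (Φ p) D - l (cut j) * cross (Φ p) D := by
    intro j
    rw [map_add, map_add, hl, hl, cross_add_left, cross_add_right, cross_add_right, cross_self]
    simp [cross]
    ring
  rw [Finset.sum_congr rfl (fun (j : Fin m) _ => h2 j)]
  rw [Fin.sum_univ_eq_sum_range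
    (fun j => l (cut (j + 1)) * cross (Φ p) D - l (cut j) * cross (Φ p) D) m,
    Finset.sum_range_sub (fun j => l (cut j) * cross (Φ p) D)]
  have h3 : Φ v = l 1 * D := by
    have := hl 1
    simpa using this
  have h4 : (l 0 : ℂ) * D = 0 := by
    have := hl 0
    simpa using this.symm
  have h5 : l 0 * cross (Φ p) D = 0 := by
    have h6 : cross (Φ p) ((l 0 : ℂ) * D) = 0 := by rw [h4, cross_zero_right]
    have h7 : cross (Φ p) ((l 0 : ℂ) * D) = l 0 * cross (Φ p) D := by
      simp [cross]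
      ring
    rw [← h7, h6]
  rw [h0, h1, h5, map_add, cross_add_right, cross_self, h3]
  simp [cross]
  ring

end folding

end Pool.Agent.H69.Unfold
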