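import Mathlib

set_option autoImplicit false

namespace Pool.Agent.H69.Unfold

open Complex

/-- The cross product `x ∧ y = Im (x̄ y)` of two plane vectors (twice the signed area of the
triangle `0, x, y`). -/
noncomputable def cross (x y : ℂ) : ℝ := (starRingEnd ℂ x * y).im

/-- `ζ n = exp (2 π i / n)`. -/
noncomputable def ζ (n : ℕ) : ℂ := Complex.exp (2 * Real.pi * Complex.I / n)

/-- The corners of the standard regular `n`-gon: centred at `0`, counterclockwise, with sides
`corner (k+1) - corner k = ζ^k` of length `1`. -/
noncomputable def corner (n : ℕ) (k : ZMod n) : ℂ := ζ n ^ k.val / (ζ n - 1)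

/-- The orientation preserving motion of the plane carrying side `k` of the standard `n`-gon to
side `k'` with reversed direction (`corner k ↦ corner (k'+1)`, `corner (k+1) ↦ corner k'`). -/
noncomputable def motion (n : ℕ) (k k' : ZMod n) (z : ℂ) : ℂ :=
  corner n (k' + 1) - ζ n ^ (k' - k).val * (z - corner n k)

/-- A closed surface made of finitely many regular `n`-gons with unit sides whose sides are glued
in pairs: side `k` of face `F` is glued, with reversed direction, to side `(glue (F, k)).2` of
the face `(glue (F, k)).1`. -/
structure NGonSurface (n : ℕ) where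
  /-- the faces -/
  Face : Type
  [fin : Fintype Face]
  /-- the gluing of the sides -/
  glue : Face × ZMod n → Face × ZMod n
  glue_glue : ∀ x, glue (glue x) = x

attribute [instance] NGonSurface.fin

/-- A triangulation of the polygon `P` (with corners `P k`, `k ∈ ℤ/M`, and sides from `P k` to
`P (k+1)`): counterclockwise non-overlapping triangles, adjacent edge to edge inside `P`
(`adj`, whose fixed points are the boundary edges), connected through adjacent triangles, such
that the boundary edges, in order, are the pieces into which side `k` of `P` is cut by the points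
`P k + cut k j • (P (k+1) - P k)`, `0 = cut k 0 < cut k 1 < ... < cut k (m k) = 1`. -/
structure Net {M : ℕ} (P : ZMod M → ℂ) where
  /-- the triangles -/
  Tri : Type
  [fin : Fintype Tri]
  /-- the vertices of the triangles -/
  pos : Tri → ZMod 3 → ℂ
  ccw : ∀ t, 0 < cross (pos t 1 - pos t 0) (pos t 2 - pos t 0)
  disj : ∀ s t, s ≠ t → Disjoint (interior (convexHull ℝ (Set.range (pos s))))
    (interior (convexHull ℝ (Set.range (pos t))))
  /-- the edge on the other side of an edge; boundary edges are the fixed points -/
  adj : Tri × ZMod 3 → Tri × ZMod 3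
  adj_adj : ∀ e, adj (adj e) = e
  adj_pos : ∀ e, adj e ≠ e → pos (adj e).1 (adj e).2 = pos e.1 (e.2 + 1) ∧
    pos (adj e).1 ((adj e).2 + 1) = pos e.1 e.2
  conn : ∀ s t, Relation.ReflTransGen (fun a b => ∃ i j, adj (a, i) = (b, j)) s t
  /-- the number of boundary edges on side `k` -/
  m : ZMod M → ℕ
  /-- the positions of the cuts of side `k` -/
  cut : ZMod M → ℕ → ℝ
  cut_zero : ∀ k, cut k 0 = 0
  cut_last : ∀ k, cut k (m k) = 1
  cut_lt : ∀ k, ∀ j < m k, cut k j < cut k (j + 1)
  /-- the boundary edges, in order -/
  bdry : (Σ k : ZMod M, Fin (m k)) → Tri × ZMod 3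
  bdry_inj : Function.Injective bdry
  bdry_range : Set.range bdry = {e | adj e = e}
  bdry_start : ∀ k j, pos (bdry ⟨k, j⟩).1 (bdry ⟨k, j⟩).2 = P k + cut k j * (P (k + 1) - P k)
  bdry_stop : ∀ k j, pos (bdry ⟨k, j⟩).1 ((bdry ⟨k, j⟩).2 + 1) =
    P k + cut k (j + 1) * (P (k + 1) - P k)

attribute [instance] Net.fin

/-- A folding of the triangulated polygon `N` onto the surface `S` scaled by the factor
`scale`: every triangle `t` is carried by an orientation preserving similarity
(`pos t j = rot t * loc t j + shift t`, `‖rot t‖ = scale`) into a face of `S`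
(the standard regular `n`-gon number `face t`), and the boundary edges of the triangulation are
glued in pairs (`pair`, which extends `adj`) such that the triangles tile `S` edge to edge:
an edge and its partner either coincide, with opposite directions, in the interior of a common
face (`side e = none`) or lie on two sides of faces that are glued in `S` and are identified by
this gluing (`side e = some k`), and the edges on each side of each face make up that side. -/
structure Folding {M : ℕ} {P : ZMod M → ℂ} (N : Net P) {n : ℕ} (S : NGonSurface n) where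
  /-- the length of the sides of the faces of the surface -/
  scale : ℝ
  scale_pos : 0 < scale
  /-- the face containing the image of a triangle -/
  face : N.Tri → S.Face
  /-- the vertices of the image of a triangle in its face -/
  loc : N.Tri → ZMod 3 → ℂ
  loc_mem : ∀ t j, loc t j ∈ convexHull ℝ (Set.range (corner n))
  /-- the linear part of the similarity -/
  rot : N.Tri → ℂ
  /-- the translation part of the similarity -/
  shift : N.Tri → ℂ
  norm_rot : ∀ t, ‖rot t‖ = scale
  pos_eq : ∀ t j, N.pos t j = rot t * loc t j + shift t
  /-- the gluing of the edges -/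
  pair : N.Tri × ZMod 3 → N.Tri × ZMod 3
  pair_pair : ∀ e, pair (pair e) = e
  pair_adj : ∀ e, N.adj e ≠ e → pair e = N.adj e
  /-- the side of the face containing the image of the edge, if there is one -/
  side : N.Tri × ZMod 3 → Option (ZMod n)
  inner : ∀ e, side e = none → side (pair e) = none ∧ face (pair e).1 = face e.1 ∧
    loc (pair e).1 (pair e).2 = loc e.1 (e.2 + 1) ∧
    loc (pair e).1 ((pair e).2 + 1) = loc e.1 e.2
  outer : ∀ e k, side e = some k →
    side (pair e) = some (S.glue (face e.1, k)).2 ∧
    face (pair e).1 = (S.glue (face e.1, k)).1 ∧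
    loc (pair e).1 (pair e).2 = motion n k (S.glue (face e.1, k)).2 (loc e.1 (e.2 + 1)) ∧
    loc (pair e).1 ((pair e).2 + 1) = motion n k (S.glue (face e.1, k)).2 (loc e.1 e.2)
  on_side : ∀ e k, side e = some k → ∃ s t : ℝ, 0 ≤ s ∧ s < t ∧ t ≤ 1 ∧
    loc e.1 e.2 = corner n k + s * (corner n (k + 1) - corner n k) ∧
    loc e.1 (e.2 + 1) = corner n k + t * (corner n (k + 1) - corner n k)
  side_cover : ∀ F k, ∑ᶠ e ∈ {e : N.Tri × ZMod 3 | face e.1 = F ∧ side e = some k},
    (loc e.1 (e.2 + 1) - loc e.1 e.2) = corner n (k + 1) - corner n k

end Pool.Agent.H69.Unfold
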