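import Pool.Agent.H69.UnfoldArea

set_option autoImplicit false

namespace Pool.Agent.H69.Unfold

open Complex

/-- Existence of generalised coordinates: `K`-linear, with values in `K`, mapping the line `ℝ δ`
to the real line and not vanishing at a given point. -/
theorem exists_coordinate (K : Subfield ℂ) (hconj : ∀ κ ∈ K, starRingEnd ℂ κ ∈ K)
    (κ₀ : ℂ) (hκ₀ : κ₀ ∈ K) (him : κ₀.im ≠ 0) (δ : ℂ) (hδ : δ ≠ 0) (α : ℂ) (hα : α ≠ 0) :
    ∃ Φ : ℂ →+ ℂ, KLin K Φ ∧ (∀ z, Φ z ∈ K) ∧ Φ α ≠ 0 ∧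
      ∀ r : ℝ, ∃ l : ℝ, Φ (r * δ) = l := by
  classical
  let Kp : Subfield ℝ := K.comap Complex.ofRealHom
  have hKp : ∀ r : ℝ, r ∈ Kp ↔ (r : ℂ) ∈ K := fun r => Iff.rfl
  -- coordinates
  let b : ℂ → ℝ := fun z => (z / δ).im / κ₀.im
  let a : ℂ → ℝ := fun z => (z / δ).re - b z * κ₀.re
  have hw : ∀ z, z / δ = a z + b z * κ₀ := by
    intro z
    apply Complex.ext
    · simp [a]
    · simp [b]
      field_simp
  have hb_add : ∀ x y, b (x + y) = b x + b y := by
    intro x y
    simp only [b, add_div, Complex.add_im]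
  have ha_add : ∀ x y, a (x + y) = a x + a y := by
    intro x y
    simp only [a, hb_add, add_div, Complex.add_re]
    ring
  -- the functional on the reals
  obtain ⟨ψ, hψ⟩ : ∃ ψ : Module.Dual Kp ℝ, ψ (a α) ≠ 0 ∨ ψ (b α) ≠ 0 := by
    by_contra hcon
    push Not at hcon
    have h1 : a α = 0 := (Module.forall_dual_apply_eq_zero_iff Kp (a α)).mp fun ψ => (hcon ψ).1
    have h2 : b α = 0 := (Module.forall_dual_apply_eq_zero_iff Kp (b α)).mp fun ψ => (hcon ψ).2
    have h3 := hw α
    rw [h1, h2] at h3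
    simp at h3
    tauto
  have hψK : ∀ r, ((ψ r : ℝ) : ℂ) ∈ K := fun r => (ψ r).2
  have hψs : ∀ s : ℝ, (s : ℂ) ∈ K → ∀ r : ℝ, ((ψ (s * r) : ℝ)) = s * (ψ r : ℝ) := by
    intro s hs r
    have := ψ.map_smul (⟨s, hs⟩ : Kp) r
    have h2 : ((⟨s, hs⟩ : Kp) • r : ℝ) = s * r := rfl
    rw [h2] at this
    rw [this]
    rfl
  have hψadd : ∀ x y : ℝ, ((ψ (x + y) : ℝ)) = (ψ x : ℝ) + (ψ y : ℝ) := by
    intro x y
    rw [map_add]
    rfl
  let Φ : ℂ →+ ℂ :=
    { toFun := fun z => ((ψ (a z) : ℝ) : ℂ) + κ₀ * ((ψ (b z) : ℝ) : ℂ)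
      map_zero' := by simp [a, b]
      map_add' := by
        intro x y
        rw [ha_add, hb_add, hψadd, hψadd]
        push_cast
        ring }
  have hΦ : ∀ z, Φ z = ((ψ (a z) : ℝ) : ℂ) + κ₀ * ((ψ (b z) : ℝ) : ℂ) := fun _ => rfl
  refine ⟨Φ, ?_, ?_, ?_, ?_⟩
  · intro κ hκ z
    -- coordinates of `κ`
    set t : ℝ := κ.im / κ₀.im with ht
    set s : ℝ := κ.re - t * κ₀.re with hs
    have hκeq : κ = s + t * κ₀ := by
      apply Complex.ext
      · simp [hs]
      · simp [ht]
        field_simp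
    have htK : (t : ℂ) ∈ K := by
      have h1 : (t : ℂ) = (κ - starRingEnd ℂ κ) / (κ₀ - starRingEnd ℂ κ₀) := by
        rw [Complex.sub_conj, Complex.sub_conj, ht]
        push_cast
        have : (κ₀.im : ℂ) ≠ 0 := by exact_mod_cast him
        field_simp
      rw [h1]
      exact K.div_mem (K.sub_mem hκ (hconj _ hκ)) (K.sub_mem hκ₀ (hconj _ hκ₀))
    have hsK : (s : ℂ) ∈ K := by
      have h1 : (s : ℂ) = κ - t * κ₀ := by
        rw [hκeq]
        ring
      rw [h1]
      exact K.sub_mem hκ (K.mul_mem htK hκ₀)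
    set T : ℝ := 2 * κ₀.re with hT
    set Nn : ℝ := Complex.normSq κ₀ with hNn
    have hTK : (T : ℂ) ∈ K := by
      have h1 : (T : ℂ) = κ₀ + starRingEnd ℂ κ₀ := by
        rw [Complex.add_conj]
      rw [h1]
      exact K.add_mem hκ₀ (hconj _ hκ₀)
    have hNK : (Nn : ℂ) ∈ K := by
      have h1 : (Nn : ℂ) = κ₀ * starRingEnd ℂ κ₀ := by
        rw [Complex.mul_conj]
      rw [h1]
      exact K.mul_mem hκ₀ (hconj _ hκ₀)
    have hκ₀sq : κ₀ ^ 2 = T * κ₀ - Nn := by
      apply Complex.ext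
      · simp [hT, hNn, sq, Complex.normSq_apply]
        ring
      · simp [hT, sq]
        ring
    have hzim : (z / δ).im = b z * κ₀.im := by
      have := congrArg Complex.im (hw z)
      simpa using this
    have hzre : (z / δ).re = a z + b z * κ₀.re := by
      have := congrArg Complex.re (hw z)
      simpa using this
    have hκim : κ.im = t * κ₀.im := by
      rw [ht]
      field_simp
    have hκre : κ.re = s + t * κ₀.re := by
      rw [hs]
      ring
    have hb : b (κ * z) = s * b z + (t * a z + (t * T) * b z) := by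
      have h1 : b (κ * z) = (κ * (z / δ)).im / κ₀.im := by
        simp only [b, mul_div_assoc]
      rw [h1, Complex.mul_im, hzim, hzre, hκim, hκre, hT]
      field_simp
      ring
    have ha : a (κ * z) = s * a z + (-(t * Nn)) * b z := by
      have h1 : a (κ * z) = (κ * (z / δ)).re - b (κ * z) * κ₀.re := by
        simp only [a, mul_div_assoc]
      rw [h1, Complex.mul_re, hzim, hzre, hκim, hκre, hb, hT, hNn, Complex.normSq_apply]
      ring
    rw [hΦ, hΦ, ha, hb, hψadd, hψadd, hψadd, hψs s hsK, hψs s hsK, hψs t htK,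
      hψs (t * T) (by push_cast; exact K.mul_mem htK hTK),
      hψs (-(t * Nn)) (by push_cast; exact K.neg_mem (K.mul_mem htK hNK)), hκeq]
    push_cast
    linear_combination (-(t : ℂ) * ((ψ (b z) : ℝ) : ℂ)) * hκ₀sq
  · intro z
    rw [hΦ]
    exact K.add_mem (hψK _) (K.mul_mem hκ₀ (hψK _))
  · rw [hΦ]
    intro h0
    have him0 : (ψ (b α) : ℝ) = 0 := by
      have := congrArg Complex.im h0
      simp at this
      rcases this with h | h
      · exact absurd h him
      · simp [h]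
    have hre0 : (ψ (a α) : ℝ) = 0 := by
      have := congrArg Complex.re h0
      simp [him0] at this
      simp [this]
    rcases hψ with h | h
    · apply h
      exact Subtype.ext hre0
    · apply h
      exact Subtype.ext him0
  · intro r
    refine ⟨(ψ (a (r * δ)) : ℝ), ?_⟩
    have hb0 : b (r * δ) = 0 := by
      simp only [b]
      rw [mul_div_assoc, div_self hδ]
      simp
    rw [hΦ, hb0]
    simp

end Pool.Agent.H69.Unfold
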