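import Pool.Agent.H69.UnfoldArea

set_option autoImplicit false

namespace Pool.Agent.H69.Unfold

open Complex

/-! ### The area of the regular `n`-gon -/

lemma corner_succ {n : ℕ} (hn : 2 ≤ n) (k : ZMod n) : corner n (k + 1) = corner n k * ζ n := by
  have : NeZero n := ⟨by omega⟩
  have : Fact (1 < n) := ⟨by omega⟩
  unfold corner
  rw [ζ_pow_val_add, ZMod.val_one, pow_one]
  ring

lemma area2_eq {n : ℕ} (hn : 2 ≤ n) [NeZero n] :
    area2 n = n * ((ζ n).im / ‖ζ n - 1‖ ^ 2) := by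
  unfold area2
  have h : ∀ k : ZMod n, cross (corner n k) (corner n (k + 1)) = (ζ n).im / ‖ζ n - 1‖ ^ 2 := by
    intro k
    rw [corner_succ hn]
    have h1 : cross (corner n k) (corner n k * ζ n) = ‖corner n k‖ ^ 2 * cross 1 (ζ n) := by
      rw [← cross_mul_mul, mul_one]
    rw [h1]
    have h2 : cross 1 (ζ n) = (ζ n).im := by simp [cross]
    rw [h2]
    unfold corner
    rw [norm_div, norm_ζ_pow (NeZero.ne n)]
    ring
  rw [Finset.sum_congr rfl (fun k _ => h k)]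
  simp

lemma ζ_im_pos {n : ℕ} (hn : 3 ≤ n) : 0 < (ζ n).im := by
  unfold ζ
  have h1 : (2 * (Real.pi : ℂ) * Complex.I / n) = ((2 * Real.pi / n : ℝ) : ℂ) * Complex.I := by
    push_cast
    ring
  rw [h1, Complex.exp_ofReal_mul_I_im]
  have hn' : (3 : ℝ) ≤ n := by exact_mod_cast hn
  apply Real.sin_pos_of_pos_of_lt_pi
  · positivity
  · rw [div_lt_iff₀ (by linarith)]
    nlinarith [Real.pi_pos]

lemma area2_pos {n : ℕ} (hn : 3 ≤ n) [NeZero n] : 0 < area2 n := by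
  rw [area2_eq (by omega)]
  have h1 := ζ_im_pos hn
  have h2 : ζ n - 1 ≠ 0 := sub_ne_zero.mpr (ζ_ne_one (by omega))
  have h3 : 0 < ‖ζ n - 1‖ := norm_pos_iff.mpr h2
  have h4 : (0 : ℝ) < n := by
    have : 0 < n := by omega
    exact_mod_cast this
  positivity

/-! ### Different kinds of faces: all cyclotomic numbers -/

/-- The field generated by all roots of unity. -/
noncomputable def rootField : Subfield ℂ := Subfield.closure {z | ∃ N : ℕ, 0 < N ∧ z ^ N = 1}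

lemma ζ_mem_rootField {n : ℕ} (hn : n ≠ 0) : ζ n ∈ rootField :=
  Subfield.subset_closure ⟨n, Nat.pos_of_ne_zero hn, (ζ_primitive hn).pow_eq_one⟩

lemma norm_root {z : ℂ} {N : ℕ} (hN : 0 < N) (hz : z ^ N = 1) : ‖z‖ = 1 :=
  Complex.norm_eq_one_of_pow_eq_one hz hN.ne'

lemma conj_root {z : ℂ} (h : ‖z‖ = 1) : starRingEnd ℂ z = z⁻¹ := by
  rw [Complex.inv_def, Complex.normSq_eq_norm_sq, h]
  simp

lemma rootField_conj : ∀ κ ∈ rootField, starRingEnd ℂ κ ∈ rootField := by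
  intro κ hκ
  unfold rootField at hκ
  induction hκ using Subfield.closure_induction with
  | mem x hx =>
    obtain ⟨N, hN, hx⟩ := hx
    rw [conj_root (norm_root hN hx)]
    exact rootField.inv_mem (Subfield.subset_closure ⟨N, hN, hx⟩)
  | one => simp [rootField.one_mem]
  | add x y _ _ hx hy => rw [map_add]; exact rootField.add_mem hx hy
  | neg x _ hx => rw [map_neg]; exact rootField.neg_mem hx
  | inv x _ hx => rw [map_inv₀]; exact rootField.inv_mem hx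
  | mul x y _ _ hx hy => rw [map_mul]; exact rootField.mul_mem hx hy

/-- The Galois automorphism used for two coprime kinds of faces. -/
lemma exists_aut {n₁ n₂ : ℕ} (h₁ : 3 ≤ n₁) (h₂ : 3 ≤ n₂) (hco : Nat.Coprime n₁ n₂) :
    ∃ σ : Gal((algebraicClosure ℚ ℂ)/ℚ), ∃ z₁ z₂ : algebraicClosure ℚ ℂ,
      (z₁ : ℂ) = ζ n₁ ∧ (z₂ : ℂ) = ζ n₂ ∧ σ z₁ = z₁ ∧ σ z₂ = z₂⁻¹ := by
  have hm : n₁ * n₂ ≠ 0 := by positivity
  have hprim : IsPrimitiveRoot (ζ (n₁ * n₂)) (n₁ * n₂) := ζ_primitive hm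
  have halg : IsAlgebraic ℚ (ζ (n₁ * n₂)) := by
    have := hprim.isIntegral (Nat.pos_of_ne_zero hm)
    exact (this.tower_top (A := ℚ)).isAlgebraic
  let z : algebraicClosure ℚ ℂ := ⟨ζ (n₁ * n₂), mem_algebraicClosure_iff.mpr halg⟩
  have hz : IsPrimitiveRoot z (n₁ * n₂) := by
    apply IsPrimitiveRoot.of_map_of_injective (f := (algebraicClosure ℚ ℂ).val) hprim
    exact Subtype.val_injective
  -- the exponent
  obtain ⟨a, ha1, ha2⟩ := Nat.chineseRemainder hco 1 (n₂ - 1)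
  have hco1 : Nat.Coprime a n₁ := by
    rw [Nat.Coprime, Nat.ModEq.gcd_eq ha1]
    simp
  have hco2 : Nat.Coprime a n₂ := by
    rw [Nat.Coprime, Nat.ModEq.gcd_eq ha2]
    have : Nat.Coprime (n₂ - 1) (n₂ - 1 + 1) := by simp
    have h3 : n₂ - 1 + 1 = n₂ := by omega
    rwa [h3] at this
  have hcoa : Nat.Coprime a (n₁ * n₂) := Nat.Coprime.mul_right hco1 hco2
  have hza : IsPrimitiveRoot (z ^ a) (n₁ * n₂) := hz.pow_of_coprime a hcoa
  have hconj : IsConjRoot ℚ (z ^ a) z := by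
    unfold IsConjRoot
    rw [← Polynomial.cyclotomic_eq_minpoly_rat hza (Nat.pos_of_ne_zero hm),
      ← Polynomial.cyclotomic_eq_minpoly_rat hz (Nat.pos_of_ne_zero hm)]
  have hclos : IsAlgClosure ℚ (algebraicClosure ℚ ℂ) := algebraicClosure.isAlgClosure ℚ ℂ
  have hnorm : Normal ℚ (algebraicClosure ℚ ℂ) := IsAlgClosure.normal ℚ (algebraicClosure ℚ ℂ)
  obtain ⟨σ, hσ⟩ := isConjRoot_iff_exists_algEquiv.mp hconj
  have hz1 : ζ (n₁ * n₂) ^ n₂ = ζ n₁ := by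
    unfold ζ
    rw [← Complex.exp_nat_mul]
    congr 1
    have : (n₂ : ℂ) ≠ 0 := by
      have : n₂ ≠ 0 := by omega
      exact_mod_cast this
    have : (n₁ : ℂ) ≠ 0 := by
      have : n₁ ≠ 0 := by omega
      exact_mod_cast this
    push_cast
    field_simp
  have hz2 : ζ (n₁ * n₂) ^ n₁ = ζ n₂ := by
    unfold ζ
    rw [← Complex.exp_nat_mul]
    congr 1
    have : (n₂ : ℂ) ≠ 0 := by
      have : n₂ ≠ 0 := by omega
      exact_mod_cast this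
    have : (n₁ : ℂ) ≠ 0 := by
      have : n₁ ≠ 0 := by omega
      exact_mod_cast this
    push_cast
    field_simp
  refine ⟨σ, z ^ n₂, z ^ n₁, ?_, ?_, ?_, ?_⟩
  · simpa [z] using hz1
  · simpa [z] using hz2
  · rw [map_pow, hσ, ← pow_mul]
    apply Subtype.ext
    have h1 : (((z ^ (a * n₂) : algebraicClosure ℚ ℂ)) : ℂ) = ζ n₁ ^ a := by
      rw [← hz1, ← pow_mul, mul_comm a]
      simp [z]
    have h2 : (((z ^ n₂ : algebraicClosure ℚ ℂ)) : ℂ) = ζ n₁ ^ 1 := by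
      rw [pow_one, ← hz1]
      simp [z]
    rw [h1, h2]
    exact ζ_pow_eq (by omega) ha1
  · rw [map_pow, hσ, ← pow_mul]
    apply Subtype.ext
    have h1 : (((z ^ (a * n₁) : algebraicClosure ℚ ℂ)) : ℂ) = ζ n₂ ^ a := by
      rw [← hz2, ← pow_mul, mul_comm a]
      simp [z]
    have h2 : (((z ^ n₁)⁻¹ : algebraicClosure ℚ ℂ) : ℂ) = (ζ n₂)⁻¹ := by
      rw [← hz2]
      simp [z]
    rw [h1, h2, ζ_pow_eq (by omega) ha2]
    apply eq_inv_of_mul_eq_one_left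
    rw [← pow_succ]
    have h3 : n₂ - 1 + 1 = n₂ := by omega
    rw [h3]
    exact (ζ_primitive (by omega)).pow_eq_one

/-- Automorphisms commute with complex conjugation on `rootField`. -/
lemma aut_conj (σ : Gal((algebraicClosure ℚ ℂ)/ℚ)) : ∀ κ ∈ rootField,
    ∃ x y : algebraicClosure ℚ ℂ, (x : ℂ) = κ ∧ (y : ℂ) = starRingEnd ℂ κ ∧
      ((σ y : algebraicClosure ℚ ℂ) : ℂ) =
        starRingEnd ℂ ((σ x : algebraicClosure ℚ ℂ) : ℂ) := by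
  intro κ hκ
  unfold rootField at hκ
  induction hκ using Subfield.closure_induction with
  | mem u hu =>
    obtain ⟨N, hN, hu⟩ := hu
    have halg : IsAlgebraic ℚ u := by
      refine ⟨Polynomial.X ^ N - 1, ?_, by simp [hu]⟩
      exact Polynomial.X_pow_sub_C_ne_zero hN 1
    let x : algebraicClosure ℚ ℂ := ⟨u, mem_algebraicClosure_iff.mpr halg⟩
    have hx : x ^ N = 1 := Subtype.ext (by simpa [x] using hu)
    refine ⟨x, x⁻¹, rfl, ?_, ?_⟩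
    · rw [conj_root (norm_root hN hu)]
      rfl
    · have h1 : ((σ x : algebraicClosure ℚ ℂ) : ℂ) ^ N = 1 := by
        have h2 : (σ x) ^ N = 1 := by rw [← map_pow, hx, map_one]
        have h3 := congrArg (fun t : algebraicClosure ℚ ℂ => (t : ℂ)) h2
        simpa using h3
      rw [conj_root (norm_root hN h1), map_inv₀]
      rfl
  | one => exact ⟨1, 1, rfl, by simp, by simp⟩
  | add u v _ _ hu hv =>
    obtain ⟨x, y, hx, hy, hxy⟩ := hu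
    obtain ⟨x', y', hx', hy', hxy'⟩ := hv
    refine ⟨x + x', y + y', ?_, ?_, ?_⟩
    · simp [hx, hx']
    · simp [hy, hy']
    · simp [hxy, hxy']
  | neg u _ hu =>
    obtain ⟨x, y, hx, hy, hxy⟩ := hu
    exact ⟨-x, -y, by simp [hx], by simp [hy], by simp [hxy]⟩
  | inv u _ hu =>
    obtain ⟨x, y, hx, hy, hxy⟩ := hu
    exact ⟨x⁻¹, y⁻¹, by simp [hx], by simp [hy], by simp [hxy]⟩
  | mul u v _ _ hu hv =>
    obtain ⟨x, y, hx, hy, hxy⟩ := hu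
    obtain ⟨x', y', hx', hy', hxy'⟩ := hv
    refine ⟨x * x', y * y', ?_, ?_, ?_⟩
    · simp [hx, hx']
    · simp [hy, hy']
    · simp [hxy, hxy']

/-- No area relation for two coprime kinds of faces. -/
theorem no_relation_coprime {n₁ n₂ : ℕ} (h₁ : 3 ≤ n₁) (h₂ : 3 ≤ n₂)
    (hco : Nat.Coprime n₁ n₂) [NeZero n₁] [NeZero n₂] (f₁ f₂ : ℕ) (hf₁ : 0 < f₁)
    (κ₁ κ₂ : ℂ) (hκ₁ : κ₁ ∈ rootField) (hκ₂ : κ₂ ∈ rootField) (hne : κ₁ ≠ 0)
    (h : f₁ * area2 n₁ * ‖κ₁‖ ^ 2 = f₂ * area2 n₂ * ‖κ₂‖ ^ 2) : False := by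
  obtain ⟨σ, z₁, z₂, hz₁, hz₂, hσ₁, hσ₂⟩ := exists_aut h₁ h₂ hco
  obtain ⟨x₁, y₁, hx₁, hy₁, hxy₁⟩ := aut_conj σ κ₁ hκ₁
  obtain ⟨x₂, y₂, hx₂, hy₂, hxy₂⟩ := aut_conj σ κ₂ hκ₂
  -- the purely imaginary numbers `2 i A_n`
  have key : ∀ n : ℕ, 3 ≤ n → ((ζ n - (ζ n)⁻¹) / ((ζ n - 1) * ((ζ n)⁻¹ - 1)) : ℂ) =
      2 * (((ζ n).im / ‖ζ n - 1‖ ^ 2 : ℝ) : ℂ) * Complex.I := by
    intro n hn
    have hnorm : ‖ζ n‖ = 1 := (ζ_primitive (by omega : n ≠ 0)).norm'_eq_one (by omega)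
    rw [← conj_root hnorm]
    have h1 : (ζ n - 1) * (starRingEnd ℂ (ζ n) - 1) = ((‖ζ n - 1‖ ^ 2 : ℝ) : ℂ) := by
      rw [← Complex.normSq_eq_norm_sq, ← Complex.mul_conj]
      simp
    rw [h1, Complex.sub_conj]
    push_cast
    ring
  have hA₁ := key n₁ h₁
  have hA₂ := key n₂ h₂
  set A₁ : ℝ := (ζ n₁).im / ‖ζ n₁ - 1‖ ^ 2
  set A₂ : ℝ := (ζ n₂).im / ‖ζ n₂ - 1‖ ^ 2
  have hA₁pos : 0 < A₁ := by
    have h3 : ζ n₁ - 1 ≠ 0 := sub_ne_zero.mpr (ζ_ne_one (by omega))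
    have h4 := ζ_im_pos h₁
    have h5 : 0 < ‖ζ n₁ - 1‖ := norm_pos_iff.mpr h3
    positivity
  have hA₂pos : 0 < A₂ := by
    have h3 : ζ n₂ - 1 ≠ 0 := sub_ne_zero.mpr (ζ_ne_one (by omega))
    have h4 := ζ_im_pos h₂
    have h5 : 0 < ‖ζ n₂ - 1‖ := norm_pos_iff.mpr h3
    positivity
  rw [area2_eq (by omega), area2_eq (by omega)] at h
  change (f₁ : ℝ) * (n₁ * A₁) * ‖κ₁‖ ^ 2 = f₂ * (n₂ * A₂) * ‖κ₂‖ ^ 2 at h
  -- the relation in the algebraic closure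
  let τ₁ : algebraicClosure ℚ ℂ := (z₁ - z₁⁻¹) / ((z₁ - 1) * (z₁⁻¹ - 1))
  let τ₂ : algebraicClosure ℚ ℂ := (z₂ - z₂⁻¹) / ((z₂ - 1) * (z₂⁻¹ - 1))
  have hτ₁ : (τ₁ : ℂ) = 2 * (A₁ : ℂ) * Complex.I := by
    rw [← hA₁, ← hz₁]
    simp [τ₁]
  have hτ₂ : (τ₂ : ℂ) = 2 * (A₂ : ℂ) * Complex.I := by
    rw [← hA₂, ← hz₂]
    simp [τ₂]
  have hrel : (f₁ : algebraicClosure ℚ ℂ) * n₁ * τ₁ * (x₁ * y₁) =
      f₂ * n₂ * τ₂ * (x₂ * y₂) := by
    apply Subtype.ext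
    push_cast
    rw [hτ₁, hτ₂, hx₁, hy₁, hx₂, hy₂, Complex.mul_conj, Complex.mul_conj,
      Complex.normSq_eq_norm_sq, Complex.normSq_eq_norm_sq]
    have h6 : ((f₁ * (n₁ * A₁) * ‖κ₁‖ ^ 2 : ℝ) : ℂ) = ((f₂ * (n₂ * A₂) * ‖κ₂‖ ^ 2 : ℝ) : ℂ) := by
      rw [h]
    push_cast at h6 ⊢
    linear_combination (2 * Complex.I) * h6
  have hστ₁ : σ τ₁ = τ₁ := by
    simp only [τ₁, map_div₀, map_mul, map_sub, map_inv₀, map_one, hσ₁]
  have hστ₂ : σ τ₂ = -τ₂ := by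
    simp only [τ₂, map_div₀, map_mul, map_sub, map_inv₀, map_one, hσ₂, inv_inv]
    rw [mul_comm (z₂⁻¹ - 1), ← neg_div]
    congr 1
    ring
  have hrel2 : (f₁ : algebraicClosure ℚ ℂ) * n₁ * τ₁ * (σ x₁ * σ y₁) =
      f₂ * n₂ * (-τ₂) * (σ x₂ * σ y₂) := by
    have := congrArg σ hrel
    simpa only [map_mul, map_natCast, hστ₁, hστ₂] using this
  have hrel3 := congrArg (fun t : algebraicClosure ℚ ℂ => (t : ℂ)) hrel2
  push_cast at hrel3
  rw [hτ₁, hτ₂, hxy₁, hxy₂, Complex.mul_conj, Complex.mul_conj,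
    Complex.normSq_eq_norm_sq, Complex.normSq_eq_norm_sq] at hrel3
  set r₁ : ℝ := ‖((σ x₁ : algebraicClosure ℚ ℂ) : ℂ)‖
  set r₂ : ℝ := ‖((σ x₂ : algebraicClosure ℚ ℂ) : ℂ)‖
  push_cast at hrel3
  have hrel4 : f₁ * n₁ * A₁ * r₁ ^ 2 = -(f₂ * n₂ * A₂ * r₂ ^ 2) := by
    have h7 : ((f₁ * n₁ * A₁ * r₁ ^ 2 : ℝ) : ℂ) = ((-(f₂ * n₂ * A₂ * r₂ ^ 2) : ℝ) : ℂ) := by
      push_cast
      have h8 : (2 * Complex.I : ℂ) ≠ 0 := by simp
      apply mul_left_cancel₀ h8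
      linear_combination hrel3
    exact_mod_cast h7
  have hr₁ : 0 < r₁ := by
    apply norm_pos_iff.mpr
    intro h0
    have h9 : σ x₁ = 0 := Subtype.ext (by simpa using h0)
    have h10 : x₁ = 0 := by
      have := congrArg σ.symm h9
      simpa using this
    rw [h10] at hx₁
    exact hne (by simpa using hx₁.symm)
  have hn₁ : (0 : ℝ) < n₁ := by
    have : 0 < n₁ := by omega
    exact_mod_cast this
  have hf₁' : (0 : ℝ) < f₁ := by exact_mod_cast hf₁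
  have h11 : 0 < f₁ * n₁ * A₁ * r₁ ^ 2 := by positivity
  have h12 : 0 ≤ f₂ * n₂ * A₂ * r₂ ^ 2 := by positivity
  linarith

end Pool.Agent.H69.Unfold
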